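import Mathlib
import Pool.Agent.FB.U5.Defs2

/-!
# FB/U6: closed 4-braids, an absolute constant, second part: statements of the modules

Here the blocks may have two large weights `x`, `y`; the product `x y` is far from `1`.  The traces of the
products of the `T3` and of the `T2` are both estimated, and compared.
-/

set_option autoImplicit false

open Matrix LaurentPolynomial Pool.RU Pool.Agent.FB.U5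

namespace Pool.Agent.FB.U6

/-! ### analytic modules -/

/-- `N₂ = v + Q + (x y (1 + γ) - 1)` -/
noncomputable def N2 (Q : ℂ) (t : ℂ × ℂ × ℂ) (g : ℂ) : ℂ := v Q t + Q + (t.1 * t.2.1 * (1 + g) - 1)

/-- the new state of `T2` -/
noncomputable def step2 (Q : ℂ) (t : ℂ × ℂ × ℂ) (g : ℂ) : ℂ :=
  v Q t * (t.1 * t.2.1 * (1 + g) - 1) / N2 Q t g

/-- the factor of the other direction of `T2` -/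
noncomputable def d2 (Q : ℂ) (t : ℂ × ℂ × ℂ) (g : ℂ) : ℂ :=
  t.1 * t.2.1 * (v Q t - step2 Q t g) / N2 Q t g

/-- the state after a list of blocks (the last block acts first) -/
noncomputable def orb2 (Q : ℂ) (L : List (ℂ × ℂ × ℂ)) (g : ℂ) : ℂ := L.foldr (step2 Q) g

/-- the growth factor of `T2` -/
noncomputable def lam2 (Q : ℂ) : List (ℂ × ℂ × ℂ) → ℂ → ℂ
  | [], _ => 1
  | t :: L, g => N2 Q t (orb2 Q L g) / v Q t * lam2 Q L g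

/-- the factor of the other direction of a list of blocks -/
noncomputable def dd2 (Q : ℂ) : List (ℂ × ℂ × ℂ) → ℂ → ℂ
  | [], _ => 1
  | t :: L, g => d2 Q t (orb2 Q L g) * dd2 Q L g

/-- an admissible block -/
def Adm2 (η : ℝ) (t : ℂ × ℂ × ℂ) : Prop :=
  η * (1 + ‖t.2.2‖) ≤ ‖t.2.2 - 1‖ ∧ η * (1 + ‖t.1‖ + ‖t.2.1‖) ≤ ‖t.1 + t.2.1 - 2‖ ∧
    η * (1 + ‖t.1 * t.2.1‖) ≤ ‖t.1 * t.2.1 - 1‖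

/-- **All local estimates** -/
structure Good2 (η κ C : ℝ) (Q : ℂ) : Prop where
  pos : 0 < ‖Q‖
  κ_pos : 0 < κ
  one_le : 1 ≤ C
  κ_le : κ ≤ C
  small : 16 * C * ‖Q‖ ≤ 1
  v_ne : ∀ t, Adm2 η t → v Q t ≠ 0
  v_le : ∀ t, Adm2 η t → ‖v Q t‖ ≤ C * ‖Q‖
  N_ne : ∀ t p, Adm2 η t → Near κ Q p → N Q t p ≠ 0
  N2_ne : ∀ t g, Adm2 η t → ‖g‖ ≤ κ * ‖Q‖ → N2 Q t g ≠ 0
  lam_ge : ∀ t g, Adm2 η t → ‖g‖ ≤ κ * ‖Q‖ →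
    (1 + ‖t.2.2‖) * (1 + ‖t.1 * t.2.1‖) ≤ C * ‖Q‖ * ‖N2 Q t g / v Q t‖
  near : ∀ t p, Adm2 η t → Near κ Q p → Near κ Q (step Q t p)
  near2 : ∀ t g, Adm2 η t → ‖g‖ ≤ κ * ‖Q‖ → ‖step2 Q t g‖ ≤ κ * ‖Q‖
  lip : ∀ t p q, Adm2 η t → Near κ Q p → Near κ Q q → dist (step Q t p) (step Q t q) ≤ dist p q / 2
  lip2 : ∀ t g h, Adm2 η t → ‖g‖ ≤ κ * ‖Q‖ → ‖h‖ ≤ κ * ‖Q‖ →
    dist (step2 Q t g) (step2 Q t h) ≤ dist g h / 2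
  Dm_le : ∀ t p, Adm2 η t → Near κ Q p → ∀ i j, ‖Dm Q t p i j‖ ≤ C * ‖Q‖
  d2_le : ∀ t g, Adm2 η t → ‖g‖ ≤ κ * ‖Q‖ → ‖d2 Q t g‖ ≤ C * ‖Q‖
  /-- blocks without `σ₃` -/
  stepA : ∀ t p g, Adm2 η t → Near κ Q p → ‖g‖ ≤ κ * ‖Q‖ → t.2.1 = 1 →
    ‖(step Q t p).1 - v Q t‖ ≤ C * ‖Q‖ * ‖v Q t‖ ∧ ‖(step Q t p).2‖ ≤ C * ‖Q‖ * ‖p.2‖ ∧
      ‖step2 Q t g - (step Q t p).1‖ ≤ C * ‖Q‖ * (‖p.2‖ + ‖g - p.1‖)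
  ratA : ∀ t p g, Adm2 η t → Near κ Q p → ‖g‖ ≤ κ * ‖Q‖ → t.2.1 = 1 →
    ‖N2 Q t g / N Q t p - 1‖ ≤ C * (‖g - p.1‖ + ‖p.2‖) ∧
      ‖N2 Q t g / N Q t p - 1 - p.2‖ ≤ C * (‖Q‖ * ‖p.2‖ + ‖g - p.2‖ + ‖p.1‖)
  /-- blocks without `σ₁` -/
  stepB : ∀ t p g, Adm2 η t → Near κ Q p → ‖g‖ ≤ κ * ‖Q‖ → t.1 = 1 →
    ‖(step Q t p).2 - v Q t‖ ≤ C * ‖Q‖ * ‖v Q t‖ ∧ ‖(step Q t p).1‖ ≤ C * ‖Q‖ * ‖p.1‖ ∧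
      ‖step2 Q t g - (step Q t p).2‖ ≤ C * ‖Q‖ * (‖p.1‖ + ‖g - p.2‖)
  ratB : ∀ t p g, Adm2 η t → Near κ Q p → ‖g‖ ≤ κ * ‖Q‖ → t.1 = 1 →
    ‖N2 Q t g / N Q t p - 1‖ ≤ C * (‖g - p.2‖ + ‖p.1‖) ∧
      ‖N2 Q t g / N Q t p - 1 - p.1‖ ≤ C * (‖Q‖ * ‖p.1‖ + ‖g - p.1‖ + ‖p.2‖)
  /-- all blocks -/
  ratD : ∀ t p g, Adm2 η t → Near κ Q p → ‖g‖ ≤ κ * ‖Q‖ →
    ‖N2 Q t g‖ * (1 + ‖t.1‖ + ‖t.2.1‖) ≤ C * ‖N Q t p‖ * (1 + ‖t.1 * t.2.1‖) ∧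
      ‖N Q t p‖ * (1 + ‖t.1 * t.2.1‖) ≤ C * ‖N2 Q t g‖ * (1 + ‖t.1‖ + ‖t.2.1‖)

/-- **Module U6_LOC** -/
def St_Loc : Prop := ∀ η : ℝ, 0 < η → η ≤ 1 → ∃ κ C Q₀ : ℝ, 0 < Q₀ ∧
  ∀ Q : ℂ, 0 < ‖Q‖ → ‖Q‖ < Q₀ → Good2 η κ C Q

/-- **Module U6_PROD** -/
def St_Prod : Prop := ∀ (η κ C : ℝ) (Q : ℂ), Good2 η κ C Q → ∀ L : List (ℂ × ℂ × ℂ), L ≠ [] →
  (∀ t ∈ L, Adm2 η t) → ∃ (p : ℂ × ℂ) (g : ℂ), Near κ Q p ∧ ‖g‖ ≤ κ * ‖Q‖ ∧ orb Q L p = p ∧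
    orb2 Q L g = g ∧
    (L.map (U5.T3 Q)).prod.trace = lam Q L p * (1 + (DD Q L p).trace) ∧
    (L.map (U5.T2 Q)).prod.trace = lam2 Q L g * (1 + dd2 Q L g) ∧
    ‖(DD Q L p).trace‖ ≤ 2 * (2 * C * ‖Q‖) ^ L.length ∧ ‖dd2 Q L g‖ ≤ (C * ‖Q‖) ^ L.length

open Classical in
/-- the contribution of a pair `s t` of consecutive blocks (`t` acts first); `e = 1` or `e = -1` -/
noncomputable def rat (e C : ℝ) (Q : ℂ) (s t : ℂ × ℂ × ℂ) : ℝ :=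
  (if (t.2.1 = 1 ∧ s.1 = 1) ∨ (t.1 = 1 ∧ s.2.1 = 1) then (v Q t).re + e * (C * ‖Q‖ * ‖v Q t‖)
    else 0) +
  (if s.1 ≠ 1 ∧ s.2.1 ≠ 1 then
    Real.log ((1 + ‖s.1 * s.2.1‖) / (1 + ‖s.1‖ + ‖s.2.1‖)) + e * C else 0)

/-- the sum over the cyclic list -/
noncomputable def ratS (e C : ℝ) (Q : ℂ) (L : List (ℂ × ℂ × ℂ)) : ℝ :=
  ((L.zip (L.rotate 1)).map fun q => rat e C Q q.1 q.2).sum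

/-- **Module U6_RATIO** -/
def St_Ratio : Prop := ∀ η κ C : ℝ, 0 < η → ∃ C' Q₁ : ℝ, 0 < Q₁ ∧ 1 ≤ C' ∧
  ∀ Q : ℂ, ‖Q‖ < Q₁ → Good2 η κ C Q → ∀ L : List (ℂ × ℂ × ℂ), L ≠ [] → (∀ t ∈ L, Adm2 η t) →
  ∀ (p : ℂ × ℂ) (g : ℂ), Near κ Q p → ‖g‖ ≤ κ * ‖Q‖ → orb Q L p = p → orb2 Q L g = g →
    Real.exp (ratS (-1) C' Q L) * ‖lam Q L p‖ ≤ ‖lam2 Q L g‖ ∧
      ‖lam2 Q L g‖ ≤ Real.exp (ratS 1 C' Q L) * ‖lam Q L p‖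

/-! ### further modules -/

/-- **Module U6_MUT**: for a word in `σ₁, σ₂` followed by a word in `σ₂, σ₃` only the product of the
weights of the two syllables `σ₂^b` at the turns matters; and rotations do not matter. -/
def St_Mut : Prop :=
  (∀ (Q : ℂ) (s t : ℂ × ℂ × ℂ) (P R : List (ℂ × ℂ × ℂ)) (z z' : ℂ), Q ≠ 0 →
    (∀ u ∈ s :: P, u.2.1 = 1) → (∀ u ∈ t :: R, u.1 = 1) → z * z' = s.2.2 * t.2.2 →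
    U5.EE Q ((s.1, s.2.1, z) :: P ++ (t.1, t.2.1, z') :: R) = U5.EE Q (s :: P ++ t :: R)) ∧
  ∀ (Q : ℂ) (L L' : List (ℂ × ℂ × ℂ)), L ~r L' → U5.EE Q L = U5.EE Q L'

/-- **Module U6_SUM**: a value of the bracket bounds the coefficient sum from below. -/
def St_SumGen : Prop := ∀ (β : List (ℤ × ℤ × ℤ)) (o : Tip 3 (0 + (word β).length) → Bool),
  (closure β).IsOrientation o → ∀ ε : ℤ, (ε = 1 ∨ ε = -1) → ∀ (M : ℝ) (T : ℤ),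
  (∀ u : ℂ, 16 ≤ ‖u‖ → ‖U5.EE (2 - u - u⁻¹) ((β.map (sc ε)).map (wts u))‖ ≤ M * ‖u‖ ^ T) →
  ∀ u : ℂ, 1 ≤ ‖u‖ → 2 - u - u⁻¹ ≠ 0 →
    ‖U5.EE (2 - u - u⁻¹) ((β.map (sc ε)).map (wts u))‖ ≤
      SPT.coeffSum ((closure β).normalized o) * ‖u‖ ^ T * Real.sqrt ‖2 - u - u⁻¹‖

/-- the exponent of growth of `T2` -/
def top2 (β : List (ℤ × ℤ × ℤ)) : ℤ := (β.map fun t => max 0 t.2.2 + max 0 (t.1 + t.2.1)).sum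

/-- **Module U6_GROW**: the growth of the bracket at infinity -/
def St_Grow : Prop :=
  (∀ β : List (ℤ × ℤ × ℤ), (∀ t ∈ β, ¬ (0 < t.1 ∧ 0 < t.2.1)) → ∃ M : ℝ, ∀ u : ℂ, 16 ≤ ‖u‖ →
    ‖U5.EE (2 - u - u⁻¹) (β.map (wts u))‖ ≤ M * ‖u‖ ^ (top β + 2)) ∧
  ∀ β : List (ℤ × ℤ × ℤ), (∀ t ∈ β, 0 ≤ t.1 * t.2.1) → ∃ M : ℝ, ∀ u : ℂ, 16 ≤ ‖u‖ →
    ‖U5.EE (2 - u - u⁻¹) (β.map (wts u))‖ ≤ M * ‖u‖ ^ (top2 β + 2)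

/-! ### the theorem -/

/-- `β = σ₂^b₁ σ₁^a₁ σ₃^c₁ ⋯ σ₂^b_m σ₁^a_m σ₃^c_m` with `|b_i| ≥ N`, and `|a_i|`, `|c_i|` at least `N` or
zero, not both zero; `σ₁` and `σ₃` occur; one of the three cases `a_i, c_i > 0`; `a_i, c_i < 0`;
`a_i c_i < 0` does not occur; and if the closed word is `X Y` with `X` a word in `σ₁, σ₂` and `Y` a word in
`σ₂, σ₃`, then the exponents of the first syllables `σ₂^b` of `X` and `σ₂^b'` of `Y` satisfy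
`N ≤ |b + b'|`. -/
def LongWord4 (N : ℤ) (β : List (ℤ × ℤ × ℤ)) : Prop :=
  (∀ t ∈ β, N ≤ |t.2.2| ∧ (t.1 = 0 ∨ N ≤ |t.1|) ∧ (t.2.1 = 0 ∨ N ≤ |t.2.1|) ∧
    ¬ (t.1 = 0 ∧ t.2.1 = 0)) ∧
  (∃ t ∈ β, t.1 ≠ 0) ∧ (∃ t ∈ β, t.2.1 ≠ 0) ∧
  ((∀ t ∈ β, ¬ (0 < t.1 ∧ 0 < t.2.1)) ∨ (∀ t ∈ β, ¬ (t.1 < 0 ∧ t.2.1 < 0)) ∨
    ∀ t ∈ β, 0 ≤ t.1 * t.2.1) ∧
  ∀ s t P R, β ~r s :: P ++ t :: R → (∀ u ∈ s :: P, u.2.1 = 0) → (∀ u ∈ t :: R, u.1 = 0) →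
    N ≤ |s.2.2 + t.2.2|

/-- **closed 4-braids, an absolute constant** -/
def St_FourBraids4 : Prop := ∃ N₀ : ℕ, 0 < N₀ ∧ ∀ N : ℕ, N₀ ≤ N → ∀ β : List (ℤ × ℤ × ℤ),
  LongWord4 N β → ∀ o, (closure β).IsOrientation o →
    (N : ℤ) ^ (2 * β.length - 1) ≤
      (N₀ : ℤ) ^ (2 * β.length - 1) * SPT.coeffSum ((closure β).normalized o)

end Pool.Agent.FB.U6
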