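import Pool.Agent.FB.U6.Defs

/-!
# FB/U6: mutation of a product of two words
-/

set_option autoImplicit false

open Matrix Pool.Agent.FB.U5

namespace Pool.Agent.FB.U6

namespace MUT

private noncomputable def A2 (Q a b c d : ℂ) : Matrix (Fin 2) (Fin 2) ℂ :=
  !![a, (Q - 1) * b; c, 1 + (Q - 1) * d]

private noncomputable def A3 (Q a b c d : ℂ) : Matrix (Fin 3) (Fin 3) ℂ :=
  !![a, b, (Q - 2) * b; c, 1 + d, (Q - 2) * d; c, d, 1 + (Q - 2) * d]

private noncomputable def B3 (Q a b c d : ℂ) : Matrix (Fin 3) (Fin 3) ℂ :=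
  !![1 + d, c, (Q - 2) * d; b, a, (Q - 2) * b; d, c, 1 + (Q - 2) * d]

private noncomputable def Z3 (Q w : ℂ) : Matrix (Fin 3) (Fin 3) ℂ :=
  !![1 + w, w, (Q - 2) * w; w, 1 + w, (Q - 2) * w; w, w, 1 + (Q - 2) * w]

private noncomputable def Z2 (Q w : ℂ) : Matrix (Fin 2) (Fin 2) ℂ :=
  !![1 + w, (Q - 1) * w; w, 1 + (Q - 1) * w]

private theorem A2_mul (Q a b c d a' b' c' d' : ℂ) : A2 Q a b c d * A2 Q a' b' c' d' =
    A2 Q (a * a' + (Q - 1) * b * c') (a * b' + b * (1 + (Q - 1) * d'))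
      (c * a' + (1 + (Q - 1) * d) * c') (c * b' + d + d' + (Q - 1) * d * d') := by
  simp only [A2]
  ext i j
  fin_cases i <;> fin_cases j <;> simp [Matrix.mul_apply, Fin.sum_univ_succ] <;> ring

private theorem A3_mul (Q a b c d a' b' c' d' : ℂ) : A3 Q a b c d * A3 Q a' b' c' d' =
    A3 Q (a * a' + (Q - 1) * b * c') (a * b' + b * (1 + (Q - 1) * d'))
      (c * a' + (1 + (Q - 1) * d) * c') (c * b' + d + d' + (Q - 1) * d * d') := by
  simp only [A3]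
  ext i j
  fin_cases i <;> fin_cases j <;> simp [Matrix.mul_apply, Fin.sum_univ_succ] <;> ring

private theorem B3_mul (Q a b c d a' b' c' d' : ℂ) : B3 Q a b c d * B3 Q a' b' c' d' =
    B3 Q (a * a' + (Q - 1) * b * c') (a * b' + b * (1 + (Q - 1) * d'))
      (c * a' + (1 + (Q - 1) * d) * c') (c * b' + d + d' + (Q - 1) * d * d') := by
  simp only [B3]
  ext i j
  fin_cases i <;> fin_cases j <;> simp [Matrix.mul_apply, Fin.sum_univ_succ] <;> ring

private theorem T2_eq (Q : ℂ) (t : ℂ × ℂ × ℂ) :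
    U5.T2 Q t = Z2 Q ((t.2.2 - 1) / Q) * A2 Q (t.1 * t.2.1) 0 0 0 := by
  simp only [U5.T2, A2, Z2]
  ext i j
  fin_cases i <;> fin_cases j <;>
    simp [Matrix.mul_apply, Fin.sum_univ_succ, Matrix.one_apply, Matrix.diagonal_apply] <;>
    ring

private theorem T3_eqA (Q : ℂ) (t : ℂ × ℂ × ℂ) (h : t.2.1 = 1) :
    U5.T3 Q t = Z3 Q ((t.2.2 - 1) / Q) * A3 Q t.1 0 0 0 := by
  simp only [U5.T3, A3, Z3, h]
  ext i j
  fin_cases i <;> fin_cases j <;>
    simp [Matrix.mul_apply, Fin.sum_univ_succ, Matrix.one_apply, Matrix.diagonal_apply] <;>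
    ring

private theorem T3_eqB (Q : ℂ) (t : ℂ × ℂ × ℂ) (h : t.1 = 1) :
    U5.T3 Q t = Z3 Q ((t.2.2 - 1) / Q) * B3 Q t.2.1 0 0 0 := by
  simp only [U5.T3, B3, Z3, h]
  ext i j
  fin_cases i <;> fin_cases j <;>
    simp [Matrix.mul_apply, Fin.sum_univ_succ, Matrix.one_apply, Matrix.diagonal_apply] <;>
    ring

private theorem Z2_eq (Q w : ℂ) : Z2 Q w = A2 Q (1 + w) w w w := rfl

private theorem Z3_eqA (Q w : ℂ) : Z3 Q w = A3 Q (1 + w) w w w := rfl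

private theorem Z3_eqB (Q w : ℂ) : Z3 Q w = B3 Q (1 + w) w w w := rfl

private theorem listA (Q : ℂ) : ∀ P : List (ℂ × ℂ × ℂ), (∀ u ∈ P, u.2.1 = 1) →
    ∃ a b c d, (P.map (U5.T3 Q)).prod = A3 Q a b c d ∧ (P.map (U5.T2 Q)).prod = A2 Q a b c d
  | [], _ => by
    refine ⟨1, 0, 0, 0, ?_, ?_⟩
    · simp only [A3, List.map_nil, List.prod_nil]
      ext i j
      fin_cases i <;> fin_cases j <;> simp
    · simp only [A2, List.map_nil, List.prod_nil]
      ext i j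
      fin_cases i <;> fin_cases j <;> simp
  | t :: P, h => by
    obtain ⟨a, b, c, d, h1, h2⟩ := listA Q P fun u hu => h u (List.mem_cons_of_mem _ hu)
    have ht : t.2.1 = 1 := h t List.mem_cons_self
    rw [List.map_cons, List.prod_cons, List.map_cons, List.prod_cons, h1, h2, T3_eqA Q t ht, T2_eq,
      ht, mul_one, Z2_eq, Z3_eqA, A3_mul, A3_mul, A2_mul, A2_mul]
    exact ⟨_, _, _, _, rfl, rfl⟩

private theorem listB (Q : ℂ) : ∀ P : List (ℂ × ℂ × ℂ), (∀ u ∈ P, u.1 = 1) →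
    ∃ a b c d, (P.map (U5.T3 Q)).prod = B3 Q a b c d ∧ (P.map (U5.T2 Q)).prod = A2 Q a b c d
  | [], _ => by
    refine ⟨1, 0, 0, 0, ?_, ?_⟩
    · simp only [B3, List.map_nil, List.prod_nil]
      ext i j
      fin_cases i <;> fin_cases j <;> simp
    · simp only [A2, List.map_nil, List.prod_nil]
      ext i j
      fin_cases i <;> fin_cases j <;> simp
  | t :: P, h => by
    obtain ⟨a, b, c, d, h1, h2⟩ := listB Q P fun u hu => h u (List.mem_cons_of_mem _ hu)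
    have ht : t.1 = 1 := h t List.mem_cons_self
    rw [List.map_cons, List.prod_cons, List.map_cons, List.prod_cons, h1, h2, T3_eqB Q t ht, T2_eq,
      ht, one_mul, Z2_eq, Z3_eqB, B3_mul, B3_mul, A2_mul, A2_mul]
    exact ⟨_, _, _, _, rfl, rfl⟩

private theorem core (Q a b c d a' b' c' d' w x w' x' : ℂ)
    (h : w + x + Q * (w * x) = w' + x' + Q * (w' * x')) :
    -(1 - Q) * (Z3 Q w * A3 Q a b c d * (Z3 Q x * B3 Q a' b' c' d')).trace +
      (Z2 Q w * A2 Q a b c d * (Z2 Q x * A2 Q a' b' c' d')).trace =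
    -(1 - Q) * (Z3 Q w' * A3 Q a b c d * (Z3 Q x' * B3 Q a' b' c' d')).trace +
      (Z2 Q w' * A2 Q a b c d * (Z2 Q x' * A2 Q a' b' c' d')).trace := by
  rw [Z3_eqA Q w, Z3_eqA Q w', Z3_eqB Q x, Z3_eqB Q x', Z2_eq, Z2_eq, Z2_eq, Z2_eq]
  simp only [A3_mul, B3_mul, A2_mul]
  simp only [A3, B3, A2, Matrix.trace_fin_two, Matrix.trace_fin_three, Matrix.mul_apply,
    Fin.sum_univ_three, Matrix.of_apply, Matrix.cons_val_zero,
    Matrix.cons_val_one, Matrix.cons_val]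
  linear_combination ((a + (Q - 1) * c + (Q - 1) * (1 + b + (Q - 1) * d)) *
    (a' + (Q - 1) * b' + (Q - 1) * (1 + c' + (Q - 1) * d'))) * h

private theorem EE_form (Q : ℂ) (s t : ℂ × ℂ × ℂ) (P R : List (ℂ × ℂ × ℂ))
    (hs : s.2.1 = 1) (ht : t.1 = 1) (hP : ∀ u ∈ P, u.2.1 = 1) (hR : ∀ u ∈ R, u.1 = 1) :
    ∃ a b c d a' b' c' d' : ℂ, ∀ z z' : ℂ,
      U5.EE Q ((s.1, s.2.1, z) :: P ++ (t.1, t.2.1, z') :: R) = (Q ^ 2 - 3 * Q + 1) +
        (-(1 - Q) * (Z3 Q ((z - 1) / Q) * A3 Q a b c d *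
            (Z3 Q ((z' - 1) / Q) * B3 Q a' b' c' d')).trace +
          (Z2 Q ((z - 1) / Q) * A2 Q a b c d * (Z2 Q ((z' - 1) / Q) * A2 Q a' b' c' d')).trace) := by
  obtain ⟨a, b, c, d, h1, h2⟩ := listA Q P hP
  obtain ⟨a', b', c', d', h3, h4⟩ := listB Q R hR
  refine ⟨s.1 * a + (Q - 1) * 0 * c, s.1 * b + 0 * (1 + (Q - 1) * d),
    0 * a + (1 + (Q - 1) * 0) * c, 0 * b + 0 + d + (Q - 1) * 0 * d,
    t.2.1 * a' + (Q - 1) * 0 * c', t.2.1 * b' + 0 * (1 + (Q - 1) * d'),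
    0 * a' + (1 + (Q - 1) * 0) * c', 0 * b' + 0 + d' + (Q - 1) * 0 * d', fun z z' => ?_⟩
  · have e1 : U5.T3 Q (s.1, s.2.1, z) = Z3 Q ((z - 1) / Q) * A3 Q s.1 0 0 0 := T3_eqA Q _ hs
    have e2 : U5.T3 Q (t.1, t.2.1, z') = Z3 Q ((z' - 1) / Q) * B3 Q t.2.1 0 0 0 := T3_eqB Q _ ht
    have e3 : U5.T2 Q (s.1, s.2.1, z) = Z2 Q ((z - 1) / Q) * A2 Q s.1 0 0 0 := by
      rw [T2_eq]
      show _ * A2 Q (s.1 * s.2.1) 0 0 0 = _
      rw [hs, mul_one]
    have e4 : U5.T2 Q (t.1, t.2.1, z') = Z2 Q ((z' - 1) / Q) * A2 Q t.2.1 0 0 0 := by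
      rw [T2_eq]
      show _ * A2 Q (t.1 * t.2.1) 0 0 0 = _
      rw [ht, one_mul]
    rw [U5.EE, List.map_append, List.map_append, List.map_cons, List.map_cons, List.map_cons,
      List.map_cons, List.prod_append, List.prod_append, List.prod_cons, List.prod_cons,
      List.prod_cons, List.prod_cons, h1, h2, h3, h4, e1, e2, e3, e4, mul_assoc (Z3 Q ((z - 1) / Q)),
      mul_assoc (Z3 Q ((z' - 1) / Q)), mul_assoc (Z2 Q ((z - 1) / Q)),
      mul_assoc (Z2 Q ((z' - 1) / Q)), A3_mul, B3_mul, A2_mul, A2_mul]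
    ring

theorem EE_rot {Q : ℂ} {L L' : List (ℂ × ℂ × ℂ)} (h : L ~r L') : U5.EE Q L = U5.EE Q L' := by
  obtain ⟨n, rfl⟩ := h
  have key : ∀ {m : ℕ} (f : ℂ × ℂ × ℂ → Matrix (Fin m) (Fin m) ℂ),
      (L.map f).prod.trace = ((L.rotate n).map f).prod.trace := by
    intro m f
    rcases List.eq_nil_or_concat L with h0 | _
    · subst h0; simp
    · have h1 := List.rotate_eq_drop_append_take_mod (l := L) (n := n)
      rw [h1, List.map_append, List.prod_append, Matrix.trace_mul_comm, ← List.prod_append,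
        ← List.map_append, List.take_append_drop]
  simp only [U5.EE]
  rw [key (U5.T3 Q), key (U5.T2 Q)]

end MUT

/-- **Module U6_MUT** -/
theorem thm_Mut : St_Mut := by
  refine ⟨fun Q s t P R z z' hQ hP hR hz => ?_, fun Q L L' h => MUT.EE_rot h⟩
  obtain ⟨a, b, c, d, a', b', c', d', h⟩ := MUT.EE_form Q s t P R (hP s List.mem_cons_self)
    (hR t List.mem_cons_self) (fun u hu => hP u (List.mem_cons_of_mem _ hu))
    (fun u hu => hR u (List.mem_cons_of_mem _ hu))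
  have h1 := h z z'
  have h2 := h s.2.2 t.2.2
  have h3 : (s.1, s.2.1, s.2.2) = s := rfl
  have h4 : (t.1, t.2.1, t.2.2) = t := rfl
  rw [h3, h4] at h2
  rw [h1, h2]
  congr 1
  refine MUT.core Q a b c d a' b' c' d' _ _ _ _ ?_
  have e : ∀ x y : ℂ, (x - 1) / Q + (y - 1) / Q + Q * ((x - 1) / Q * ((y - 1) / Q)) =
      (x * y - 1) / Q := by
    intro x y
    field_simp
    ring
  rw [e, e, hz]

end Pool.Agent.FB.U6
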