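import Pool.Agent.FB.U6.Defs

/-!
# FB/U6/LOC: the local estimates for both matrices (helper1, after U5/LOC of helper60)
-/

set_option autoImplicit false

open Matrix Pool.Agent.FB.U5

namespace Pool.Agent.FB.U6

/-- the size of a block for `T3` -/
private noncomputable def Mt (t : ℂ × ℂ × ℂ) : ℝ := 1 + ‖t.1‖ + ‖t.2.1‖

/-- the size of a block for `T2` -/
private noncomputable def Ut (t : ℂ × ℂ × ℂ) : ℝ := 1 + ‖t.1 * t.2.1‖

private theorem Mt_one (t : ℂ × ℂ × ℂ) : 1 ≤ Mt t := by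
  have := norm_nonneg t.1
  have := norm_nonneg t.2.1
  unfold Mt
  linarith

private theorem Ut_one (t : ℂ × ℂ × ℂ) : 1 ≤ Ut t := by
  have := norm_nonneg (t.1 * t.2.1)
  unfold Ut
  linarith

/-- division by a number of size at least `M / (2 u)` -/
private theorem div_le' {u M A : ℝ} {a n : ℂ} (hM : 1 ≤ M) (ha : ‖a‖ ≤ A * M)
    (hn : M ≤ 2 * u * ‖n‖) : ‖a / n‖ ≤ 2 * u * A := by
  have hn0 : 0 < ‖n‖ := by
    rcases (norm_nonneg n).lt_or_eq with h | h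
    · exact h
    · rw [← h, mul_zero] at hn
      linarith
  have hA : 0 ≤ A := by
    by_contra h
    push Not at h
    nlinarith [norm_nonneg a]
  rw [norm_div, div_le_iff₀ hn0]
  calc ‖a‖ ≤ A * M := ha
    _ ≤ A * (2 * u * ‖n‖) := by gcongr
    _ = _ := by ring

/-- the basic bounds -/
private structure Bas (u : ℝ) (Q : ℂ) (t : ℂ × ℂ × ℂ) (p : ℂ × ℂ) : Prop where
  v_ne : v Q t ≠ 0
  v_le : ‖v Q t‖ ≤ u * ‖Q‖
  a_le : ‖p.1‖ ≤ 4 * u ^ 2 * ‖Q‖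
  b_le : ‖p.2‖ ≤ 4 * u ^ 2 * ‖Q‖
  X_le : ‖X t p‖ ≤ 2 * Mt t
  Y_le : ‖Y t p‖ ≤ 2 * Mt t
  N_ge : Mt t ≤ 2 * u * ‖N Q t p‖
  N_le : ‖N Q t p‖ ≤ 3 * Mt t

/-- the basic bounds for `T2` -/
private structure Bas2 (u : ℝ) (Q : ℂ) (t : ℂ × ℂ × ℂ) (g : ℂ) : Prop where
  g_le : ‖g‖ ≤ 4 * u ^ 2 * ‖Q‖
  X_le : ‖t.1 * t.2.1 * (1 + g) - 1‖ ≤ 2 * Ut t
  N_ge : Ut t ≤ 2 * u * ‖N2 Q t g‖
  N_le : ‖N2 Q t g‖ ≤ 3 * Ut t

private theorem v_bd {η u : ℝ} {Q : ℂ} {t : ℂ × ℂ × ℂ} (hη : η * u = 1) (h0 : 0 < η)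
    (hQ : 0 < ‖Q‖) (ht : Adm2 η t) : v Q t ≠ 0 ∧ ‖v Q t‖ ≤ u * ‖Q‖ := by
  obtain ⟨h1, -, -⟩ := ht
  have hz := norm_nonneg t.2.2
  have h2 : η ≤ ‖t.2.2 - 1‖ := by nlinarith
  have h3 : 0 < ‖t.2.2 - 1‖ := lt_of_lt_of_le h0 h2
  have u0 : 0 < u := by
    by_contra h
    push Not at h
    nlinarith
  constructor
  · rw [v]
    exact div_ne_zero (norm_pos_iff.1 hQ) (norm_pos_iff.1 h3)
  · rw [v, norm_div, div_le_iff₀ h3]
    have h4 : 1 ≤ u * ‖t.2.2 - 1‖ := by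
      calc (1 : ℝ) = u * η := by rw [← hη]; ring
        _ ≤ _ := by gcongr
    calc ‖Q‖ = ‖Q‖ * 1 := (mul_one _).symm
      _ ≤ ‖Q‖ * (u * ‖t.2.2 - 1‖) := by gcongr
      _ = _ := by ring

private theorem basic {η u : ℝ} {Q : ℂ} {t : ℂ × ℂ × ℂ} {p : ℂ × ℂ} (hη : η * u = 1) (h0 : 0 < η)
    (hu : 1 ≤ u) (hQ : 0 < ‖Q‖) (hs : u ^ 5 * ‖Q‖ ≤ 1 / 10000) (ht : Adm2 η t)
    (hp : Near (4 * u ^ 2) Q p) : Bas u Q t p := by
  obtain ⟨hv0, hv⟩ := v_bd hη h0 hQ ht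
  obtain ⟨h1, h2, h3⟩ := ht
  obtain ⟨hp1, hp2⟩ := hp
  have u0 : 0 < u := by linarith
  have hx := norm_nonneg t.1
  have hy := norm_nonneg t.2.1
  have hM := Mt_one t
  have hMe : Mt t = 1 + ‖t.1‖ + ‖t.2.1‖ := rfl
  have hu2 : 1 ≤ u ^ 2 := one_le_pow₀ hu
  have hu3 : u ^ 3 ≤ u ^ 5 := pow_le_pow_right₀ hu (by norm_num)
  have hu25 : u ^ 2 ≤ u ^ 5 := pow_le_pow_right₀ hu (by norm_num)
  have huu : u ≤ u ^ 2 := by nlinarith
  have hs2 : u ^ 2 * ‖Q‖ ≤ 1 / 10000 := (mul_le_mul_of_nonneg_right hu25 hQ.le).trans hs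
  have hs3 : u ^ 3 * ‖Q‖ ≤ 1 / 10000 := (mul_le_mul_of_nonneg_right hu3 hQ.le).trans hs
  have a1 : ‖p.1‖ ≤ 1 := by linarith
  have b1 : ‖p.2‖ ≤ 1 := by linarith
  have hA : ‖1 + p.1‖ ≤ 2 := by
    have := norm_add_le (1 : ℂ) p.1
    rw [norm_one] at this
    linarith
  have hB : ‖1 + p.2‖ ≤ 2 := by
    have := norm_add_le (1 : ℂ) p.2
    rw [norm_one] at this
    linarith
  have xA : ‖t.1 * (1 + p.1)‖ ≤ 2 * ‖t.1‖ := by
    rw [norm_mul]
    nlinarith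
  have yB : ‖t.2.1 * (1 + p.2)‖ ≤ 2 * ‖t.2.1‖ := by
    rw [norm_mul]
    nlinarith
  have hX : ‖X t p‖ ≤ 2 * Mt t := by
    have := norm_sub_le (t.1 * (1 + p.1)) 1
    rw [norm_one] at this
    rw [X, hMe]
    linarith
  have hY : ‖Y t p‖ ≤ 2 * Mt t := by
    have := norm_sub_le (t.2.1 * (1 + p.2)) 1
    rw [norm_one] at this
    rw [Y, hMe]
    linarith
  have hd : ‖N Q t p - (t.1 + t.2.1 - 2)‖ ≤ 6 * u ^ 2 * ‖Q‖ * Mt t := by
    have e : N Q t p - (t.1 + t.2.1 - 2) = v Q t + Q + (t.1 * p.1 + t.2.1 * p.2) := by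
      rw [N, X, Y]; ring
    have g1 := norm_add_le (v Q t + Q) (t.1 * p.1 + t.2.1 * p.2)
    have g2 := norm_add_le (v Q t) Q
    have g3 := norm_add_le (t.1 * p.1) (t.2.1 * p.2)
    have g4 : ‖t.1 * p.1‖ ≤ ‖t.1‖ * (4 * u ^ 2 * ‖Q‖) := by
      rw [norm_mul]
      gcongr
    have g5 : ‖t.2.1 * p.2‖ ≤ ‖t.2.1‖ * (4 * u ^ 2 * ‖Q‖) := by
      rw [norm_mul]
      gcongr
    have g6 : u * ‖Q‖ ≤ u ^ 2 * ‖Q‖ := by gcongr
    have g7 : ‖Q‖ ≤ u ^ 2 * ‖Q‖ := le_mul_of_one_le_left hQ.le hu2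
    have g8 : 0 ≤ u ^ 2 * ‖Q‖ * ‖t.1‖ := by positivity
    have g9 : 0 ≤ u ^ 2 * ‖Q‖ * ‖t.2.1‖ := by positivity
    rw [e, hMe]
    nlinarith
  have hn : Mt t ≤ u * ‖t.1 + t.2.1 - 2‖ := by
    calc Mt t = u * (η * Mt t) := by rw [← mul_assoc, mul_comm u η, hη, one_mul]
      _ ≤ _ := by gcongr; exact h2
  refine ⟨hv0, hv, hp1, hp2, hX, hY, ?_, ?_⟩
  · have g1 : ‖t.1 + t.2.1 - 2‖ ≤ ‖N Q t p‖ + ‖N Q t p - (t.1 + t.2.1 - 2)‖ := by
      calc ‖t.1 + t.2.1 - 2‖ = ‖N Q t p - (N Q t p - (t.1 + t.2.1 - 2))‖ := by ring_nf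
        _ ≤ _ := norm_sub_le _ _
    have g2 : u * ‖t.1 + t.2.1 - 2‖ ≤ u * (‖N Q t p‖ + 6 * u ^ 2 * ‖Q‖ * Mt t) := by
      gcongr
      linarith
    have g3 : u * (6 * u ^ 2 * ‖Q‖ * Mt t) = 6 * (u ^ 3 * ‖Q‖) * Mt t := by ring
    have g4 : 6 * (u ^ 3 * ‖Q‖) * Mt t ≤ 6 * (1 / 10000) * Mt t := by gcongr
    nlinarith
  · have g1 : ‖N Q t p‖ ≤ ‖t.1 + t.2.1 - 2‖ + ‖N Q t p - (t.1 + t.2.1 - 2)‖ := by
      calc ‖N Q t p‖ = ‖(t.1 + t.2.1 - 2) + (N Q t p - (t.1 + t.2.1 - 2))‖ := by ring_nf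
        _ ≤ _ := norm_add_le _ _
    have g2 : ‖t.1 + t.2.1 - 2‖ ≤ 2 * Mt t := by
      have f1 := norm_sub_le (t.1 + t.2.1) 2
      have f2 := norm_add_le t.1 t.2.1
      have f3 : ‖(2 : ℂ)‖ = 2 := by norm_num
      rw [hMe]
      linarith
    have g4 : 6 * (u ^ 2 * ‖Q‖) * Mt t ≤ 6 * (1 / 10000) * Mt t := by gcongr
    nlinarith

private theorem basic2 {η u : ℝ} {Q : ℂ} {t : ℂ × ℂ × ℂ} {g : ℂ} (hη : η * u = 1) (h0 : 0 < η)
    (hu : 1 ≤ u) (hQ : 0 < ‖Q‖) (hs : u ^ 5 * ‖Q‖ ≤ 1 / 10000) (ht : Adm2 η t)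
    (hg : ‖g‖ ≤ 4 * u ^ 2 * ‖Q‖) : Bas2 u Q t g := by
  obtain ⟨hv0, hv⟩ := v_bd hη h0 hQ ht
  obtain ⟨h1, h2, h3⟩ := ht
  have u0 : 0 < u := by linarith
  have hU := Ut_one t
  have hUe : Ut t = 1 + ‖t.1 * t.2.1‖ := rfl
  obtain ⟨w, hw⟩ : ∃ w : ℂ, w = t.1 * t.2.1 := ⟨_, rfl⟩
  rw [← hw] at hUe h3
  have hw0 := norm_nonneg w
  have hu2 : 1 ≤ u ^ 2 := one_le_pow₀ hu
  have hu3 : u ^ 3 ≤ u ^ 5 := pow_le_pow_right₀ hu (by norm_num)
  have hu25 : u ^ 2 ≤ u ^ 5 := pow_le_pow_right₀ hu (by norm_num)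
  have huu : u ≤ u ^ 2 := by nlinarith
  have hs2 : u ^ 2 * ‖Q‖ ≤ 1 / 10000 := (mul_le_mul_of_nonneg_right hu25 hQ.le).trans hs
  have hs3 : u ^ 3 * ‖Q‖ ≤ 1 / 10000 := (mul_le_mul_of_nonneg_right hu3 hQ.le).trans hs
  have a1 : ‖g‖ ≤ 1 := by linarith
  have hX : ‖w * (1 + g) - 1‖ ≤ 2 * Ut t := by
    have f1 := norm_sub_le (w * (1 + g)) 1
    have f2 := norm_add_le (1 : ℂ) g
    rw [norm_one] at f1 f2
    have f3 : ‖w * (1 + g)‖ ≤ ‖w‖ * 2 := by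
      rw [norm_mul]
      gcongr
      linarith
    rw [hUe]
    linarith
  have hd : ‖N2 Q t g - (w - 1)‖ ≤ 6 * u ^ 2 * ‖Q‖ * Ut t := by
    have e : N2 Q t g - (w - 1) = v Q t + Q + w * g := by
      rw [N2, ← hw]; ring
    have g1 := norm_add_le (v Q t + Q) (w * g)
    have g2 := norm_add_le (v Q t) Q
    have g4 : ‖w * g‖ ≤ ‖w‖ * (4 * u ^ 2 * ‖Q‖) := by
      rw [norm_mul]
      gcongr
    have g6 : u * ‖Q‖ ≤ u ^ 2 * ‖Q‖ := by gcongr
    have g7 : ‖Q‖ ≤ u ^ 2 * ‖Q‖ := le_mul_of_one_le_left hQ.le hu2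
    have g8 : 0 ≤ u ^ 2 * ‖Q‖ * ‖w‖ := by positivity
    rw [e, hUe]
    nlinarith
  have hn : Ut t ≤ u * ‖w - 1‖ := by
    calc Ut t = u * (η * Ut t) := by rw [← mul_assoc, mul_comm u η, hη, one_mul]
      _ ≤ _ := by rw [hUe]; gcongr
  refine ⟨hg, by rw [← hw]; exact hX, ?_, ?_⟩
  · have g1 : ‖w - 1‖ ≤ ‖N2 Q t g‖ + ‖N2 Q t g - (w - 1)‖ := by
      calc ‖w - 1‖ = ‖N2 Q t g - (N2 Q t g - (w - 1))‖ := by ring_nf
        _ ≤ _ := norm_sub_le _ _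
    have g2 : u * ‖w - 1‖ ≤ u * (‖N2 Q t g‖ + 6 * u ^ 2 * ‖Q‖ * Ut t) := by
      gcongr
      linarith
    have g3 : u * (6 * u ^ 2 * ‖Q‖ * Ut t) = 6 * (u ^ 3 * ‖Q‖) * Ut t := by ring
    have g4 : 6 * (u ^ 3 * ‖Q‖) * Ut t ≤ 6 * (1 / 10000) * Ut t := by gcongr
    nlinarith
  · have g1 : ‖N2 Q t g‖ ≤ ‖w - 1‖ + ‖N2 Q t g - (w - 1)‖ := by
      calc ‖N2 Q t g‖ = ‖(w - 1) + (N2 Q t g - (w - 1))‖ := by ring_nf
        _ ≤ _ := norm_add_le _ _
    have g2 : ‖w - 1‖ ≤ 2 * Ut t := by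
      have f1 := norm_sub_le w 1
      rw [norm_one] at f1
      rw [hUe]
      linarith
    have g4 : 6 * (u ^ 2 * ‖Q‖) * Ut t ≤ 6 * (1 / 10000) * Ut t := by gcongr
    nlinarith

theorem thm_Loc : St_Loc := by
  intro η h0 h1
  obtain ⟨u, hu⟩ : ∃ u : ℝ, u = η⁻¹ := ⟨_, rfl⟩
  have hu1 : 1 ≤ u := by
    rw [hu]
    exact (one_le_inv₀ h0).2 h1
  have hη : η * u = 1 := by
    rw [hu]
    exact mul_inv_cancel₀ h0.ne'
  have u0 : 0 < u := by linarith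
  have cmp : ∀ (c : ℝ) (a : ℕ), 0 ≤ c → c ≤ 400 → a ≤ 5 → c * u ^ a ≤ 400 * u ^ 5 := by
    intro c a hc hc' ha
    have := pow_le_pow_right₀ hu1 ha
    have := pow_pos u0 a
    gcongr
  refine ⟨4 * u ^ 2, 400 * u ^ 5, 1 / (10000 * u ^ 5), by positivity, ?_⟩
  intro Q hQ hQ'
  have hs : u ^ 5 * ‖Q‖ ≤ 1 / 10000 := by
    rw [lt_div_iff₀ (by positivity)] at hQ'
    linarith
  have mono : ∀ a : ℕ, a ≤ 5 → u ^ a * ‖Q‖ ≤ 1 / 10000 := fun a ha =>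
    (mul_le_mul_of_nonneg_right (pow_le_pow_right₀ hu1 ha) hQ.le).trans hs
  have B := fun (t : ℂ × ℂ × ℂ) (p : ℂ × ℂ) (ht : Adm2 η t) (hp : Near (4 * u ^ 2) Q p) =>
    basic hη h0 hu1 hQ hs ht hp
  have B2 := fun (t : ℂ × ℂ × ℂ) (g : ℂ) (ht : Adm2 η t) (hg : ‖g‖ ≤ 4 * u ^ 2 * ‖Q‖) =>
    basic2 hη h0 hu1 hQ hs ht hg
  have u1 : ‖Q‖ ≤ u * ‖Q‖ := le_mul_of_one_le_left hQ.le hu1
  have u2 : u * ‖Q‖ ≤ u ^ 2 * ‖Q‖ := by
    have : u ≤ u ^ 2 := by nlinarith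
    gcongr
  have N0 : ∀ t p, Adm2 η t → Near (4 * u ^ 2) Q p → N Q t p ≠ 0 := by
    intro t p ht hp h
    have h2 := (B t p ht hp).N_ge
    have h3 := Mt_one t
    rw [h, norm_zero, mul_zero] at h2
    linarith
  have N20 : ∀ t g, Adm2 η t → ‖g‖ ≤ 4 * u ^ 2 * ‖Q‖ → N2 Q t g ≠ 0 := by
    intro t g ht hg h
    have h2 := (B2 t g ht hg).N_ge
    have h3 := Ut_one t
    rw [h, norm_zero, mul_zero] at h2
    linarith
  have hv : ∀ t, Adm2 η t → ‖v Q t‖ ≤ u * ‖Q‖ := fun t ht => (v_bd hη h0 hQ ht).2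
  -- `v / N`
  have vN : ∀ t p, Adm2 η t → Near (4 * u ^ 2) Q p → ‖v Q t / N Q t p‖ ≤ 2 * u ^ 2 * ‖Q‖ := by
    intro t p ht hp
    have b := B t p ht hp
    have h := div_le' (A := u * ‖Q‖) (Mt_one t)
      (b.v_le.trans (le_mul_of_one_le_right (by positivity) (Mt_one t))) b.N_ge
    refine h.trans (le_of_eq ?_)
    ring
  have xN : ∀ t p, Adm2 η t → Near (4 * u ^ 2) Q p → ‖t.1 / N Q t p‖ ≤ 2 * u := by
    intro t p ht hp
    have b := B t p ht hp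
    have h := div_le' (A := 1) (a := t.1) (Mt_one t)
      (by rw [one_mul, Mt]; linarith [norm_nonneg t.2.1]) b.N_ge
    rwa [mul_one] at h
  have yN : ∀ t p, Adm2 η t → Near (4 * u ^ 2) Q p → ‖t.2.1 / N Q t p‖ ≤ 2 * u := by
    intro t p ht hp
    have b := B t p ht hp
    have h := div_le' (A := 1) (a := t.2.1) (Mt_one t)
      (by rw [one_mul, Mt]; linarith [norm_nonneg t.1]) b.N_ge
    rwa [mul_one] at h
  have ZN : ∀ t p, Adm2 η t → Near (4 * u ^ 2) Q p → ∀ Z : ℂ, ‖Z‖ ≤ 2 * Mt t →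
      ‖Z / N Q t p‖ ≤ 4 * u := by
    intro t p ht hp Z hZ
    refine (div_le' (Mt_one t) hZ (B t p ht hp).N_ge).trans (le_of_eq ?_)
    ring
  have ZN2 : ∀ t g, Adm2 η t → ‖g‖ ≤ 4 * u ^ 2 * ‖Q‖ → ∀ Z : ℂ, ‖Z‖ ≤ 2 * Ut t →
      ‖Z / N2 Q t g‖ ≤ 4 * u := by
    intro t g ht hg Z hZ
    refine (div_le' (Ut_one t) hZ (B2 t g ht hg).N_ge).trans (le_of_eq ?_)
    ring
  have sN : ∀ t p, Adm2 η t → Near (4 * u ^ 2) Q p → ∀ Z : ℂ, ‖Z‖ ≤ 2 * Mt t →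
      ‖v Q t * Z / N Q t p‖ ≤ 4 * u ^ 2 * ‖Q‖ := by
    intro t p ht hp Z hZ
    rw [mul_div_assoc, norm_mul]
    calc _ ≤ u * ‖Q‖ * (4 * u) := by
          gcongr
          · exact hv t ht
          · exact ZN t p ht hp Z hZ
      _ = _ := by ring
  have sN2 : ∀ t g, Adm2 η t → ‖g‖ ≤ 4 * u ^ 2 * ‖Q‖ → ‖step2 Q t g‖ ≤ 4 * u ^ 2 * ‖Q‖ := by
    intro t g ht hg
    rw [step2, mul_div_assoc, norm_mul]
    calc _ ≤ u * ‖Q‖ * (4 * u) := by
          gcongr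
          · exact hv t ht
          · exact ZN2 t g ht hg _ (B2 t g ht hg).X_le
      _ = _ := by ring
  -- `1 / N`
  have oN : ∀ t p, Adm2 η t → Near (4 * u ^ 2) Q p → ∀ (a : ℂ) (A : ℝ), ‖a‖ ≤ A →
      ‖a / N Q t p‖ ≤ 2 * u * A := by
    intro t p ht hp a A ha
    have hA : 0 ≤ A := (norm_nonneg _).trans ha
    exact div_le' (Mt_one t) (ha.trans (le_mul_of_one_le_right hA (Mt_one t)))
      (B t p ht hp).N_ge
  have oN2 : ∀ t g, Adm2 η t → ‖g‖ ≤ 4 * u ^ 2 * ‖Q‖ → ∀ (a : ℂ) (A : ℝ), ‖a‖ ≤ A →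
      ‖a / N2 Q t g‖ ≤ 2 * u * A := by
    intro t g ht hg a A ha
    have hA : 0 ≤ A := (norm_nonneg _).trans ha
    exact div_le' (Ut_one t) (ha.trans (le_mul_of_one_le_right hA (Ut_one t)))
      (B2 t g ht hg).N_ge
  -- the difference `v + Q + β`
  have vQ : ∀ t, Adm2 η t → ∀ b : ℂ, ‖b‖ ≤ 4 * u ^ 2 * ‖Q‖ →
      ‖v Q t + Q + b‖ ≤ 6 * u ^ 2 * ‖Q‖ := by
    intro t ht b hb
    have g1 := norm_add_le (v Q t + Q) b
    have g2 := norm_add_le (v Q t) Q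
    have g3 := hv t ht
    linarith
  -- growth
  have lam : ∀ (t : ℂ × ℂ × ℂ) (n : ℂ) (M : ℝ), Adm2 η t → M ≤ 2 * u * ‖n‖ →
      (1 + ‖t.2.2‖) * M ≤ 400 * u ^ 5 * ‖Q‖ * ‖n / v Q t‖ := by
    intro t n M ht hn
    have hv0 : 0 < ‖v Q t‖ := norm_pos_iff.2 (v_bd hη h0 hQ ht).1
    have hz1 : 0 < ‖t.2.2 - 1‖ := by
      have := ht.1
      have := norm_nonneg t.2.2
      nlinarith
    have e : ‖Q‖ * ‖n / v Q t‖ = ‖n‖ * ‖t.2.2 - 1‖ := by
      rw [v, norm_div, norm_div]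
      field_simp
    have g1 : 1 + ‖t.2.2‖ ≤ u * ‖t.2.2 - 1‖ := by
      calc 1 + ‖t.2.2‖ = u * (η * (1 + ‖t.2.2‖)) := by
            rw [← mul_assoc, mul_comm u η, hη, one_mul]
        _ ≤ _ := by gcongr; exact ht.1
    calc (1 + ‖t.2.2‖) * M ≤ (1 + ‖t.2.2‖) * (2 * u * ‖n‖) := by gcongr
      _ ≤ u * ‖t.2.2 - 1‖ * (2 * u * ‖n‖) := by gcongr
      _ = 2 * u ^ 2 * (‖n‖ * ‖t.2.2 - 1‖) := by ring
      _ ≤ 400 * u ^ 5 * (‖n‖ * ‖t.2.2 - 1‖) := by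
          have := cmp 2 2 (by norm_num) (by norm_num) (by norm_num)
          gcongr
      _ = 400 * u ^ 5 * ‖Q‖ * ‖n / v Q t‖ := by rw [← e]; ring
  -- Lipschitz
  have lipK : ∀ (t : ℂ × ℂ × ℂ) (n n' Z Z' : ℂ) (M d : ℝ), Adm2 η t → 1 ≤ M → 0 ≤ d →
      M ≤ 2 * u * ‖n‖ → M ≤ 2 * u * ‖n'‖ → n ≠ 0 → n' ≠ 0 → ‖Z - Z'‖ ≤ d * M → ‖Z'‖ ≤ 2 * M →
      ‖n' - n‖ ≤ d * M → dist (v Q t * Z / n) (v Q t * Z' / n') ≤ d / 2 := by
    intro t n n' Z Z' M d ht hM d0 hn hn' n0 n0' h2 h3 h4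
    have e : v Q t * Z / n - v Q t * Z' / n' =
        v Q t * ((Z - Z') / n) + v Q t * (Z' / n' * ((n' - n) / n)) := by
      field_simp
      ring
    have g1 : ‖v Q t * ((Z - Z') / n)‖ ≤ u * ‖Q‖ * (2 * u * d) := by
      rw [norm_mul]
      gcongr
      · exact hv t ht
      · exact div_le' hM h2 hn
    have g2 : ‖v Q t * (Z' / n' * ((n' - n) / n))‖ ≤ u * ‖Q‖ * (2 * u * 2 * (2 * u * d)) := by
      rw [norm_mul, norm_mul]
      gcongr
      · exact hv t ht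
      · exact div_le' hM h3 hn'
      · exact div_le' hM h4 hn
    rw [dist_eq_norm, e]
    refine (norm_add_le _ _).trans ((add_le_add g1 g2).trans ?_)
    have e2 : u * ‖Q‖ * (2 * u * d) + u * ‖Q‖ * (2 * u * 2 * (2 * u * d)) =
        (2 * (u ^ 2 * ‖Q‖) + 8 * (u ^ 3 * ‖Q‖)) * d := by ring
    rw [e2]
    have h4 : 2 * (u ^ 2 * ‖Q‖) + 8 * (u ^ 3 * ‖Q‖) ≤ 1 / 2 := by
      have := mono 2 (by norm_num)
      have := mono 3 (by norm_num)
      linarith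
    have := mul_le_mul_of_nonneg_right h4 d0
    linarith
  -- the third part of `stepA`
  have stp : ∀ (t : ℂ × ℂ × ℂ) (n n2 x X₂ a b g : ℂ), Adm2 η t → ‖x / n‖ ≤ 2 * u →
      (∀ (c : ℂ) (A : ℝ), ‖c‖ ≤ A → ‖c / n2‖ ≤ 2 * u * A) →
      (∀ (c : ℂ) (A : ℝ), ‖c‖ ≤ A → ‖c / n‖ ≤ 2 * u * A) → ‖X₂ / n2‖ ≤ 4 * u →
      ‖v Q t * (x * (g - a) * (v Q t + Q) + X₂ * b) / (n * n2)‖ ≤
        400 * u ^ 5 * ‖Q‖ * (‖b‖ + ‖g - a‖) := by
    intro t n n2 x X₂ a b g ht hx h2 h1 hX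
    have e : v Q t * (x * (g - a) * (v Q t + Q) + X₂ * b) / (n * n2) =
        v Q t * (x / n * ((v Q t + Q) / n2) * (g - a)) + v Q t * (X₂ / n2 * (b / n)) := by
      ring
    have g0 : ‖v Q t + Q‖ ≤ 2 * (u * ‖Q‖) := by
      have := norm_add_le (v Q t) Q
      have := hv t ht
      linarith
    have g1 : ‖v Q t * (x / n * ((v Q t + Q) / n2) * (g - a))‖ ≤
        u * ‖Q‖ * (2 * u * (2 * u * (2 * (u * ‖Q‖))) * ‖g - a‖) := by
      rw [norm_mul, norm_mul, norm_mul]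
      gcongr
      · exact hv t ht
      · exact h2 _ _ g0
    have g2 : ‖v Q t * (X₂ / n2 * (b / n))‖ ≤ u * ‖Q‖ * (4 * u * (2 * u * ‖b‖)) := by
      rw [norm_mul, norm_mul]
      gcongr
      · exact hv t ht
      · exact h1 _ _ le_rfl
    rw [e]
    refine (norm_add_le _ _).trans ((add_le_add g1 g2).trans ?_)
    have c1 : u * ‖Q‖ * (2 * u * (2 * u * (2 * (u * ‖Q‖))) * ‖g - a‖) =
        8 * (u ^ 4 * ‖Q‖) * (‖Q‖ * ‖g - a‖) := by ring
    have c2 : u * ‖Q‖ * (4 * u * (2 * u * ‖b‖)) = 8 * u ^ 3 * (‖Q‖ * ‖b‖) := by ring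
    have c3 : 8 * (u ^ 4 * ‖Q‖) ≤ 400 * u ^ 5 := by
      have f1 := mono 4 (by norm_num)
      have f2 := cmp 1 0 (by norm_num) (by norm_num) (by norm_num)
      rw [pow_zero] at f2
      linarith
    have c4 := cmp 8 3 (by norm_num) (by norm_num) (by norm_num)
    rw [c1, c2]
    calc _ ≤ 400 * u ^ 5 * (‖Q‖ * ‖g - a‖) + 400 * u ^ 5 * (‖Q‖ * ‖b‖) := by gcongr
      _ = _ := by ring
  refine
    { pos := hQ
      κ_pos := by positivity
      one_le := ?_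
      κ_le := cmp 4 2 (by norm_num) (by norm_num) (by norm_num)
      small := ?_
      v_ne := fun t ht => (v_bd hη h0 hQ ht).1
      v_le := ?_
      N_ne := N0
      N2_ne := N20
      lam_ge := fun t g ht hg => lam t _ _ ht (B2 t g ht hg).N_ge
      near := fun t p ht hp => ⟨sN t p ht hp _ (B t p ht hp).X_le, sN t p ht hp _ (B t p ht hp).Y_le⟩
      near2 := sN2
      lip := ?_
      lip2 := ?_
      Dm_le := ?_
      d2_le := ?_
      stepA := ?_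
      ratA := ?_
      stepB := ?_
      ratB := ?_
      ratD := ?_ }
  · -- one_le
    have := cmp 1 0 (by norm_num) (by norm_num) (by norm_num)
    simpa using this
  · -- small
    linarith
  · -- v_le
    intro t ht
    refine (hv t ht).trans ?_
    have := cmp 1 1 (by norm_num) (by norm_num) (by norm_num)
    rw [pow_one, one_mul] at this
    gcongr
  · -- lip
    intro t p q ht hp hq
    have b := B t p ht hp
    have c := B t q ht hq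
    have hN := N0 t p ht hp
    have hN' := N0 t q ht hq
    have hx := norm_nonneg t.1
    have hy := norm_nonneg t.2.1
    obtain ⟨d, hd⟩ : ∃ d : ℝ, d = dist p q := ⟨_, rfl⟩
    have d0 : 0 ≤ d := by rw [hd]; exact dist_nonneg
    have hα : ‖p.1 - q.1‖ ≤ d := by
      rw [← dist_eq_norm, hd, Prod.dist_eq]; exact le_max_left _ _
    have hβ : ‖p.2 - q.2‖ ≤ d := by
      rw [← dist_eq_norm, hd, Prod.dist_eq]; exact le_max_right _ _
    have hX : ‖X t p - X t q‖ ≤ ‖t.1‖ * d := by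
      have : X t p - X t q = t.1 * (p.1 - q.1) := by rw [X, X]; ring
      rw [this, norm_mul]
      gcongr
    have hY : ‖Y t p - Y t q‖ ≤ ‖t.2.1‖ * d := by
      have : Y t p - Y t q = t.2.1 * (p.2 - q.2) := by rw [Y, Y]; ring
      rw [this, norm_mul]
      gcongr
    have hMe : Mt t = 1 + ‖t.1‖ + ‖t.2.1‖ := rfl
    have hX' : ‖X t p - X t q‖ ≤ d * Mt t := by
      rw [hMe]
      nlinarith
    have hY' : ‖Y t p - Y t q‖ ≤ d * Mt t := by
      rw [hMe]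
      nlinarith
    have hNN : ‖N Q t q - N Q t p‖ ≤ d * Mt t := by
      have : N Q t q - N Q t p = -((X t p - X t q) + (Y t p - Y t q)) := by rw [N, N]; ring
      rw [this, norm_neg, hMe]
      have := norm_add_le (X t p - X t q) (Y t p - Y t q)
      nlinarith
    rw [← hd, Prod.dist_eq]
    exact max_le
      (lipK t _ _ _ _ _ d ht (Mt_one t) d0 b.N_ge c.N_ge hN hN' hX' c.X_le hNN)
      (lipK t _ _ _ _ _ d ht (Mt_one t) d0 b.N_ge c.N_ge hN hN' hY' c.Y_le hNN)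
  · -- lip2
    intro t g h ht hg hh
    have b := B2 t g ht hg
    have c := B2 t h ht hh
    obtain ⟨d, hd⟩ : ∃ d : ℝ, d = dist g h := ⟨_, rfl⟩
    have d0 : 0 ≤ d := by rw [hd]; exact dist_nonneg
    have hgh : ‖g - h‖ = d := by rw [← dist_eq_norm, hd]
    have hUe : Ut t = 1 + ‖t.1 * t.2.1‖ := rfl
    have hX : ‖t.1 * t.2.1 * (1 + g) - 1 - (t.1 * t.2.1 * (1 + h) - 1)‖ ≤ d * Ut t := by
      have : t.1 * t.2.1 * (1 + g) - 1 - (t.1 * t.2.1 * (1 + h) - 1) =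
        t.1 * t.2.1 * (g - h) := by ring
      rw [this, norm_mul, hgh, hUe]
      nlinarith
    have hNN : ‖N2 Q t h - N2 Q t g‖ ≤ d * Ut t := by
      have : N2 Q t h - N2 Q t g =
        -(t.1 * t.2.1 * (1 + g) - 1 - (t.1 * t.2.1 * (1 + h) - 1)) := by
        rw [N2, N2]; ring
      rw [this, norm_neg]
      exact hX
    rw [← hd]
    exact lipK t _ _ _ _ _ d ht (Ut_one t) d0 b.N_ge c.N_ge (N20 t g ht hg) (N20 t h ht hh)
      hX c.X_le hNN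
  · -- Dm
    intro t p ht hp
    have b := B t p ht hp
    have s1 : ‖(step Q t p).1‖ ≤ 4 * u ^ 2 * ‖Q‖ := sN t p ht hp _ b.X_le
    have s2 : ‖(step Q t p).2‖ ≤ 4 * u ^ 2 * ‖Q‖ := sN t p ht hp _ b.Y_le
    have w1 : ‖v Q t - (step Q t p).1‖ ≤ 5 * u ^ 2 * ‖Q‖ := by
      have g1 := norm_sub_le (v Q t) (step Q t p).1
      have g2 := b.v_le
      linarith
    have w2 : ‖v Q t - (step Q t p).2‖ ≤ 5 * u ^ 2 * ‖Q‖ := by
      have g1 := norm_sub_le (v Q t) (step Q t p).2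
      have g2 := b.v_le
      linarith
    have s1' : ‖-(step Q t p).1‖ ≤ 5 * u ^ 2 * ‖Q‖ := by
      rw [norm_neg]
      nlinarith [mul_nonneg (sq_nonneg u) hQ.le]
    have s2' : ‖-(step Q t p).2‖ ≤ 5 * u ^ 2 * ‖Q‖ := by
      rw [norm_neg]
      nlinarith [mul_nonneg (sq_nonneg u) hQ.le]
    have k : ∀ a c : ℂ, ‖a / N Q t p‖ ≤ 2 * u → ‖c‖ ≤ 5 * u ^ 2 * ‖Q‖ →
        ‖a * c / N Q t p‖ ≤ 400 * u ^ 5 * ‖Q‖ := by
      intro a c ha hc
      have e : a * c / N Q t p = a / N Q t p * c := by ring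
      rw [e, norm_mul]
      have := cmp 10 3 (by norm_num) (by norm_num) (by norm_num)
      calc _ ≤ 2 * u * (5 * u ^ 2 * ‖Q‖) := by gcongr
        _ = 10 * u ^ 3 * ‖Q‖ := by ring
        _ ≤ _ := by gcongr
    have hx := xN t p ht hp
    have hy := yN t p ht hp
    intro i j
    fin_cases i <;> fin_cases j
    · exact k _ _ hx w1
    · have e : Dm Q t p 0 1 = t.2.1 * -(step Q t p).1 / N Q t p := by
        have : Dm Q t p 0 1 = -(t.2.1 * (step Q t p).1) / N Q t p := rfl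
        rw [this]; ring
      show ‖Dm Q t p 0 1‖ ≤ _
      rw [e]
      exact k _ _ hy s1'
    · have e : Dm Q t p 1 0 = t.1 * -(step Q t p).2 / N Q t p := by
        have : Dm Q t p 1 0 = -(t.1 * (step Q t p).2) / N Q t p := rfl
        rw [this]; ring
      show ‖Dm Q t p 1 0‖ ≤ _
      rw [e]
      exact k _ _ hx s2'
    · exact k _ _ hy w2
  · -- d2
    intro t g ht hg
    have b := B2 t g ht hg
    have s1 := sN2 t g ht hg
    have w1 : ‖v Q t - step2 Q t g‖ ≤ 5 * u ^ 2 * ‖Q‖ := by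
      have g1 := norm_sub_le (v Q t) (step2 Q t g)
      have g2 := hv t ht
      linarith
    have hw : ‖t.1 * t.2.1 / N2 Q t g‖ ≤ 2 * u := by
      have h := div_le' (A := 1) (a := t.1 * t.2.1) (Ut_one t)
        (by rw [one_mul, Ut]; linarith) b.N_ge
      rwa [mul_one] at h
    have e : d2 Q t g = t.1 * t.2.1 / N2 Q t g * (v Q t - step2 Q t g) := by
      rw [d2]; ring
    rw [e, norm_mul]
    have := cmp 10 3 (by norm_num) (by norm_num) (by norm_num)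
    calc _ ≤ 2 * u * (5 * u ^ 2 * ‖Q‖) := by gcongr
      _ = 10 * u ^ 3 * ‖Q‖ := by ring
      _ ≤ _ := by gcongr
  · -- stepA
    intro t p g ht hp hg ht1
    have b := B t p ht hp
    have hY : Y t p = p.2 := by rw [Y, ht1]; ring
    have hN := N0 t p ht hp
    have hN2 := N20 t g ht hg
    refine ⟨?_, ?_, ?_⟩
    · have e : (step Q t p).1 - v Q t = -(v Q t * ((v Q t + Q + p.2) / N Q t p)) := by
        have e1 : v Q t + Q + p.2 = N Q t p - X t p := by rw [N, hY]; ring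
        rw [e1]
        simp only [step]
        field_simp
        ring
      rw [e, norm_neg, norm_mul]
      have h2 := oN t p ht hp _ _ (vQ t ht p.2 b.b_le)
      calc _ ≤ ‖v Q t‖ * (2 * u * (6 * u ^ 2 * ‖Q‖)) := by gcongr
        _ = 12 * u ^ 3 * ‖Q‖ * ‖v Q t‖ := by ring
        _ ≤ _ := by
          have := cmp 12 3 (by norm_num) (by norm_num) (by norm_num)
          gcongr
    · have e : (step Q t p).2 = v Q t / N Q t p * p.2 := by
        simp only [step]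
        rw [hY]
        ring
      rw [e, norm_mul]
      have := cmp 2 2 (by norm_num) (by norm_num) (by norm_num)
      have h2 := vN t p ht hp
      calc _ ≤ 2 * u ^ 2 * ‖Q‖ * ‖p.2‖ := by gcongr
        _ ≤ _ := by gcongr
    · have e : step2 Q t g - (step Q t p).1 = v Q t * (t.1 * (g - p.1) * (v Q t + Q) +
          (t.1 * t.2.1 * (1 + g) - 1) * p.2) / (N Q t p * N2 Q t g) := by
        have e1 : N Q t p = v Q t + Q + (t.1 * (1 + p.1) - 1) + p.2 := by rw [N, hY, X]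
        have e2 : N2 Q t g = v Q t + Q + (t.1 * (1 + g) - 1) := by rw [N2, ht1]; ring
        simp only [step, step2]
        rw [div_sub_div _ _ hN2 hN, X, mul_comm (N2 Q t g) (N Q t p)]
        congr 1
        rw [e1, e2, ht1]
        ring
      rw [e]
      exact stp t _ _ _ _ _ _ _ ht (xN t p ht hp) (oN2 t g ht hg) (oN t p ht hp)
        (ZN2 t g ht hg _ (B2 t g ht hg).X_le)
  · -- ratA
    intro t p g ht hp hg ht1
    have b := B t p ht hp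
    have hN := N0 t p ht hp
    have e1 : N Q t p = v Q t + Q + (t.1 * (1 + p.1) - 1) + p.2 := by rw [N, Y, X, ht1]; ring
    have e2 : N2 Q t g = v Q t + Q + (t.1 * (1 + g) - 1) := by rw [N2, ht1]; ring
    have c1 := cmp 2 1 (by norm_num) (by norm_num) (by norm_num)
    rw [pow_one] at c1
    constructor
    · have e : N2 Q t g / N Q t p - 1 = t.1 / N Q t p * (g - p.1) - p.2 / N Q t p := by
        have e3 : N2 Q t g = N Q t p + (t.1 * (g - p.1) - p.2) := by rw [e1, e2]; ring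
        rw [e3]
        field_simp
        ring
      rw [e]
      refine (norm_sub_le _ _).trans ?_
      rw [norm_mul]
      calc _ ≤ 2 * u * ‖g - p.1‖ + 2 * u * ‖p.2‖ := by
            gcongr
            · exact xN t p ht hp
            · exact oN t p ht hp _ _ le_rfl
        _ = 2 * u * (‖g - p.1‖ + ‖p.2‖) := by ring
        _ ≤ _ := by gcongr
    · have e : N2 Q t g / N Q t p - 1 - p.2 = t.1 / N Q t p * (g - p.2) - t.1 / N Q t p * p.1 -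
          p.2 * ((v Q t + Q + p.2) / N Q t p + t.1 / N Q t p * p.1) := by
        have e3 : N2 Q t g = N Q t p + (t.1 * (g - p.1) - p.2) := by rw [e1, e2]; ring
        have e4 : N Q t p * p.2 = (v Q t + Q + (t.1 * (1 + p.1) - 1) + p.2) * p.2 := by rw [e1]
        rw [e3]
        field_simp
        linear_combination -e4
      have g1 : ‖(v Q t + Q + p.2) / N Q t p + t.1 / N Q t p * p.1‖ ≤
          2 * u * (6 * u ^ 2 * ‖Q‖) + 2 * u * (4 * u ^ 2 * ‖Q‖) := by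
        refine (norm_add_le _ _).trans (add_le_add ?_ ?_)
        · exact oN t p ht hp _ _ (vQ t ht p.2 b.b_le)
        · rw [norm_mul]
          gcongr
          · exact xN t p ht hp
          · exact b.a_le
      rw [e]
      have g2 := norm_sub_le (t.1 / N Q t p * (g - p.2) - t.1 / N Q t p * p.1)
        (p.2 * ((v Q t + Q + p.2) / N Q t p + t.1 / N Q t p * p.1))
      have g3 := norm_sub_le (t.1 / N Q t p * (g - p.2)) (t.1 / N Q t p * p.1)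
      have g4 : ‖t.1 / N Q t p * (g - p.2)‖ ≤ 2 * u * ‖g - p.2‖ := by
        rw [norm_mul]
        gcongr
        exact xN t p ht hp
      have g5 : ‖t.1 / N Q t p * p.1‖ ≤ 2 * u * ‖p.1‖ := by
        rw [norm_mul]
        gcongr
        exact xN t p ht hp
      have g6 : ‖p.2 * ((v Q t + Q + p.2) / N Q t p + t.1 / N Q t p * p.1)‖ ≤
          ‖p.2‖ * (2 * u * (6 * u ^ 2 * ‖Q‖) + 2 * u * (4 * u ^ 2 * ‖Q‖)) := by
        rw [norm_mul]
        gcongr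
      have c2 := cmp 20 3 (by norm_num) (by norm_num) (by norm_num)
      calc _ ≤ 2 * u * ‖g - p.2‖ + 2 * u * ‖p.1‖ +
            ‖p.2‖ * (2 * u * (6 * u ^ 2 * ‖Q‖) + 2 * u * (4 * u ^ 2 * ‖Q‖)) := by linarith
        _ = 20 * u ^ 3 * (‖Q‖ * ‖p.2‖) + 2 * u * ‖g - p.2‖ + 2 * u * ‖p.1‖ := by ring
        _ ≤ 400 * u ^ 5 * (‖Q‖ * ‖p.2‖) + 400 * u ^ 5 * ‖g - p.2‖ + 400 * u ^ 5 * ‖p.1‖ := by
            gcongr
        _ = _ := by ring
  · -- stepB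
    intro t p g ht hp hg ht1
    have b := B t p ht hp
    have hX : X t p = p.1 := by rw [X, ht1]; ring
    have hN := N0 t p ht hp
    have hN2 := N20 t g ht hg
    refine ⟨?_, ?_, ?_⟩
    · have e : (step Q t p).2 - v Q t = -(v Q t * ((v Q t + Q + p.1) / N Q t p)) := by
        have e1 : v Q t + Q + p.1 = N Q t p - Y t p := by rw [N, hX]; ring
        rw [e1]
        simp only [step]
        field_simp
        ring
      rw [e, norm_neg, norm_mul]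
      have h2 := oN t p ht hp _ _ (vQ t ht p.1 b.a_le)
      calc _ ≤ ‖v Q t‖ * (2 * u * (6 * u ^ 2 * ‖Q‖)) := by gcongr
        _ = 12 * u ^ 3 * ‖Q‖ * ‖v Q t‖ := by ring
        _ ≤ _ := by
          have := cmp 12 3 (by norm_num) (by norm_num) (by norm_num)
          gcongr
    · have e : (step Q t p).1 = v Q t / N Q t p * p.1 := by
        simp only [step]
        rw [hX]
        ring
      rw [e, norm_mul]
      have := cmp 2 2 (by norm_num) (by norm_num) (by norm_num)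
      have h2 := vN t p ht hp
      calc _ ≤ 2 * u ^ 2 * ‖Q‖ * ‖p.1‖ := by gcongr
        _ ≤ _ := by gcongr
    · have e : step2 Q t g - (step Q t p).2 = v Q t * (t.2.1 * (g - p.2) * (v Q t + Q) +
          (t.1 * t.2.1 * (1 + g) - 1) * p.1) / (N Q t p * N2 Q t g) := by
        have e1 : N Q t p = v Q t + Q + (t.2.1 * (1 + p.2) - 1) + p.1 := by
          rw [N, hX, Y]; ring
        have e2 : N2 Q t g = v Q t + Q + (t.2.1 * (1 + g) - 1) := by rw [N2, ht1]; ring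
        simp only [step, step2]
        rw [div_sub_div _ _ hN2 hN, Y, mul_comm (N2 Q t g) (N Q t p)]
        congr 1
        rw [e1, e2, ht1]
        ring
      rw [e]
      exact stp t _ _ _ _ _ _ _ ht (yN t p ht hp) (oN2 t g ht hg) (oN t p ht hp)
        (ZN2 t g ht hg _ (B2 t g ht hg).X_le)
  · -- ratB
    intro t p g ht hp hg ht1
    have b := B t p ht hp
    have hN := N0 t p ht hp
    have e1 : N Q t p = v Q t + Q + (t.2.1 * (1 + p.2) - 1) + p.1 := by rw [N, Y, X, ht1]; ring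
    have e2 : N2 Q t g = v Q t + Q + (t.2.1 * (1 + g) - 1) := by rw [N2, ht1]; ring
    have c1 := cmp 2 1 (by norm_num) (by norm_num) (by norm_num)
    rw [pow_one] at c1
    constructor
    · have e : N2 Q t g / N Q t p - 1 = t.2.1 / N Q t p * (g - p.2) - p.1 / N Q t p := by
        have e3 : N2 Q t g = N Q t p + (t.2.1 * (g - p.2) - p.1) := by rw [e1, e2]; ring
        rw [e3]
        field_simp
        ring
      rw [e]
      refine (norm_sub_le _ _).trans ?_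
      rw [norm_mul]
      calc _ ≤ 2 * u * ‖g - p.2‖ + 2 * u * ‖p.1‖ := by
            gcongr
            · exact yN t p ht hp
            · exact oN t p ht hp _ _ le_rfl
        _ = 2 * u * (‖g - p.2‖ + ‖p.1‖) := by ring
        _ ≤ _ := by gcongr
    · have e : N2 Q t g / N Q t p - 1 - p.1 = t.2.1 / N Q t p * (g - p.1) -
          t.2.1 / N Q t p * p.2 -
          p.1 * ((v Q t + Q + p.1) / N Q t p + t.2.1 / N Q t p * p.2) := by
        have e3 : N2 Q t g = N Q t p + (t.2.1 * (g - p.2) - p.1) := by rw [e1, e2]; ring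
        have e4 : N Q t p * p.1 = (v Q t + Q + (t.2.1 * (1 + p.2) - 1) + p.1) * p.1 := by
          rw [e1]
        rw [e3]
        field_simp
        linear_combination -e4
      have g1 : ‖(v Q t + Q + p.1) / N Q t p + t.2.1 / N Q t p * p.2‖ ≤
          2 * u * (6 * u ^ 2 * ‖Q‖) + 2 * u * (4 * u ^ 2 * ‖Q‖) := by
        refine (norm_add_le _ _).trans (add_le_add ?_ ?_)
        · exact oN t p ht hp _ _ (vQ t ht p.1 b.a_le)
        · rw [norm_mul]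
          gcongr
          · exact yN t p ht hp
          · exact b.b_le
      rw [e]
      have g2 := norm_sub_le (t.2.1 / N Q t p * (g - p.1) - t.2.1 / N Q t p * p.2)
        (p.1 * ((v Q t + Q + p.1) / N Q t p + t.2.1 / N Q t p * p.2))
      have g3 := norm_sub_le (t.2.1 / N Q t p * (g - p.1)) (t.2.1 / N Q t p * p.2)
      have g4 : ‖t.2.1 / N Q t p * (g - p.1)‖ ≤ 2 * u * ‖g - p.1‖ := by
        rw [norm_mul]
        gcongr
        exact yN t p ht hp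
      have g5 : ‖t.2.1 / N Q t p * p.2‖ ≤ 2 * u * ‖p.2‖ := by
        rw [norm_mul]
        gcongr
        exact yN t p ht hp
      have g6 : ‖p.1 * ((v Q t + Q + p.1) / N Q t p + t.2.1 / N Q t p * p.2)‖ ≤
          ‖p.1‖ * (2 * u * (6 * u ^ 2 * ‖Q‖) + 2 * u * (4 * u ^ 2 * ‖Q‖)) := by
        rw [norm_mul]
        gcongr
      have c2 := cmp 20 3 (by norm_num) (by norm_num) (by norm_num)
      calc _ ≤ 2 * u * ‖g - p.1‖ + 2 * u * ‖p.2‖ +
            ‖p.1‖ * (2 * u * (6 * u ^ 2 * ‖Q‖) + 2 * u * (4 * u ^ 2 * ‖Q‖)) := by linarith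
        _ = 20 * u ^ 3 * (‖Q‖ * ‖p.1‖) + 2 * u * ‖g - p.1‖ + 2 * u * ‖p.2‖ := by ring
        _ ≤ 400 * u ^ 5 * (‖Q‖ * ‖p.1‖) + 400 * u ^ 5 * ‖g - p.1‖ + 400 * u ^ 5 * ‖p.2‖ := by
            gcongr
        _ = _ := by ring
  · -- ratD
    intro t p g ht hp hg
    have b := B t p ht hp
    have c := B2 t g ht hg
    have hM := Mt_one t
    have hU := Ut_one t
    have c1 := cmp 6 1 (by norm_num) (by norm_num) (by norm_num)
    rw [pow_one] at c1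
    constructor
    · show ‖N2 Q t g‖ * Mt t ≤ 400 * u ^ 5 * ‖N Q t p‖ * Ut t
      calc ‖N2 Q t g‖ * Mt t ≤ (3 * Ut t) * (2 * u * ‖N Q t p‖) := by
            gcongr
            · exact c.N_le
            · exact b.N_ge
        _ = 6 * u * ‖N Q t p‖ * Ut t := by ring
        _ ≤ _ := by gcongr
    · show ‖N Q t p‖ * Ut t ≤ 400 * u ^ 5 * ‖N2 Q t g‖ * Mt t
      calc ‖N Q t p‖ * Ut t ≤ (3 * Mt t) * (2 * u * ‖N2 Q t g‖) := by
            gcongr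
            · exact b.N_le
            · exact c.N_ge
        _ = 6 * u * ‖N2 Q t g‖ * Mt t := by ring
        _ ≤ _ := by gcongr

end Pool.Agent.FB.U6
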