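import Pool.Agent.FB.U6.Defs

/-!
# FB/U6/PROD: the products of the blocks at fixed points of the two orbit maps

The `T3` part is a modification of Pool/Agent/FB/U5/PROD.lean (helper95); `T2` part: helper41.
-/

set_option autoImplicit false

open Matrix Pool.Agent.FB.U5

namespace Pool.Agent.FB.U6

/-! ### one block, `T3` -/

/-- the basis `w_p, e₁, e₂` -/
private noncomputable def P6_B (p : ℂ × ℂ) : Matrix (Fin 3) (Fin 3) ℂ :=
  !![1 + p.1, 1, 0; 1 + p.2, 0, 1; 1, 0, 0]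

/-- one block in this basis -/
private noncomputable def P6_U (Q : ℂ) (t : ℂ × ℂ × ℂ) (p : ℂ × ℂ) :
    Matrix (Fin 3) (Fin 3) ℂ :=
  !![1, t.1 / N Q t p, t.2.1 / N Q t p; 0, Dm Q t p 0 0, Dm Q t p 0 1;
    0, Dm Q t p 1 0, Dm Q t p 1 1]

private theorem P6_T3 {Q : ℂ} {t : ℂ × ℂ × ℂ} {p : ℂ × ℂ} (hQ : Q ≠ 0) (hz : t.2.2 ≠ 1)
    (hN : N Q t p ≠ 0) :
    U5.T3 Q t * P6_B p = (N Q t p / v Q t) • (P6_B (step Q t p) * P6_U Q t p) := by
  obtain ⟨x, y, z⟩ := t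
  obtain ⟨α, β⟩ := p
  have hz' : z - 1 ≠ 0 := sub_ne_zero.2 hz
  have hv : v Q (x, y, z) ≠ 0 := by
    simp only [v]
    exact div_ne_zero hQ hz'
  have hc : (z - 1) / Q = 1 / v Q (x, y, z) := by
    simp only [v]
    rw [one_div_div]
  have hT3 : U5.T3 Q (x, y, z) = (1 + (1 / v Q (x, y, z)) • !![1, 1, Q - 2; 1, 1, Q - 2;
      1, 1, Q - 2]) * Matrix.diagonal ![x, y, 1] := by
    rw [U5.T3, hc]
  have hs1 : (step Q (x, y, z) (α, β)).1 =
      v Q (x, y, z) * (x * (1 + α) - 1) / N Q (x, y, z) (α, β) := by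
    simp only [step, X]
  have hs2 : (step Q (x, y, z) (α, β)).2 =
      v Q (x, y, z) * (y * (1 + β) - 1) / N Q (x, y, z) (α, β) := by
    simp only [step, Y]
  have hn2 : N Q (x, y, z) (α, β) =
      v Q (x, y, z) + Q + (x * (1 + α) - 1) + (y * (1 + β) - 1) := by
    rw [N, X, Y]
  have hU : P6_U Q (x, y, z) (α, β) =
      !![1, x / N Q (x, y, z) (α, β), y / N Q (x, y, z) (α, β);
        0, x * (v Q (x, y, z) - (step Q (x, y, z) (α, β)).1) / N Q (x, y, z) (α, β),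
        -(y * (step Q (x, y, z) (α, β)).1) / N Q (x, y, z) (α, β);
        0, -(x * (step Q (x, y, z) (α, β)).2) / N Q (x, y, z) (α, β),
        y * (v Q (x, y, z) - (step Q (x, y, z) (α, β)).2) / N Q (x, y, z) (α, β)] := by
    simp only [P6_U, Dm]
    simp
  rw [hT3, hU, P6_B, P6_B, hs1, hs2]
  set w := v Q (x, y, z) with hw
  set n := N Q (x, y, z) (α, β) with hn
  have hQn : Q = n - w - (x * (1 + α) - 1) - (y * (1 + β) - 1) := by
    rw [hn2]; ring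
  clear_value w n
  ext i j
  fin_cases i <;> fin_cases j <;>
  · simp [Matrix.mul_apply, Fin.sum_univ_three, Matrix.diagonal, Matrix.one_apply]
    try rw [hQn]
    try field_simp
    try ring

/-! ### one block, `T2` -/

private theorem P6_T2 {Q : ℂ} {t : ℂ × ℂ × ℂ} {g : ℂ} (hQ : Q ≠ 0) (hz : t.2.2 ≠ 1)
    (hN : N2 Q t g ≠ 0) :
    U5.T2 Q t * !![1 + g, 1; 1, 0] = (N2 Q t g / v Q t) • (!![1 + step2 Q t g, 1; 1, 0] *
      !![1, t.1 * t.2.1 / N2 Q t g; 0, d2 Q t g]) := by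
  obtain ⟨x, y, z⟩ := t
  have hz' : z - 1 ≠ 0 := sub_ne_zero.2 hz
  have hv : v Q (x, y, z) ≠ 0 := by
    simp only [v]
    exact div_ne_zero hQ hz'
  have hc : (z - 1) / Q = 1 / v Q (x, y, z) := by
    simp only [v]
    rw [one_div_div]
  have hT2 : U5.T2 Q (x, y, z) = (1 + (1 / v Q (x, y, z)) • !![1, Q - 1; 1, Q - 1]) *
      Matrix.diagonal ![x * y, 1] := by
    rw [U5.T2, hc]
  have hn2 : N2 Q (x, y, z) g = v Q (x, y, z) + Q + (x * y * (1 + g) - 1) := rfl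
  have hs : step2 Q (x, y, z) g =
      v Q (x, y, z) * (x * y * (1 + g) - 1) / N2 Q (x, y, z) g := rfl
  have hd : d2 Q (x, y, z) g = x * y *
      (v Q (x, y, z) - v Q (x, y, z) * (x * y * (1 + g) - 1) / N2 Q (x, y, z) g) /
        N2 Q (x, y, z) g := rfl
  rw [hT2, hs, hd]
  set w := v Q (x, y, z) with hw
  set n := N2 Q (x, y, z) g with hn
  have hQn : Q = n - w - (x * y * (1 + g) - 1) := by
    rw [hn2]; ring
  clear_value w n
  ext i j
  fin_cases i <;> fin_cases j <;>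
  · simp [Matrix.mul_apply, Fin.sum_univ_two, Matrix.diagonal, Matrix.one_apply]
    try rw [hQn]
    try field_simp
    try ring

/-! ### the fixed points -/

private theorem P6_mem {κ : ℝ} {Q : ℂ} {p : ℂ × ℂ} :
    Near κ Q p ↔ p ∈ Metric.closedBall (0 : ℂ × ℂ) (κ * ‖Q‖) := by
  rw [mem_closedBall_zero_iff, Prod.norm_def, max_le_iff]
  rfl

private theorem P6_near {η κ C : ℝ} {Q : ℂ} (G : Good2 η κ C Q) (p : ℂ × ℂ) (hp : Near κ Q p) :
    ∀ L : List (ℂ × ℂ × ℂ), (∀ t ∈ L, Adm2 η t) → Near κ Q (orb Q L p) := by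
  intro L
  induction L with
  | nil => intro _; exact hp
  | cons t L ih =>
    intro h
    exact G.near t _ (h t (by simp)) (ih fun s hs => h s (by simp [hs]))

private theorem P6_near2 {η κ C : ℝ} {Q : ℂ} (G : Good2 η κ C Q) (g : ℂ) (hg : ‖g‖ ≤ κ * ‖Q‖) :
    ∀ L : List (ℂ × ℂ × ℂ), (∀ t ∈ L, Adm2 η t) → ‖orb2 Q L g‖ ≤ κ * ‖Q‖ := by
  intro L
  induction L with
  | nil => intro _; exact hg
  | cons t L ih =>
    intro h
    exact G.near2 t _ (h t (by simp)) (ih fun s hs => h s (by simp [hs]))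

private theorem P6_lip1 {η κ C : ℝ} {Q : ℂ} (G : Good2 η κ C Q) (p q : ℂ × ℂ) (hp : Near κ Q p)
    (hq : Near κ Q q) :
    ∀ L : List (ℂ × ℂ × ℂ), (∀ t ∈ L, Adm2 η t) → dist (orb Q L p) (orb Q L q) ≤ dist p q := by
  intro L
  induction L with
  | nil => intro _; exact le_rfl
  | cons t L ih =>
    intro h
    have h' : ∀ s ∈ L, Adm2 η s := fun s hs => h s (by simp [hs])
    have h1 := G.lip t _ _ (h t (by simp)) (P6_near G p hp L h') (P6_near G q hq L h')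
    have h2 := ih h'
    have h3 : dist (orb Q (t :: L) p) (orb Q (t :: L) q) =
      dist (step Q t (orb Q L p)) (step Q t (orb Q L q)) := rfl
    have h4 : 0 ≤ dist (orb Q L p) (orb Q L q) := dist_nonneg
    rw [h3]
    linarith

private theorem P6_lip12 {η κ C : ℝ} {Q : ℂ} (G : Good2 η κ C Q) (g g' : ℂ)
    (hg : ‖g‖ ≤ κ * ‖Q‖) (hg' : ‖g'‖ ≤ κ * ‖Q‖) :
    ∀ L : List (ℂ × ℂ × ℂ), (∀ t ∈ L, Adm2 η t) → dist (orb2 Q L g) (orb2 Q L g') ≤ dist g g' := by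
  intro L
  induction L with
  | nil => intro _; exact le_rfl
  | cons t L ih =>
    intro h
    have h' : ∀ s ∈ L, Adm2 η s := fun s hs => h s (by simp [hs])
    have h1 := G.lip2 t _ _ (h t (by simp)) (P6_near2 G g hg L h') (P6_near2 G g' hg' L h')
    have h2 := ih h'
    have h3 : dist (orb2 Q (t :: L) g) (orb2 Q (t :: L) g') =
      dist (step2 Q t (orb2 Q L g)) (step2 Q t (orb2 Q L g')) := rfl
    have h4 : 0 ≤ dist (orb2 Q L g) (orb2 Q L g') := dist_nonneg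
    rw [h3]
    linarith

private theorem P6_fix {η κ C : ℝ} {Q : ℂ} (G : Good2 η κ C Q) (L : List (ℂ × ℂ × ℂ))
    (hL : L ≠ []) (h : ∀ t ∈ L, Adm2 η t) : ∃ p, Near κ Q p ∧ orb Q L p = p := by
  have hc : IsComplete (Metric.closedBall (0 : ℂ × ℂ) (κ * ‖Q‖)) :=
    Metric.isClosed_closedBall.isComplete
  have hm : Set.MapsTo (orb Q L) (Metric.closedBall (0 : ℂ × ℂ) (κ * ‖Q‖))
      (Metric.closedBall (0 : ℂ × ℂ) (κ * ‖Q‖)) :=
    fun p hp => P6_mem.1 (P6_near G p (P6_mem.2 hp) L h)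
  have hl : ∀ p q : ℂ × ℂ, Near κ Q p → Near κ Q q →
      dist (orb Q L p) (orb Q L q) ≤ dist p q / 2 := by
    intro p q hp hq
    cases L with
    | nil => exact absurd rfl hL
    | cons t L =>
      have h' : ∀ s ∈ L, Adm2 η s := fun s hs => h s (by simp [hs])
      have h1 := G.lip t _ _ (h t (by simp)) (P6_near G p hp L h') (P6_near G q hq L h')
      have h2 := P6_lip1 G p q hp hq L h'
      have h3 : dist (orb Q (t :: L) p) (orb Q (t :: L) q) =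
        dist (step Q t (orb Q L p)) (step Q t (orb Q L q)) := rfl
      rw [h3]
      linarith
  have hk : ContractingWith (1 / 2) (hm.restrict (orb Q L) _ _) := by
    refine ⟨?_, LipschitzWith.of_dist_le_mul fun p q => ?_⟩
    · rw [← NNReal.coe_lt_coe]
      norm_num
    · have h1 := hl p.1 q.1 (P6_mem.2 p.2) (P6_mem.2 q.2)
      rw [Subtype.dist_eq, Subtype.dist_eq]
      have h2 : (((1 / 2 : NNReal)) : ℝ) = 1 / 2 := by norm_num
      rw [h2]
      have h3 : dist (orb Q L p.1) (orb Q L q.1) ≤ 1 / 2 * dist p.1 q.1 := by linarith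
      exact h3
  have h0 : (0 : ℂ × ℂ) ∈ Metric.closedBall (0 : ℂ × ℂ) (κ * ‖Q‖) :=
    Metric.mem_closedBall_self (mul_nonneg G.κ_pos.le G.pos.le)
  obtain ⟨p, hp, hf, -⟩ := hk.exists_fixedPoint' hc hm h0 (edist_ne_top _ _)
  exact ⟨p, P6_mem.2 hp, hf⟩

private theorem P6_fix2 {η κ C : ℝ} {Q : ℂ} (G : Good2 η κ C Q) (L : List (ℂ × ℂ × ℂ))
    (hL : L ≠ []) (h : ∀ t ∈ L, Adm2 η t) : ∃ g : ℂ, ‖g‖ ≤ κ * ‖Q‖ ∧ orb2 Q L g = g := by
  have hc : IsComplete (Metric.closedBall (0 : ℂ) (κ * ‖Q‖)) :=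
    Metric.isClosed_closedBall.isComplete
  have hb : ∀ g : ℂ, ‖g‖ ≤ κ * ‖Q‖ ↔ g ∈ Metric.closedBall (0 : ℂ) (κ * ‖Q‖) :=
    fun g => mem_closedBall_zero_iff.symm
  have hm : Set.MapsTo (orb2 Q L) (Metric.closedBall (0 : ℂ) (κ * ‖Q‖))
      (Metric.closedBall (0 : ℂ) (κ * ‖Q‖)) :=
    fun g hg => (hb _).1 (P6_near2 G g ((hb g).2 hg) L h)
  have hl : ∀ g g' : ℂ, ‖g‖ ≤ κ * ‖Q‖ → ‖g'‖ ≤ κ * ‖Q‖ →
      dist (orb2 Q L g) (orb2 Q L g') ≤ dist g g' / 2 := by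
    intro g g' hg hg'
    cases L with
    | nil => exact absurd rfl hL
    | cons t L =>
      have h' : ∀ s ∈ L, Adm2 η s := fun s hs => h s (by simp [hs])
      have h1 := G.lip2 t _ _ (h t (by simp)) (P6_near2 G g hg L h') (P6_near2 G g' hg' L h')
      have h2 := P6_lip12 G g g' hg hg' L h'
      have h3 : dist (orb2 Q (t :: L) g) (orb2 Q (t :: L) g') =
        dist (step2 Q t (orb2 Q L g)) (step2 Q t (orb2 Q L g')) := rfl
      rw [h3]
      linarith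
  have hk : ContractingWith (1 / 2) (hm.restrict (orb2 Q L) _ _) := by
    refine ⟨?_, LipschitzWith.of_dist_le_mul fun p q => ?_⟩
    · rw [← NNReal.coe_lt_coe]
      norm_num
    · have h1 := hl p.1 q.1 ((hb _).2 p.2) ((hb _).2 q.2)
      rw [Subtype.dist_eq, Subtype.dist_eq]
      have h2 : (((1 / 2 : NNReal)) : ℝ) = 1 / 2 := by norm_num
      rw [h2]
      have h3 : dist (orb2 Q L p.1) (orb2 Q L q.1) ≤ 1 / 2 * dist p.1 q.1 := by linarith
      exact h3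
  have h0 : (0 : ℂ) ∈ Metric.closedBall (0 : ℂ) (κ * ‖Q‖) :=
    Metric.mem_closedBall_self (mul_nonneg G.κ_pos.le G.pos.le)
  obtain ⟨p, hp, hf, -⟩ := hk.exists_fixedPoint' hc hm h0 (edist_ne_top _ _)
  exact ⟨p, (hb p).2 hp, hf⟩

/-! ### lists of blocks -/

/-- `U` is a block matrix with the blocks `1`, `D` -/
private def P6_Blk (U : Matrix (Fin 3) (Fin 3) ℂ) (D : Matrix (Fin 2) (Fin 2) ℂ) : Prop :=
  U 0 0 = 1 ∧ U 1 0 = 0 ∧ U 2 0 = 0 ∧ U 1 1 = D 0 0 ∧ U 1 2 = D 0 1 ∧ U 2 1 = D 1 0 ∧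
    U 2 2 = D 1 1

private theorem P6_Blk_mul {U U' : Matrix (Fin 3) (Fin 3) ℂ} {D D' : Matrix (Fin 2) (Fin 2) ℂ}
    (h : P6_Blk U D) (h' : P6_Blk U' D') : P6_Blk (U * U') (D * D') := by
  obtain ⟨a0, a1, a2, a3, a4, a5, a6⟩ := h
  obtain ⟨b0, b1, b2, b3, b4, b5, b6⟩ := h'
  refine ⟨?_, ?_, ?_, ?_, ?_, ?_, ?_⟩ <;>
  simp only [Matrix.mul_apply, Fin.sum_univ_three, Fin.sum_univ_two, a0, a1, a2, a3, a4, a5, a6,
    b0, b1, b2, b3, b4, b5, b6] <;> ring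

private theorem P6_Blk_one : P6_Blk 1 1 := by
  refine ⟨?_, ?_, ?_, ?_, ?_, ?_, ?_⟩ <;> simp

private theorem P6_Blk_U (Q : ℂ) (t : ℂ × ℂ × ℂ) (p : ℂ × ℂ) :
    P6_Blk (P6_U Q t p) (Dm Q t p) := by
  refine ⟨?_, ?_, ?_, ?_, ?_, ?_, ?_⟩ <;> simp [P6_U]

/-- `U` is upper triangular with the diagonal `1`, `d` -/
private def P6_Tri (U : Matrix (Fin 2) (Fin 2) ℂ) (d : ℂ) : Prop :=
  U 0 0 = 1 ∧ U 1 0 = 0 ∧ U 1 1 = d

private theorem P6_Tri_mul {U U' : Matrix (Fin 2) (Fin 2) ℂ} {d d' : ℂ}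
    (h : P6_Tri U d) (h' : P6_Tri U' d') : P6_Tri (U * U') (d * d') := by
  obtain ⟨a0, a1, a2⟩ := h
  obtain ⟨b0, b1, b2⟩ := h'
  refine ⟨?_, ?_, ?_⟩ <;>
  simp only [Matrix.mul_apply, Fin.sum_univ_two, a0, a1, a2, b0, b1, b2] <;> ring

private theorem P6_ne {η κ C : ℝ} {Q : ℂ} (G : Good2 η κ C Q) {t : ℂ × ℂ × ℂ} (ht : Adm2 η t) :
    Q ≠ 0 ∧ t.2.2 ≠ 1 := by
  refine ⟨norm_pos_iff.1 G.pos, fun hz => ?_⟩
  exact G.v_ne t ht (by rw [v, hz, sub_self, div_zero])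

private theorem P6_ind {η κ C : ℝ} {Q : ℂ} (G : Good2 η κ C Q) (p : ℂ × ℂ) (hp : Near κ Q p) :
    ∀ L : List (ℂ × ℂ × ℂ), (∀ t ∈ L, Adm2 η t) →
      ∃ U, P6_Blk U (DD Q L p) ∧ (L.map (U5.T3 Q)).prod * P6_B p =
        lam Q L p • (P6_B (orb Q L p) * U) := by
  intro L
  induction L with
  | nil =>
    intro _
    refine ⟨1, P6_Blk_one, ?_⟩
    rw [List.map_nil, List.prod_nil, Matrix.one_mul]
    simp only [lam, orb, List.foldr_nil, one_smul, Matrix.mul_one]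
  | cons t L ih =>
    intro h
    have h' : ∀ s ∈ L, Adm2 η s := fun s hs => h s (by simp [hs])
    obtain ⟨U, hU, h1⟩ := ih h'
    have ht : Adm2 η t := h t (by simp)
    have hn := P6_near G p hp L h'
    have h3 := P6_T3 (P6_ne G ht).1 (P6_ne G ht).2 (G.N_ne t _ ht hn)
    have ho : orb Q (t :: L) p = step Q t (orb Q L p) := rfl
    have hl : lam Q (t :: L) p = N Q t (orb Q L p) / v Q t * lam Q L p := rfl
    have hD : DD Q (t :: L) p = Dm Q t (orb Q L p) * DD Q L p := rfl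
    rw [ho, hl, hD]
    refine ⟨P6_U Q t (orb Q L p) * U, P6_Blk_mul (P6_Blk_U _ _ _) hU, ?_⟩
    rw [List.map_cons, List.prod_cons, Matrix.mul_assoc, h1, Matrix.mul_smul,
      ← Matrix.mul_assoc, h3, Matrix.smul_mul, Matrix.mul_assoc, smul_smul,
      mul_comm (lam Q L p)]

private theorem P6_ind2 {η κ C : ℝ} {Q : ℂ} (G : Good2 η κ C Q) (g : ℂ) (hg : ‖g‖ ≤ κ * ‖Q‖) :
    ∀ L : List (ℂ × ℂ × ℂ), (∀ t ∈ L, Adm2 η t) →
      ∃ U, P6_Tri U (dd2 Q L g) ∧ (L.map (U5.T2 Q)).prod * !![1 + g, 1; 1, 0] =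
        lam2 Q L g • (!![1 + orb2 Q L g, 1; 1, 0] * U) := by
  intro L
  induction L with
  | nil =>
    intro _
    refine ⟨1, ⟨?_, ?_, ?_⟩, ?_⟩
    · simp
    · simp
    · simp [dd2]
    · rw [List.map_nil, List.prod_nil, Matrix.one_mul]
      simp only [lam2, orb2, List.foldr_nil, one_smul, Matrix.mul_one]
  | cons t L ih =>
    intro h
    have h' : ∀ s ∈ L, Adm2 η s := fun s hs => h s (by simp [hs])
    obtain ⟨U, hU, h1⟩ := ih h'
    have ht : Adm2 η t := h t (by simp)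
    have hn := P6_near2 G g hg L h'
    have h3 := P6_T2 (P6_ne G ht).1 (P6_ne G ht).2 (G.N2_ne t _ ht hn)
    have ho : orb2 Q (t :: L) g = step2 Q t (orb2 Q L g) := rfl
    have hl : lam2 Q (t :: L) g = N2 Q t (orb2 Q L g) / v Q t * lam2 Q L g := rfl
    have hD : dd2 Q (t :: L) g = d2 Q t (orb2 Q L g) * dd2 Q L g := rfl
    rw [ho, hl, hD]
    refine ⟨!![1, t.1 * t.2.1 / N2 Q t (orb2 Q L g); 0, d2 Q t (orb2 Q L g)] * U,
      P6_Tri_mul ⟨rfl, rfl, rfl⟩ hU, ?_⟩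
    rw [List.map_cons, List.prod_cons, Matrix.mul_assoc, h1, Matrix.mul_smul,
      ← Matrix.mul_assoc, h3, Matrix.smul_mul, Matrix.mul_assoc, smul_smul,
      mul_comm (lam2 Q L g)]

private theorem P6_tr {n : Type} [Fintype n] [DecidableEq n] {M P K : Matrix n n ℂ} {l : ℂ}
    (hd : IsUnit P.det) (h : M * P = l • (P * K)) : M.trace = l * K.trace := by
  have h3 : M = l • (P * K * P⁻¹) := by
    calc M = M * (P * P⁻¹) := by
          rw [Matrix.mul_nonsing_inv P hd, Matrix.mul_one]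
      _ = M * P * P⁻¹ := by rw [Matrix.mul_assoc]
      _ = l • (P * K * P⁻¹) := by rw [h, Matrix.smul_mul]
  rw [h3, Matrix.trace_smul, Matrix.trace_mul_comm, ← Matrix.mul_assoc,
    Matrix.nonsing_inv_mul P hd, Matrix.one_mul, smul_eq_mul]

private theorem P6_DD {η κ C : ℝ} {Q : ℂ} (G : Good2 η κ C Q) (p : ℂ × ℂ) (hp : Near κ Q p) :
    ∀ L : List (ℂ × ℂ × ℂ), (∀ t ∈ L, Adm2 η t) → ∀ i j,
      ‖DD Q L p i j‖ ≤ (2 * C * ‖Q‖) ^ L.length := by
  intro L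
  induction L with
  | nil =>
    intro _ i j
    have h1 : DD Q [] p i j = (1 : Matrix (Fin 2) (Fin 2) ℂ) i j := rfl
    rw [h1, List.length_nil, pow_zero, Matrix.one_apply]
    split_ifs
    · rw [norm_one]
    · rw [norm_zero]
      exact zero_le_one
  | cons t L ih =>
    intro h i j
    have h' : ∀ s ∈ L, Adm2 η s := fun s hs => h s (by simp [hs])
    have ih' := ih h'
    have hn := P6_near G p hp L h'
    have hDm := G.Dm_le t _ (h t (by simp)) hn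
    have hC : 0 ≤ C * ‖Q‖ := mul_nonneg (zero_le_one.trans G.one_le) G.pos.le
    have h2 : DD Q (t :: L) p i j = Dm Q t (orb Q L p) i 0 * DD Q L p 0 j +
        Dm Q t (orb Q L p) i 1 * DD Q L p 1 j := by
      have h3 : DD Q (t :: L) p = Dm Q t (orb Q L p) * DD Q L p := rfl
      rw [h3, Matrix.mul_apply, Fin.sum_univ_two]
    rw [h2]
    have h4 : ∀ k, ‖Dm Q t (orb Q L p) i k * DD Q L p k j‖ ≤
        C * ‖Q‖ * (2 * C * ‖Q‖) ^ L.length := by
      intro k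
      rw [norm_mul]
      exact mul_le_mul (hDm i k) (ih' k j) (norm_nonneg _) hC
    have h5 := (norm_add_le (Dm Q t (orb Q L p) i 0 * DD Q L p 0 j)
      (Dm Q t (orb Q L p) i 1 * DD Q L p 1 j)).trans (add_le_add (h4 0) (h4 1))
    rw [List.length_cons, pow_succ]
    refine h5.trans (le_of_eq ?_)
    ring

private theorem P6_dd2 {η κ C : ℝ} {Q : ℂ} (G : Good2 η κ C Q) (g : ℂ) (hg : ‖g‖ ≤ κ * ‖Q‖) :
    ∀ L : List (ℂ × ℂ × ℂ), (∀ t ∈ L, Adm2 η t) → ‖dd2 Q L g‖ ≤ (C * ‖Q‖) ^ L.length := by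
  intro L
  induction L with
  | nil =>
    intro _
    have h1 : dd2 Q [] g = 1 := rfl
    rw [h1, List.length_nil, pow_zero, norm_one]
  | cons t L ih =>
    intro h
    have h' : ∀ s ∈ L, Adm2 η s := fun s hs => h s (by simp [hs])
    have hn := P6_near2 G g hg L h'
    have h1 := G.d2_le t _ (h t (by simp)) hn
    have hC : 0 ≤ C * ‖Q‖ := mul_nonneg (zero_le_one.trans G.one_le) G.pos.le
    have h2 : dd2 Q (t :: L) g = d2 Q t (orb2 Q L g) * dd2 Q L g := rfl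
    rw [h2, norm_mul, List.length_cons, pow_succ, mul_comm ((C * ‖Q‖) ^ L.length)]
    exact mul_le_mul h1 (ih h') (norm_nonneg _) hC

theorem thm_Prod : St_Prod := by
  intro η κ C Q G L hL h
  obtain ⟨p, hp, hf⟩ := P6_fix G L hL h
  obtain ⟨g, hg, hfg⟩ := P6_fix2 G L hL h
  obtain ⟨U, hU, h1⟩ := P6_ind G p hp L h
  obtain ⟨W, hW, h2⟩ := P6_ind2 G g hg L h
  rw [hf] at h1
  rw [hfg] at h2
  refine ⟨p, g, hp, hg, hf, hfg, ?_, ?_, ?_, P6_dd2 G g hg L h⟩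
  · have hd : IsUnit (P6_B p).det := by
      rw [P6_B, Matrix.det_fin_three]
      simp
    rw [P6_tr hd h1, Matrix.trace_fin_three, Matrix.trace_fin_two, hU.1, hU.2.2.2.1,
      hU.2.2.2.2.2.2, add_assoc]
  · have hd : IsUnit (!![1 + g, 1; 1, 0] : Matrix (Fin 2) (Fin 2) ℂ).det := by
      rw [Matrix.det_fin_two_of]
      norm_num
    rw [P6_tr hd h2, Matrix.trace_fin_two, hW.1, hW.2.2]
  · rw [Matrix.trace_fin_two]
    have h3 := P6_DD G p hp L h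
    have h4 := (norm_add_le (DD Q L p 0 0) (DD Q L p 1 1)).trans (add_le_add (h3 0 0) (h3 1 1))
    linarith

end Pool.Agent.FB.U6
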