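import Pool.Agent.FB.U6.Defs

/-!
# FB/U6/RATIO: the comparison of the two growth factors, from both sides
-/

set_option autoImplicit false

open Matrix Pool.Agent.FB.U5

namespace Pool.Agent.FB.U6

/-- the logarithm near `1` -/
theorem log_near {r w : ℂ} {e : ℝ} (hw : ‖w‖ ≤ 1 / 8) (he : e ≤ 1 / 8) (h : ‖r - 1 - w‖ ≤ e) :
    Real.exp (w.re - (4 * ‖w‖ ^ 2 + 3 * e)) ≤ ‖r‖ ∧
      ‖r‖ ≤ Real.exp (w.re + (4 * ‖w‖ ^ 2 + 3 * e)) := by
  have he0 : 0 ≤ e := (norm_nonneg _).trans h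
  have hw0 := norm_nonneg w
  obtain ⟨r1, r2⟩ := abs_le.1 (Complex.abs_re_le_norm w)
  have e1 : ‖(1 : ℂ) + w‖ ^ 2 = 1 + 2 * w.re + ‖w‖ ^ 2 := by
    rw [← Complex.normSq_eq_norm_sq, ← Complex.normSq_eq_norm_sq, Complex.normSq_apply,
      Complex.normSq_apply]
    simp
    ring
  -- upper bound for `1 + w`
  have up : ‖(1 : ℂ) + w‖ ≤ Real.exp (w.re + 4 * ‖w‖ ^ 2) := by
    have h2 : 2 * w.re + ‖w‖ ^ 2 + 1 ≤ Real.exp (2 * w.re + ‖w‖ ^ 2) := Real.add_one_le_exp _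
    have h3 : Real.exp (2 * w.re + ‖w‖ ^ 2) ≤ Real.exp (w.re + 4 * ‖w‖ ^ 2) ^ 2 := by
      rw [← Real.exp_nat_mul]
      apply Real.exp_le_exp.2
      push_cast
      nlinarith [sq_nonneg ‖w‖]
    refine (pow_le_pow_iff_left₀ (norm_nonneg _) (Real.exp_pos _).le (by norm_num : (2 : ℕ) ≠ 0)).1 ?_
    rw [e1]
    linarith
  -- lower bound for `1 + w`
  have lo : Real.exp (w.re - 4 * ‖w‖ ^ 2) ≤ ‖(1 : ℂ) + w‖ := by
    refine (pow_le_pow_iff_left₀ (Real.exp_pos _).le (norm_nonneg _) (by norm_num : (2 : ℕ) ≠ 0)).1 ?_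
    rw [e1, ← Real.exp_nat_mul]
    have e2 : ((2 : ℕ) : ℝ) * (w.re - 4 * ‖w‖ ^ 2) = 2 * w.re - 8 * ‖w‖ ^ 2 := by
      push_cast
      ring
    rw [e2]
    have hsq : 8 * ‖w‖ ^ 2 ≤ ‖w‖ := by nlinarith
    have hsq0 : 0 ≤ ‖w‖ ^ 2 := sq_nonneg _
    have ha : |2 * w.re - 8 * ‖w‖ ^ 2| ≤ 3 * ‖w‖ := by
      rw [abs_le]
      constructor <;> linarith
    have h3 := Real.abs_exp_sub_one_sub_id_le (x := 2 * w.re - 8 * ‖w‖ ^ 2) (by linarith)
    have h4 := (abs_le.1 h3).2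
    have h5 : (2 * w.re - 8 * ‖w‖ ^ 2) ^ 2 ≤ 9 * ‖w‖ ^ 2 := by
      have := sq_le_sq' (by linarith [(abs_le.1 ha).1]) (abs_le.1 ha).2
      calc (2 * w.re - 8 * ‖w‖ ^ 2) ^ 2 ≤ (3 * ‖w‖) ^ 2 := this
        _ = _ := by ring
    linarith
  have lo2 : 7 / 8 ≤ ‖(1 : ℂ) + w‖ := by
    have := norm_sub_norm_le (1 : ℂ) (-w)
    rw [norm_one, norm_neg, sub_neg_eq_add] at this
    linarith
  have a1 : ‖r‖ ≤ ‖(1 : ℂ) + w‖ + e := by
    calc ‖r‖ = ‖(1 + w) + (r - 1 - w)‖ := by ring_nf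
      _ ≤ _ := (norm_add_le _ _).trans (by gcongr)
  have a2 : ‖(1 : ℂ) + w‖ - e ≤ ‖r‖ := by
    have : ‖(1 : ℂ) + w‖ ≤ ‖r‖ + ‖r - 1 - w‖ := by
      calc ‖(1 : ℂ) + w‖ = ‖r - (r - 1 - w)‖ := by ring_nf
        _ ≤ _ := norm_sub_le _ _
    linarith
  constructor
  · -- below
    have h3 : Real.exp (-(3 * e)) ≤ 1 - 8 / 7 * e := by
      have h4 := Real.abs_exp_sub_one_sub_id_le (x := -(3 * e)) (by
        rw [abs_le]
        constructor <;> linarith)
      have h5 := (abs_le.1 h4).2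
      nlinarith
    have h4 : Real.exp (w.re - (4 * ‖w‖ ^ 2 + 3 * e)) =
        Real.exp (w.re - 4 * ‖w‖ ^ 2) * Real.exp (-(3 * e)) := by
      rw [← Real.exp_add]
      congr 1
      ring
    rw [h4]
    have h5 : 0 ≤ 1 - 8 / 7 * e := by linarith
    calc Real.exp (w.re - 4 * ‖w‖ ^ 2) * Real.exp (-(3 * e))
        ≤ ‖(1 : ℂ) + w‖ * (1 - 8 / 7 * e) :=
          mul_le_mul lo h3 (Real.exp_pos _).le (norm_nonneg _)
      _ ≤ ‖(1 : ℂ) + w‖ - e := by nlinarith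
      _ ≤ ‖r‖ := a2
  · have h3 : 1 + 8 / 7 * e ≤ Real.exp (3 * e) := by
      have := Real.add_one_le_exp (3 * e)
      linarith
    have h4 : Real.exp (w.re + (4 * ‖w‖ ^ 2 + 3 * e)) =
        Real.exp (w.re + 4 * ‖w‖ ^ 2) * Real.exp (3 * e) := by
      rw [← Real.exp_add]
      congr 1
      ring
    rw [h4]
    calc ‖r‖ ≤ ‖(1 : ℂ) + w‖ + e := a1
      _ ≤ ‖(1 : ℂ) + w‖ * (1 + 8 / 7 * e) := by nlinarith
      _ ≤ _ := mul_le_mul up h3 (by linarith) (Real.exp_pos _).le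

open Classical in
/-- the potential of the states `p`, `g` after the block `t` -/
noncomputable def pot2 (C : ℝ) (t : ℂ × ℂ × ℂ) (p : ℂ × ℂ) (g : ℂ) : ℝ :=
  if t.2.1 = 1 then 8 * C * (‖g - p.1‖ + ‖p.2‖)
  else if t.1 = 1 then 8 * C * (‖g - p.2‖ + ‖p.1‖)
  else 8 * C * (‖p.1‖ + ‖p.2‖ + ‖g‖)

theorem pot2_nonneg {C : ℝ} (hC : 0 ≤ C) (t : ℂ × ℂ × ℂ) (p : ℂ × ℂ) (g : ℂ) : 0 ≤ pot2 C t p g := by
  unfold pot2
  split_ifs <;> positivity

theorem pot2_le {C : ℝ} (hC : 0 ≤ C) (t : ℂ × ℂ × ℂ) (p : ℂ × ℂ) (g : ℂ) :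
    pot2 C t p g ≤ 8 * C * (‖p.1‖ + ‖p.2‖ + ‖g‖) := by
  have h1 := norm_nonneg p.1
  have h2 := norm_nonneg p.2
  have h3 : ‖g - p.1‖ ≤ ‖g‖ + ‖p.1‖ := norm_sub_le _ _
  have h4 : ‖g - p.2‖ ≤ ‖g‖ + ‖p.2‖ := norm_sub_le _ _
  have hC8 : 0 ≤ 8 * C := by positivity
  unfold pot2
  split_ifs
  · exact mul_le_mul_of_nonneg_left (by linarith) hC8
  · exact mul_le_mul_of_nonneg_left (by linarith) hC8
  · exact le_rfl

/-- `p` is a state after the block `t` -/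
def Rel2 (C : ℝ) (Q : ℂ) (t : ℂ × ℂ × ℂ) (p : ℂ × ℂ) : Prop :=
  (t.2.1 = 1 → ‖p.1 - v Q t‖ ≤ C * ‖Q‖ * ‖v Q t‖) ∧
    (t.1 = 1 → ‖p.2 - v Q t‖ ≤ C * ‖Q‖ * ‖v Q t‖)

theorem rel2_step {η κ C : ℝ} {Q : ℂ} (G : Good2 η κ C Q) {t : ℂ × ℂ × ℂ} (ht : Adm2 η t) {p : ℂ × ℂ}
    (hp : Near κ Q p) : Rel2 C Q t (step Q t p) := by
  have h0 : ‖(0 : ℂ)‖ ≤ κ * ‖Q‖ := by
    rw [norm_zero]
    exact mul_nonneg G.κ_pos.le (norm_nonneg _)
  exact ⟨fun h => (G.stepA t p 0 ht hp h0 h).1, fun h => (G.stepB t p 0 ht hp h0 h).1⟩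

theorem not_both2 {η : ℝ} (hη : 0 < η) {t : ℂ × ℂ × ℂ} (ht : Adm2 η t) :
    ¬ (t.1 = 1 ∧ t.2.1 = 1) := by
  rintro ⟨h1, h2⟩
  have h3 := ht.2.1
  rw [h1, h2] at h3
  norm_num at h3
  linarith

/-- a single block after a block of the same kind, or after a double block: `d` the difference of the
states, `b` the other component, primes for the new ones; `E` the old potential -/
theorem single_same {C q d b d' b' E : ℝ} {r : ℂ} (hC : 1 ≤ C) (hd : 0 ≤ d)
    (hb : 0 ≤ b) (hq : 16 * C * q ≤ 1) (hsm : C * (d + b) ≤ 1 / 8)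
    (h1 : ‖r - 1‖ ≤ C * (d + b)) (h2 : d' ≤ C * q * (b + d)) (h3 : b' ≤ C * q * b)
    (hE : 8 * C * (d + b) ≤ E) :
    Real.exp (0 - E + 8 * C * (d' + b')) ≤ ‖r‖ ∧ ‖r‖ ≤ Real.exp (0 + E - 8 * C * (d' + b')) := by
  obtain ⟨k1, k2⟩ := log_near (w := 0) (by rw [norm_zero]; norm_num) hsm (by rw [sub_zero]; exact h1)
  have e1 : d' + b' ≤ 1 / 8 * (d + b) := by
    have : C * q * (b + d) ≤ 1 / 16 * (b + d) := by
      gcongr
      linarith
    have : C * q * b ≤ 1 / 16 * b := by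
      gcongr
      linarith
    linarith
  have e2 : 8 * C * (d' + b') ≤ 8 * C * (1 / 8 * (d + b)) := by gcongr
  have e3 : 0 ≤ C * (d + b) := by positivity
  simp only [Complex.zero_re, norm_zero] at k1 k2
  constructor
  · refine le_trans (Real.exp_le_exp.2 ?_) k1
    linarith
  · refine k2.trans (Real.exp_le_exp.2 ?_)
    linarith

/-- a single block after a block of the other kind -/
theorem single_turn {C q d b a d' b' : ℝ} {r w z : ℂ} (hC : 1 ≤ C) (hd : 0 ≤ d)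
    (ha : 0 ≤ a) (hq0 : 0 ≤ q) (hq : 64 * C ^ 2 * q ≤ 1) (hw : b = ‖w‖) (hbq : ‖w‖ ≤ C * q)
    (hdq : d ≤ 2 * C * q) (haq : a ≤ C * q)
    (hz : ‖w - z‖ ≤ C * q * ‖z‖)
    (h1 : ‖r - 1 - w‖ ≤ C * (q * b + d + a)) (h2 : d' ≤ C * q * (b + (d + b + a)))
    (h3 : b' ≤ C * q * b) :
    Real.exp ((z.re + (-1) * (64 * C ^ 2 * q * ‖z‖)) - 8 * C * (d + a) + 8 * C * (d' + b')) ≤ ‖r‖ ∧
      ‖r‖ ≤ Real.exp ((z.re + 1 * (64 * C ^ 2 * q * ‖z‖)) + 8 * C * (d + a) -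
        8 * C * (d' + b')) := by
  have hC2 : C ≤ C ^ 2 := by nlinarith
  have hCq : C * q ≤ 1 / 64 := by
    have : 64 * (C * q) ≤ 64 * C ^ 2 * q := by
      have : C * q ≤ C ^ 2 * q := by gcongr
      linarith
    linarith
  have hC2q : C ^ 2 * q ≤ 1 / 64 := by linarith
  have hz0 := norm_nonneg z
  have hw8 : ‖w‖ ≤ 1 / 8 := by linarith
  subst hw
  have he : C * (q * ‖w‖ + d + a) ≤ 1 / 8 := by
    have e1 : C * (q * ‖w‖ + d + a) ≤ C * (q * (1 / 8) + 2 * C * q + C * q) := by gcongr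
    have e2 : C * (q * (1 / 8) + 2 * C * q + C * q) = 1 / 8 * (C * q) + 3 * (C ^ 2 * q) := by ring
    linarith
  obtain ⟨k1, k2⟩ := log_near hw8 he h1
  have z1 : ‖w‖ ≤ 2 * ‖z‖ := by
    have e1 : ‖w‖ ≤ ‖z‖ + ‖w - z‖ := by
      calc ‖w‖ = ‖z + (w - z)‖ := by ring_nf
        _ ≤ _ := norm_add_le _ _
    have e2 : C * q * ‖z‖ ≤ 1 / 64 * ‖z‖ := by gcongr
    linarith
  have z2 : |w.re - z.re| ≤ C * q * ‖z‖ := by
    have := Complex.abs_re_le_norm (w - z)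
    rw [Complex.sub_re] at this
    exact this.trans hz
  obtain ⟨z3, z4⟩ := abs_le.1 z2
  have t1 : 4 * ‖w‖ ^ 2 ≤ 8 * C * q * ‖z‖ := by
    have : ‖w‖ ^ 2 ≤ (C * q) * (2 * ‖z‖) := by
      rw [sq]
      gcongr
    linarith
  have t2 : 3 * (C * (q * ‖w‖ + d + a)) ≤ 6 * C * q * ‖z‖ + 3 * C * (d + a) := by
    have : C * (q * ‖w‖) ≤ C * (q * (2 * ‖z‖)) := by gcongr
    linarith
  have t3 : 8 * C * (d' + b') ≤ 48 * C ^ 2 * q * ‖z‖ + 1 / 8 * (C * (d + a)) := by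
    have e1 : d' + b' ≤ C * q * (3 * (2 * ‖z‖) + (d + a)) := by
      have : C * q * (‖w‖ + (d + ‖w‖ + a)) + C * q * ‖w‖ = C * q * (3 * ‖w‖ + (d + a)) := by ring
      have : C * q * (3 * ‖w‖ + (d + a)) ≤ C * q * (3 * (2 * ‖z‖) + (d + a)) := by gcongr
      linarith
    have e2 : 8 * C * (d' + b') ≤ 8 * C * (C * q * (3 * (2 * ‖z‖) + (d + a))) := by gcongr
    have e3 : 8 * C * (C * q * (3 * (2 * ‖z‖) + (d + a))) =
        48 * C ^ 2 * q * ‖z‖ + 8 * (C * q) * (C * (d + a)) := by ring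
    have e4 : 8 * (C * q) * (C * (d + a)) ≤ 8 * (1 / 64) * (C * (d + a)) := by gcongr
    linarith
  have t4 : 15 * C * q * ‖z‖ ≤ 15 * C ^ 2 * q * ‖z‖ := by gcongr
  have t5 : 0 ≤ C * (d + a) := by positivity
  have t6 : 0 ≤ C ^ 2 * q * ‖z‖ := by positivity
  constructor
  · refine le_trans (Real.exp_le_exp.2 ?_) k1
    linarith
  · refine k2.trans (Real.exp_le_exp.2 ?_)
    linarith

/-- **one block** -/
theorem one_block2 {η κ C : ℝ} {Q : ℂ} (hη : 0 < η) (G : Good2 η κ C Q) (hQ : 64 * C ^ 2 * ‖Q‖ ≤ 1)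
    {s t : ℂ × ℂ × ℂ} (hs : Adm2 η s) (ht : Adm2 η t) {p : ℂ × ℂ} (hp : Near κ Q p)
    (hr : Rel2 C Q t p) {g : ℂ} (hg : ‖g‖ ≤ κ * ‖Q‖) :
    Real.exp (rat (-1) (64 * C ^ 2) Q s t - pot2 C t p g + pot2 C s (step Q s p) (step2 Q s g)) ≤
      ‖N2 Q s g / N Q s p‖ ∧ ‖N2 Q s g / N Q s p‖ ≤
      Real.exp (rat 1 (64 * C ^ 2) Q s t + pot2 C t p g - pot2 C s (step Q s p) (step2 Q s g)) := by
  have hC := G.one_le
  have hsm := G.small
  have hpos := G.pos
  have hC0 : 0 < C := by linarith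
  have hs' := G.near s p hs hp
  have hg' := G.near2 s g hs hg
  have hκ := G.κ_le
  have hκQ : κ * ‖Q‖ ≤ C * ‖Q‖ := by gcongr
  have hp1 : ‖p.1‖ ≤ C * ‖Q‖ := hp.1.trans hκQ
  have hp2 : ‖p.2‖ ≤ C * ‖Q‖ := hp.2.trans hκQ
  have hg1 : ‖g‖ ≤ C * ‖Q‖ := hg.trans hκQ
  have d1 : ‖g - p.1‖ ≤ ‖g‖ + ‖p.1‖ := norm_sub_le _ _
  have d2 : ‖g - p.2‖ ≤ ‖g‖ + ‖p.2‖ := norm_sub_le _ _
  have hCC : C * (C * ‖Q‖) ≤ 1 / 64 := by
    have : 64 * (C * (C * ‖Q‖)) = 64 * C ^ 2 * ‖Q‖ := by ring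
    linarith
  have n0 := norm_nonneg p.1
  have n1 := norm_nonneg p.2
  have n2 := norm_nonneg g
  have n3 := norm_nonneg (g - p.1)
  have n4 := norm_nonneg (g - p.2)
  have hC8 : 0 ≤ 8 * C := by positivity
  -- the two sums are small
  have sm : ∀ x y : ℝ, x ≤ 2 * (C * ‖Q‖) → y ≤ C * ‖Q‖ → C * (x + y) ≤ 1 / 8 := by
    intro x y hx hy
    have : C * (x + y) ≤ C * (3 * (C * ‖Q‖)) := by
      gcongr
      linarith
    linarith
  have tri1 : ‖g - p.1‖ ≤ ‖g - p.2‖ + ‖p.2‖ + ‖p.1‖ := by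
    calc ‖g - p.1‖ = ‖(g - p.2) + (p.2 - p.1)‖ := by ring_nf
      _ ≤ _ := (norm_add_le _ _).trans (by have := norm_sub_le p.2 p.1; linarith)
  have tri2 : ‖g - p.2‖ ≤ ‖g - p.1‖ + ‖p.1‖ + ‖p.2‖ := by
    calc ‖g - p.2‖ = ‖(g - p.1) + (p.1 - p.2)‖ := by ring_nf
      _ ≤ _ := (norm_add_le _ _).trans (by have := norm_sub_le p.1 p.2; linarith)
  by_cases sA : s.2.1 = 1
  · -- `s` is without `σ₃`
    have sB : s.1 ≠ 1 := fun h => not_both2 hη hs ⟨h, sA⟩
    obtain ⟨k1, k2⟩ := G.ratA s p g hs hp hg sA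
    obtain ⟨-, e1, e2⟩ := G.stepA s p g hs hp hg sA
    have hps : pot2 C s (step Q s p) (step2 Q s g) =
        8 * C * (‖step2 Q s g - (step Q s p).1‖ + ‖(step Q s p).2‖) := by
      unfold pot2
      rw [if_pos sA]
    rw [hps]
    by_cases tB : t.1 = 1
    · have tA : t.2.1 ≠ 1 := fun h => not_both2 hη ht ⟨tB, h⟩
      have hrat : ∀ e : ℝ, rat e (64 * C ^ 2) Q s t =
          (v Q t).re + e * (64 * C ^ 2 * ‖Q‖ * ‖v Q t‖) := by
        intro e
        unfold rat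
        rw [if_pos (Or.inr ⟨tB, sA⟩), if_neg (by tauto), add_zero]
      have hpt : pot2 C t p g = 8 * C * (‖g - p.2‖ + ‖p.1‖) := by
        unfold pot2
        rw [if_neg tA, if_pos tB]
      rw [hrat, hrat, hpt]
      exact single_turn hC n4 n0 (norm_nonneg _) hQ rfl hp2 (by linarith) hp1 (hr.2 tB) k2
        (e2.trans (by gcongr)) e1
    · have hrat : ∀ e : ℝ, rat e (64 * C ^ 2) Q s t = 0 := by
        intro e
        unfold rat
        rw [if_neg (by tauto), if_neg (by tauto), add_zero]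
      have hpt : 8 * C * (‖g - p.1‖ + ‖p.2‖) ≤ pot2 C t p g := by
        unfold pot2
        split_ifs
        · exact le_rfl
        · exact mul_le_mul_of_nonneg_left (by linarith) hC8
      rw [hrat, hrat]
      exact single_same hC n3 n1 hsm (sm _ _ (by linarith) hp2) k1 e2 e1 hpt
  · by_cases sB : s.1 = 1
    · -- `s` is without `σ₁`
      obtain ⟨k1, k2⟩ := G.ratB s p g hs hp hg sB
      obtain ⟨-, e1, e2⟩ := G.stepB s p g hs hp hg sB
      have hps : pot2 C s (step Q s p) (step2 Q s g) =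
          8 * C * (‖step2 Q s g - (step Q s p).2‖ + ‖(step Q s p).1‖) := by
        unfold pot2
        rw [if_neg sA, if_pos sB]
      rw [hps]
      by_cases tA : t.2.1 = 1
      · have hrat : ∀ e : ℝ, rat e (64 * C ^ 2) Q s t =
            (v Q t).re + e * (64 * C ^ 2 * ‖Q‖ * ‖v Q t‖) := by
          intro e
          unfold rat
          rw [if_pos (Or.inl ⟨tA, sB⟩), if_neg (by tauto), add_zero]
        have hpt : pot2 C t p g = 8 * C * (‖g - p.1‖ + ‖p.2‖) := by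
          unfold pot2
          rw [if_pos tA]
        rw [hrat, hrat, hpt]
        exact single_turn hC n3 n1 (norm_nonneg _) hQ rfl hp1 (by linarith) hp2 (hr.1 tA) k2
          (e2.trans (by gcongr)) e1
      · have hrat : ∀ e : ℝ, rat e (64 * C ^ 2) Q s t = 0 := by
          intro e
          unfold rat
          rw [if_neg (by tauto), if_neg (by tauto), add_zero]
        have hpt : 8 * C * (‖g - p.2‖ + ‖p.1‖) ≤ pot2 C t p g := by
          unfold pot2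
          rw [if_neg tA]
          split_ifs
          · exact le_rfl
          · exact mul_le_mul_of_nonneg_left (by linarith) hC8
        rw [hrat, hrat]
        exact single_same hC n4 n0 hsm (sm _ _ (by linarith) hp1) k1 e2 e1 hpt
    · -- double block
      obtain ⟨k1, k2⟩ := G.ratD s p g hs hp hg
      set k : ℝ := (1 + ‖s.1 * s.2.1‖) / (1 + ‖s.1‖ + ‖s.2.1‖) with hk
      have hk0 : 0 < k := by positivity
      have hrat : ∀ e : ℝ, rat e (64 * C ^ 2) Q s t = Real.log k + e * (64 * C ^ 2) := by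
        intro e
        unfold rat
        rw [if_neg (by tauto), if_pos ⟨sB, sA⟩, zero_add]
      have hN := norm_pos_iff.2 (G.N_ne s p hs hp)
      have hN2 := norm_pos_iff.2 (G.N2_ne s g hs hg)
      have hnew : pot2 C s (step Q s p) (step2 Q s g) ≤ 1 := by
        refine (pot2_le hC0.le _ _ _).trans ?_
        have f1 : ‖(step Q s p).1‖ ≤ C * ‖Q‖ := hs'.1.trans hκQ
        have f2 : ‖(step Q s p).2‖ ≤ C * ‖Q‖ := hs'.2.trans hκQ
        have f3 : ‖step2 Q s g‖ ≤ C * ‖Q‖ := hg'.trans hκQ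
        have : 8 * C * (‖(step Q s p).1‖ + ‖(step Q s p).2‖ + ‖step2 Q s g‖) ≤
            8 * C * (3 * (C * ‖Q‖)) := by
          gcongr
          linarith
        linarith
      have hold := pot2_nonneg hC0.le t p g
      have hnew0 := pot2_nonneg hC0.le s (step Q s p) (step2 Q s g)
      have hC2 : C + 1 ≤ 64 * C ^ 2 := by nlinarith
      have hexpC : C ≤ Real.exp C := by
        have := Real.add_one_le_exp C
        linarith
      have hM : (0 : ℝ) < 1 + ‖s.1‖ + ‖s.2.1‖ := by positivity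
      have hU : (0 : ℝ) < 1 + ‖s.1 * s.2.1‖ := by positivity
      rw [hrat, hrat, norm_div]
      constructor
      · -- below
        have h1 : k * Real.exp (-C) ≤ ‖N2 Q s g‖ / ‖N Q s p‖ := by
          rw [le_div_iff₀ hN]
          have h2 : Real.exp (-C) * C ≤ 1 := by
            have : Real.exp (-C) * C ≤ Real.exp (-C) * Real.exp C := by gcongr
            rwa [← Real.exp_add, neg_add_cancel, Real.exp_zero] at this
          have h3 : k * ‖N Q s p‖ ≤ C * ‖N2 Q s g‖ := by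
            rw [hk, div_mul_eq_mul_div, div_le_iff₀ hM]
            linarith
          calc k * Real.exp (-C) * ‖N Q s p‖ = Real.exp (-C) * (k * ‖N Q s p‖) := by ring
            _ ≤ Real.exp (-C) * (C * ‖N2 Q s g‖) := by gcongr
            _ = (Real.exp (-C) * C) * ‖N2 Q s g‖ := by ring
            _ ≤ 1 * ‖N2 Q s g‖ := by gcongr
            _ = _ := one_mul _
        refine le_trans ?_ h1
        have h2 : k * Real.exp (-C) = Real.exp (Real.log k + -C) := by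
          rw [Real.exp_add, Real.exp_log hk0]
        rw [h2]
        apply Real.exp_le_exp.2
        linarith
      · have h1 : ‖N2 Q s g‖ / ‖N Q s p‖ ≤ k * Real.exp C := by
          rw [div_le_iff₀ hN]
          have h3 : ‖N2 Q s g‖ ≤ C * ‖N Q s p‖ * k := by
            rw [hk, mul_div_assoc', le_div_iff₀ hM]
            exact k1
          calc ‖N2 Q s g‖ ≤ C * ‖N Q s p‖ * k := h3
            _ ≤ Real.exp C * ‖N Q s p‖ * k := by gcongr
            _ = _ := by ring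
        refine h1.trans ?_
        have h2 : k * Real.exp C = Real.exp (Real.log k + C) := by
          rw [Real.exp_add, Real.exp_log hk0]
        rw [h2]
        apply Real.exp_le_exp.2
        linarith

/-- the linear version of `ratS` -/
noncomputable def lr (e C : ℝ) (Q : ℂ) : List (ℂ × ℂ × ℂ) → ℂ × ℂ × ℂ → ℝ
  | [], _ => 0
  | s :: L, t => rat e C Q s (L.headD t) + lr e C Q L t

theorem lr_eq (e C : ℝ) (Q : ℂ) (t : ℂ × ℂ × ℂ) : ∀ L : List (ℂ × ℂ × ℂ),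
    ((L.zip (L.tail ++ [t])).map fun q => rat e C Q q.1 q.2).sum = lr e C Q L t := by
  intro L
  induction L with
  | nil => simp [lr]
  | cons s L ih =>
    cases L with
    | nil => simp [lr]
    | cons s' L =>
      have h1 : (s :: s' :: L).zip ((s :: s' :: L).tail ++ [t]) =
          (s, s') :: (s' :: L).zip ((s' :: L).tail ++ [t]) := by simp
      rw [h1, List.map_cons, List.sum_cons, ih]
      simp [lr]

theorem ratS_eq (e C : ℝ) (Q : ℂ) (s : ℂ × ℂ × ℂ) (L : List (ℂ × ℂ × ℂ)) :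
    ratS e C Q (s :: L) = lr e C Q (s :: L) s := by
  unfold ratS
  rw [← lr_eq, List.rotate_cons_succ, List.rotate_zero]
  rfl

theorem orb_near2 {η κ C : ℝ} {Q : ℂ} (G : Good2 η κ C Q) {p : ℂ × ℂ} (hp : Near κ Q p) {g : ℂ}
    (hg : ‖g‖ ≤ κ * ‖Q‖) :
    ∀ L : List (ℂ × ℂ × ℂ), (∀ t ∈ L, Adm2 η t) →
      Near κ Q (orb Q L p) ∧ ‖orb2 Q L g‖ ≤ κ * ‖Q‖
  | [], _ => ⟨by simpa [orb] using hp, by simpa [orb2] using hg⟩
  | t :: L, h => by
      have := orb_near2 G hp hg L (fun u hu => h u (List.mem_cons_of_mem _ hu))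
      exact ⟨G.near t _ (h t List.mem_cons_self) this.1, G.near2 t _ (h t List.mem_cons_self) this.2⟩

theorem list_block2 {η κ C : ℝ} {Q : ℂ} (hη : 0 < η) (G : Good2 η κ C Q)
    (hQ : 64 * C ^ 2 * ‖Q‖ ≤ 1) {t : ℂ × ℂ × ℂ} (ht : Adm2 η t) {p : ℂ × ℂ} (hp : Near κ Q p)
    (hr : Rel2 C Q t p) {g : ℂ} (hg : ‖g‖ ≤ κ * ‖Q‖) :
    ∀ L : List (ℂ × ℂ × ℂ), (∀ s ∈ L, Adm2 η s) →
    (Real.exp (lr (-1) (64 * C ^ 2) Q L t - pot2 C t p g +
        pot2 C (L.headD t) (orb Q L p) (orb2 Q L g)) * ‖lam Q L p‖ ≤ ‖lam2 Q L g‖ ∧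
      ‖lam2 Q L g‖ ≤ Real.exp (lr 1 (64 * C ^ 2) Q L t + pot2 C t p g -
        pot2 C (L.headD t) (orb Q L p) (orb2 Q L g)) * ‖lam Q L p‖) ∧
      Rel2 C Q (L.headD t) (orb Q L p) := by
  intro L
  induction L with
  | nil =>
    intro _
    refine ⟨⟨?_, ?_⟩, hr⟩
    · simp [lam, lam2, lr, orb, orb2]
    · simp [lam, lam2, lr, orb, orb2]
  | cons s L ih =>
    intro h
    have h' : ∀ s ∈ L, Adm2 η s := fun x hx => h x (List.mem_cons_of_mem _ hx)
    obtain ⟨⟨h1, h2⟩, h3⟩ := ih h'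
    have hs := h s List.mem_cons_self
    obtain ⟨hn, hn2⟩ := orb_near2 G hp hg L h'
    have hh : Adm2 η (L.headD t) := by
      cases L with
      | nil => exact ht
      | cons a L => exact h' a List.mem_cons_self
    obtain ⟨k1, k2⟩ := one_block2 hη G hQ hs hh hn h3 hn2
    refine ⟨?_, rel2_step G hs hn⟩
    have hv := norm_pos_iff.2 (G.v_ne s hs)
    have hN := norm_pos_iff.2 (G.N_ne s _ hs hn)
    have e1 : ‖lam2 Q (s :: L) g‖ = ‖N2 Q s (orb2 Q L g) / N Q s (orb Q L p)‖ *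
        ‖N Q s (orb Q L p) / v Q s‖ * ‖lam2 Q L g‖ := by
      have : lam2 Q (s :: L) g = N2 Q s (orb2 Q L g) / v Q s * lam2 Q L g := rfl
      rw [this, norm_mul, norm_div, norm_div, norm_div]
      field_simp
    have e2 : ‖lam Q (s :: L) p‖ = ‖N Q s (orb Q L p) / v Q s‖ * ‖lam Q L p‖ := by
      have : lam Q (s :: L) p = N Q s (orb Q L p) / v Q s * lam Q L p := rfl
      rw [this, norm_mul]
    have e3 : ∀ e : ℝ, lr e (64 * C ^ 2) Q (s :: L) t =
        rat e (64 * C ^ 2) Q s (L.headD t) + lr e (64 * C ^ 2) Q L t := fun e => rfl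
    have e4 : pot2 C ((s :: L).headD t) (orb Q (s :: L) p) (orb2 Q (s :: L) g) =
        pot2 C s (step Q s (orb Q L p)) (step2 Q s (orb2 Q L g)) := rfl
    rw [e1, e2, e3, e3, e4]
    set a := ‖N Q s (orb Q L p) / v Q s‖ with ha
    have ha0 : 0 ≤ a := norm_nonneg _
    set b := ‖N2 Q s (orb2 Q L g) / N Q s (orb Q L p)‖ with hb
    have hb0 : 0 ≤ b := norm_nonneg _
    constructor
    · calc _ = (Real.exp (rat (-1) (64 * C ^ 2) Q s (L.headD t) -
              pot2 C (L.headD t) (orb Q L p) (orb2 Q L g) +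
              pot2 C s (step Q s (orb Q L p)) (step2 Q s (orb2 Q L g)))) * a *
            (Real.exp (lr (-1) (64 * C ^ 2) Q L t - pot2 C t p g +
              pot2 C (L.headD t) (orb Q L p) (orb2 Q L g)) * ‖lam Q L p‖) := by
            have : ∀ x y z w : ℝ, Real.exp x * z * (Real.exp y * w) = Real.exp (x + y) * (z * w) := by
              intro x y z w
              rw [Real.exp_add]
              ring
            rw [this]
            congr 2
            ring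
        _ ≤ b * a * ‖lam2 Q L g‖ := by gcongr
    · calc b * a * ‖lam2 Q L g‖ ≤ (Real.exp (rat 1 (64 * C ^ 2) Q s (L.headD t) +
              pot2 C (L.headD t) (orb Q L p) (orb2 Q L g) -
              pot2 C s (step Q s (orb Q L p)) (step2 Q s (orb2 Q L g)))) * a *
            (Real.exp (lr 1 (64 * C ^ 2) Q L t + pot2 C t p g -
              pot2 C (L.headD t) (orb Q L p) (orb2 Q L g)) * ‖lam Q L p‖) := by gcongr
        _ = _ := by
            have : ∀ x y z w : ℝ, Real.exp x * z * (Real.exp y * w) = Real.exp (x + y) * (z * w) := by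
              intro x y z w
              rw [Real.exp_add]
              ring
            rw [this]
            congr 2
            ring

/-- **Module U6_RATIO** -/
theorem thm_Ratio : St_Ratio := by
  intro η κ C hη
  refine ⟨64 * (max C 1) ^ 2, 1 / (64 * (max C 1) ^ 2), by positivity, ?_, ?_⟩
  · have : (1 : ℝ) ≤ max C 1 := le_max_right _ _
    nlinarith
  intro Q hQ G L hL hA p g hp hg ho ho2
  have hC := G.one_le
  have hmax : max C 1 = C := max_eq_left hC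
  rw [hmax] at hQ ⊢
  have hC0 : 0 < C := by linarith
  have hQ' : 64 * C ^ 2 * ‖Q‖ ≤ 1 := by
    rw [lt_div_iff₀ (by positivity)] at hQ
    linarith
  cases L with
  | nil => exact absurd rfl hL
  | cons s L =>
    have hs := hA s List.mem_cons_self
    have h' : ∀ x ∈ L, Adm2 η x := fun x hx => hA x (List.mem_cons_of_mem _ hx)
    obtain ⟨hn, hn2⟩ := orb_near2 G hp hg L h'
    have hp' : p = step Q s (orb Q L p) := by
      conv_lhs => rw [← ho]
      rfl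
    have hr : Rel2 C Q s p := by
      rw [hp']
      exact rel2_step G hs hn
    obtain ⟨⟨h1, h2⟩, -⟩ := list_block2 hη G hQ' hs hp hr hg (s :: L) hA
    rw [ratS_eq, ratS_eq]
    have e1 : pot2 C ((s :: L).headD s) (orb Q (s :: L) p) (orb2 Q (s :: L) g) = pot2 C s p g := by
      rw [ho, ho2]
      rfl
    rw [e1] at h1 h2
    rw [sub_add_cancel] at h1
    rw [add_sub_cancel_right] at h2
    exact ⟨h1, h2⟩

end Pool.Agent.FB.U6
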