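import Pool.Agent.FB.U6.XY
import Pool.Agent.FB.U6.RATIO
import Pool.Agent.FB.U6.LOC
import Pool.Agent.FB.U6.PROD

/-!
# FB/U6/DOM: words without a block with exponents of different signs
-/

set_option autoImplicit false

open Matrix Pool.RU

namespace Pool.Agent.FB.U6

open Pool.Agent.FB.U5 (TB IsTurn pairs sc top wts v N lam orb Near zpow_cases adm_x adm_z
  norm_sub_large norm_sub_small zpow_eq_one TB_mem point2)

/-! ### sizes -/

/-- the product of the sizes of the weights -/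
noncomputable def gg2 (L : List (ℂ × ℂ × ℂ)) : ℝ :=
  (L.map fun t => (1 + ‖t.2.2‖) * (1 + ‖t.1 * t.2.1‖)).prod

theorem gg2_nonneg (L : List (ℂ × ℂ × ℂ)) : 0 ≤ gg2 L := by
  unfold gg2
  apply List.prod_nonneg
  intro a ha
  obtain ⟨t, -, rfl⟩ := List.mem_map.1 ha
  positivity

theorem lam2_ge {η κ C : ℝ} {Q : ℂ} (G : Good2 η κ C Q) {g : ℂ} (hg : ‖g‖ ≤ κ * ‖Q‖) :
    ∀ L : List (ℂ × ℂ × ℂ), (∀ t ∈ L, Adm2 η t) →
      ‖orb2 Q L g‖ ≤ κ * ‖Q‖ ∧ gg2 L ≤ (C * ‖Q‖) ^ L.length * ‖lam2 Q L g‖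
  | [], _ => by simp [orb2, gg2, lam2, hg]
  | t :: L, h => by
    obtain ⟨h1, h2⟩ := lam2_ge G hg L fun s hs => h s (List.mem_cons_of_mem _ hs)
    have ht := h t List.mem_cons_self
    have h3 := G.lam_ge t _ ht h1
    have hg2 := gg2_nonneg L
    have hC : 0 < C := lt_of_lt_of_le one_pos G.one_le
    refine ⟨G.near2 t _ ht h1, ?_⟩
    have e1 : gg2 (t :: L) = (1 + ‖t.2.2‖) * (1 + ‖t.1 * t.2.1‖) * gg2 L := by
      unfold gg2
      rw [List.map_cons, List.prod_cons]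
    have e2 : ‖lam2 Q (t :: L) g‖ = ‖N2 Q t (orb2 Q L g) / v Q t‖ * ‖lam2 Q L g‖ := by
      rw [lam2, norm_mul]
    rw [e1, e2, List.length_cons, pow_succ']
    calc (1 + ‖t.2.2‖) * (1 + ‖t.1 * t.2.1‖) * gg2 L
        ≤ (C * ‖Q‖ * ‖N2 Q t (orb2 Q L g) / v Q t‖) * ((C * ‖Q‖) ^ L.length * ‖lam2 Q L g‖) := by
          apply mul_le_mul h3 h2 hg2
          positivity
      _ = _ := by ring

/-- one of the two traces dominates -/
theorem dominated {η κ C : ℝ} {Q : ℂ} (G : Good2 η κ C Q) {L : List (ℂ × ℂ × ℂ)} (hL : L ≠ [])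
    (hA : ∀ t ∈ L, Adm2 η t) (hsm : 40 * C * ‖Q‖ ≤ 1)
    (h : ∀ (p : ℂ × ℂ) (g : ℂ), Near κ Q p → ‖g‖ ≤ κ * ‖Q‖ → orb Q L p = p → orb2 Q L g = g →
      4 * ‖lam2 Q L g‖ ≤ ‖lam Q L p‖ ∨ 4 * ‖lam Q L p‖ ≤ ‖lam2 Q L g‖) :
    1 / 2 * gg2 L ≤ (‖U5.EE Q L‖ + 2) * (C * ‖Q‖) ^ L.length := by
  obtain ⟨p, g, hp, hg, ho, ho2, e3, e2, hD, hd⟩ := thm_Prod η κ C Q G L hL hA
  have hl := (lam2_ge G hg L hA).2
  have hC : 1 ≤ C := G.one_le
  have hpos := G.pos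
  have hq : ‖Q‖ ≤ 1 / 40 := by nlinarith
  have hm : 1 ≤ L.length := List.length_pos_iff.2 hL
  have hCq : C * ‖Q‖ ≤ 1 / 40 := by linarith
  have hD1 : ‖(U5.DD Q L p).trace‖ ≤ 1 / 10 := by
    refine hD.trans ?_
    have : (2 * C * ‖Q‖) ^ L.length ≤ (2 * C * ‖Q‖) ^ 1 :=
      pow_le_pow_of_le_one (by positivity) (by linarith) hm
    rw [pow_one] at this
    linarith
  have hd1 : ‖dd2 Q L g‖ ≤ 1 / 40 := by
    refine hd.trans ?_
    have : (C * ‖Q‖) ^ L.length ≤ (C * ‖Q‖) ^ 1 :=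
      pow_le_pow_of_le_one (by positivity) (by linarith) hm
    rw [pow_one] at this
    linarith
  obtain ⟨D, hDd⟩ : ∃ D : ℂ, D = (U5.DD Q L p).trace := ⟨_, rfl⟩
  obtain ⟨d, hdd⟩ : ∃ d : ℂ, d = dd2 Q L g := ⟨_, rfl⟩
  rw [← hDd] at hD1 e3
  rw [← hdd] at hd1 e2
  have e : U5.EE Q L = lam2 Q L g * (1 + d) - lam Q L p * ((1 - Q) * (1 + D)) +
      (Q ^ 2 - 3 * Q + 1) := by
    rw [U5.EE, e2, e3]
    ring
  have a1 : ‖Q ^ 2 - 3 * Q + 1‖ ≤ 2 := by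
    calc ‖Q ^ 2 - 3 * Q + 1‖ ≤ ‖Q ^ 2 - 3 * Q‖ + ‖(1 : ℂ)‖ := norm_add_le _ _
      _ ≤ (‖Q ^ 2‖ + ‖3 * Q‖) + ‖(1 : ℂ)‖ := by gcongr; exact norm_sub_le _ _
      _ ≤ _ := by
        rw [norm_pow, norm_mul, norm_one]
        norm_num
        nlinarith
  have b1 : ‖1 + d‖ ≤ 41 / 40 := by
    refine (norm_add_le _ _).trans ?_
    rw [norm_one]
    linarith
  have b2 : 39 / 40 ≤ ‖1 + d‖ := by
    have := norm_sub_norm_le (1 : ℂ) (-d)
    rw [norm_one, norm_neg, sub_neg_eq_add] at this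
    linarith
  have c1 : ‖1 - Q‖ ≤ 41 / 40 := by
    refine (norm_sub_le _ _).trans ?_
    rw [norm_one]
    linarith
  have c2 : 39 / 40 ≤ ‖1 - Q‖ := by
    have := norm_sub_norm_le (1 : ℂ) Q
    rw [norm_one] at this
    linarith
  have d1 : ‖1 + D‖ ≤ 11 / 10 := by
    refine (norm_add_le _ _).trans ?_
    rw [norm_one]
    linarith
  have d2 : 9 / 10 ≤ ‖1 + D‖ := by
    have := norm_sub_norm_le (1 : ℂ) (-D)
    rw [norm_one, norm_neg, sub_neg_eq_add] at this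
    linarith
  have f1 : ‖(1 - Q) * (1 + D)‖ ≤ 6 / 5 := by
    rw [norm_mul]
    calc ‖1 - Q‖ * ‖1 + D‖ ≤ 41 / 40 * (11 / 10) := by gcongr
      _ ≤ _ := by norm_num
  have f2 : 4 / 5 ≤ ‖(1 - Q) * (1 + D)‖ := by
    rw [norm_mul]
    calc (4 : ℝ) / 5 ≤ 39 / 40 * (9 / 10) := by norm_num
      _ ≤ _ := by gcongr
  obtain ⟨A, hAd⟩ : ∃ A : ℝ, A = ‖lam2 Q L g‖ := ⟨_, rfl⟩
  obtain ⟨B, hBd⟩ : ∃ B : ℝ, B = ‖lam Q L p‖ := ⟨_, rfl⟩
  have hA0 : 0 ≤ A := by rw [hAd]; positivity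
  have hB0 : 0 ≤ B := by rw [hBd]; positivity
  have n1 : ‖lam2 Q L g * (1 + d)‖ ≤ A * (41 / 40) := by
    rw [norm_mul, ← hAd]
    gcongr
  have n2 : A * (39 / 40) ≤ ‖lam2 Q L g * (1 + d)‖ := by
    rw [norm_mul, ← hAd]
    gcongr
  have n3 : ‖lam Q L p * ((1 - Q) * (1 + D))‖ ≤ B * (6 / 5) := by
    rw [norm_mul, ← hBd]
    gcongr
  have n4 : B * (4 / 5) ≤ ‖lam Q L p * ((1 - Q) * (1 + D))‖ := by
    rw [norm_mul, ← hBd]
    gcongr
  have key : 1 / 2 * A ≤ ‖U5.EE Q L‖ + 2 := by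
    have k1 : ‖lam2 Q L g * (1 + d) - lam Q L p * ((1 - Q) * (1 + D))‖ ≤ ‖U5.EE Q L‖ + 2 := by
      have : lam2 Q L g * (1 + d) - lam Q L p * ((1 - Q) * (1 + D)) =
          U5.EE Q L - (Q ^ 2 - 3 * Q + 1) := by
        rw [e]
        ring
      rw [this]
      exact (norm_sub_le _ _).trans (by linarith)
    have k2 := norm_sub_norm_le (lam2 Q L g * (1 + d)) (lam Q L p * ((1 - Q) * (1 + D)))
    have k3 := norm_sub_norm_le (lam Q L p * ((1 - Q) * (1 + D))) (lam2 Q L g * (1 + d))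
    rw [norm_sub_rev] at k3
    rcases h p g hp hg ho ho2 with h | h
    · rw [← hAd, ← hBd] at h
      linarith
    · rw [← hAd, ← hBd] at h
      linarith
  rw [← hAd] at hl
  calc 1 / 2 * gg2 L ≤ 1 / 2 * ((C * ‖Q‖) ^ L.length * A) := by gcongr
    _ = (1 / 2 * A) * (C * ‖Q‖) ^ L.length := by ring
    _ ≤ _ := by gcongr

/-- the sizes of the weights -/
theorem gg2_ge {u : ℂ} (h1 : 1 ≤ ‖u‖) (β : List (ℤ × ℤ × ℤ)) :
    ‖u‖ ^ top2 β ≤ gg2 (β.map (wts u)) ∧ 1 ≤ ‖u‖ ^ top2 β := by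
  have hu : ‖u‖ ≠ 0 := by linarith
  have hu0 : u ≠ 0 := by
    intro h
    rw [h, norm_zero] at hu
    exact hu rfl
  have mx : ∀ a : ℤ, ‖u‖ ^ max 0 a ≤ 1 + ‖u ^ a‖ := by
    intro a
    rcases le_total 0 a with h | h
    · rw [max_eq_right h, norm_zpow]
      linarith
    · rw [max_eq_left h, zpow_zero]
      have := norm_nonneg (u ^ a)
      linarith
  induction β with
  | nil => simp [top2, gg2]
  | cons t β ih =>
    have e1 : top2 (t :: β) = (max 0 t.2.2 + max 0 (t.1 + t.2.1)) + top2 β := by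
      unfold top2
      rw [List.map_cons, List.sum_cons]
    have e2 : gg2 ((t :: β).map (wts u)) =
        (1 + ‖u ^ t.2.2‖) * (1 + ‖u ^ t.1 * u ^ t.2.1‖) * gg2 (β.map (wts u)) := by
      unfold gg2
      rw [List.map_cons, List.map_cons, List.prod_cons]
      rfl
    have m2 : ‖u‖ ^ max 0 (t.1 + t.2.1) ≤ 1 + ‖u ^ t.1 * u ^ t.2.1‖ := by
      rw [← zpow_add₀ hu0]
      exact mx _
    have p0 : ∀ a : ℤ, 0 < ‖u‖ ^ a := fun a => zpow_pos (by linarith) a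
    rw [e1, e2, zpow_add₀ hu, zpow_add₀ hu]
    constructor
    · apply mul_le_mul _ ih.1 (p0 _).le (by positivity)
      exact mul_le_mul (mx _) m2 (p0 _).le (by positivity)
    · have q1 : 1 ≤ ‖u‖ ^ max 0 t.2.2 := one_le_zpow₀ h1 (le_max_left _ _)
      have q2 : 1 ≤ ‖u‖ ^ max 0 (t.1 + t.2.1) := one_le_zpow₀ h1 (le_max_left _ _)
      exact one_le_mul_of_one_le_of_one_le (one_le_mul_of_one_le_of_one_le q1 q2) ih.2

/-! ### admissible words -/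

/-- the words: all syllables have length at least `N`, no block with exponents of different signs -/
def Ok2 (N : ℤ) (β : List (ℤ × ℤ × ℤ)) : Prop :=
  ∀ t ∈ β, N ≤ |t.2.2| ∧ (t.1 = 0 ∨ N ≤ |t.1|) ∧ (t.2.1 = 0 ∨ N ≤ |t.2.1|) ∧
    ¬ (t.1 = 0 ∧ t.2.1 = 0) ∧ 0 ≤ t.1 * t.2.1

theorem sum_size {N a c : ℤ} (hN : 0 < N) (h1 : a = 0 ∨ N ≤ |a|) (h2 : c = 0 ∨ N ≤ |c|)
    (h3 : ¬ (a = 0 ∧ c = 0)) (h4 : 0 ≤ a * c) : N ≤ |a + c| := by
  rcases h1 with h1 | h1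
  · rcases h2 with h2 | h2
    · exact absurd ⟨h1, h2⟩ h3
    · rw [h1, zero_add]
      exact h2
  · rcases h2 with h2 | h2
    · rw [h2, add_zero]
      exact h1
    · rw [le_abs] at h1 h2 ⊢
      rcases h1 with h1 | h1 <;> rcases h2 with h2 | h2
      · left
        linarith
      · nlinarith
      · nlinarith
      · right
        linarith

theorem adm2_wts {u : ℂ} {N : ℤ} (hN0 : 0 < N) (h1 : 1 ≤ ‖u‖) (hN : 100 ≤ ‖u‖ ^ N) (hu : u ≠ 0)
    (hreal : ∃ R : ℝ, 0 < R ∧ u = R)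
    {t : ℤ × ℤ × ℤ} (ht : N ≤ |t.2.2| ∧ (t.1 = 0 ∨ N ≤ |t.1|) ∧ (t.2.1 = 0 ∨ N ≤ |t.2.1|) ∧
    ¬ (t.1 = 0 ∧ t.2.1 = 0) ∧ 0 ≤ t.1 * t.2.1) : Adm2 (2 / 5) (wts u t) := by
  obtain ⟨t1, t2, t3, t4, t5⟩ := ht
  have big : ∀ a : ℤ, N ≤ |a| → 100 ≤ ‖u ^ a‖ ∨ ‖u ^ a‖ ≤ 1 / 100 := by
    intro a ha
    rcases lt_trichotomy a 0 with h | h | h
    · exact Or.inr ((zpow_cases h1 hN a ha).2 h)
    · rw [h, abs_zero] at ha
      omega
    · exact Or.inl ((zpow_cases h1 hN a ha).1 h)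
  have hs := sum_size hN0 t2 t3 t4 t5
  refine ⟨adm_z (big _ t1), ?_, ?_⟩
  · show 2 / 5 * (1 + ‖u ^ t.1‖ + ‖u ^ t.2.1‖) ≤ ‖u ^ t.1 + u ^ t.2.1 - 2‖
    rcases t2 with t2 | t2
    · rcases t3 with t3 | t3
      · exact absurd ⟨t2, t3⟩ t4
      · have h := adm_x (big _ t3)
        have h0 := norm_nonneg (u ^ t.2.1)
        rw [t2, zpow_zero]
        have e : (1 : ℂ) + u ^ t.2.1 - 2 = u ^ t.2.1 - 1 := by ring
        rw [e, norm_one]
        linarith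
    · rcases t3 with t3 | t3
      · have h := adm_x (big _ t2)
        have h0 := norm_nonneg (u ^ t.1)
        rw [t3, zpow_zero]
        have e : u ^ t.1 + (1 : ℂ) - 2 = u ^ t.1 - 1 := by ring
        rw [e, norm_one]
        linarith
      · obtain ⟨R, hR, rfl⟩ := hreal
        have pr : ∀ a : ℤ, ‖(R : ℂ) ^ a‖ = R ^ a := by
          intro a
          rw [norm_zpow, Complex.norm_real, Real.norm_of_nonneg hR.le]
        have e : (R : ℂ) ^ t.1 + (R : ℂ) ^ t.2.1 - 2 = ((R ^ t.1 + R ^ t.2.1 - 2 : ℝ) : ℂ) := by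
          push_cast
          rfl
        rw [e, Complex.norm_real, Real.norm_eq_abs, pr, pr]
        have b1 := big _ t2
        have b2 := big _ t3
        rw [pr] at b1 b2
        have p1 : 0 < R ^ t.1 := zpow_pos hR _
        have p2 : 0 < R ^ t.2.1 := zpow_pos hR _
        have c1 := zpow_cases h1 hN _ t2
        have c2 := zpow_cases h1 hN _ t3
        rw [pr] at c1 c2
        rcases lt_trichotomy t.1 0 with a | a | a
        · have x1 := c1.2 a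
          have b : t.2.1 < 0 := by
            rcases lt_trichotomy t.2.1 0 with b | b | b
            · exact b
            · rw [b, abs_zero] at t3
              omega
            · nlinarith
          have y1 := c2.2 b
          rw [abs_of_nonpos (by linarith)]
          linarith
        · rw [a, abs_zero] at t2
          omega
        · have x1 := c1.1 a
          have b : 0 < t.2.1 := by
            rcases lt_trichotomy t.2.1 0 with b | b | b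
            · nlinarith
            · rw [b, abs_zero] at t3
              omega
            · exact b
          have y1 := c2.1 b
          rw [abs_of_nonneg (by linarith)]
          linarith
  · show 2 / 5 * (1 + ‖u ^ t.1 * u ^ t.2.1‖) ≤ ‖u ^ t.1 * u ^ t.2.1 - 1‖
    rw [← zpow_add₀ hu]
    exact adm_z (big _ hs)

end Pool.Agent.FB.U6
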