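import Pool.Agent.FB.U6.DOM

/-!
# FB/U6/DOM2: the ratio of the two traces at a real point
-/

set_option autoImplicit false

open Matrix Pool.RU

namespace Pool.Agent.FB.U6

open Pool.Agent.FB.U5 (TB IsTurn pairs sc top wts v N lam orb Near zpow_cases adm_x adm_z
  norm_sub_large norm_sub_small zpow_eq_one TB_mem point2)

theorem pair_sum (f : ℤ → ℝ) (h : ℤ × ℤ × ℤ → ℝ) (P : List ((ℤ × ℤ × ℤ) × (ℤ × ℤ × ℤ))) :
    (P.map fun q => (if IsTurn q.1 q.2 then f q.2.2.2 else 0) + h q.1).sum =
      (((P.filter fun q => IsTurn q.1 q.2).map fun q => q.2.2.2).map f).sum +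
      ((P.map Prod.fst).map h).sum := by
  induction P with
  | nil => simp
  | cons q P ih =>
    rw [List.map_cons, List.sum_cons, ih, List.map_cons, List.map_cons, List.sum_cons,
      List.filter_cons]
    by_cases h1 : IsTurn q.1 q.2
    · rw [if_pos h1, if_pos (decide_eq_true h1), List.map_cons, List.map_cons, List.sum_cons]
      ring
    · rw [if_neg h1, if_neg (show ¬ (decide (IsTurn q.1 q.2) = true) from fun h2 =>
        h1 (of_decide_eq_true h2))]
      ring

/-- the contribution of a turn -/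
noncomputable def tf (e C q R : ℝ) (b : ℤ) : ℝ :=
  -(q / (R ^ b - 1)) + e * (C * q * |q / (R ^ b - 1)|)

/-- the contribution of a double block -/
noncomputable def df (e C R : ℝ) (s : ℤ × ℤ × ℤ) : ℝ :=
  if s.1 ≠ 0 ∧ s.2.1 ≠ 0 then
    Real.log ((1 + R ^ s.1 * R ^ s.2.1) / (1 + R ^ s.1 + R ^ s.2.1)) + e * C else 0

theorem rat_wts {e C q R : ℝ} (hq : 0 < q) (hR : 1 < R) (s t : ℤ × ℤ × ℤ) :
    rat e C (-(q : ℂ)) (wts (R : ℂ) s) (wts (R : ℂ) t) =
      (if IsTurn s t then tf e C q R t.2.2 else 0) + df e C R s := by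
  have hR' : 1 < ‖(R : ℂ)‖ := by
    rw [Complex.norm_real, Real.norm_of_nonneg (by linarith)]
    exact hR
  have nR : ‖(R : ℂ)‖ = R := by
    rw [Complex.norm_real, Real.norm_of_nonneg (by linarith)]
  unfold rat
  congr 1
  · have e1 : ((wts (R : ℂ) t).2.1 = 1 ∧ (wts (R : ℂ) s).1 = 1 ∨
        (wts (R : ℂ) t).1 = 1 ∧ (wts (R : ℂ) s).2.1 = 1) ↔ IsTurn s t := by
      show ((R : ℂ) ^ t.2.1 = 1 ∧ (R : ℂ) ^ s.1 = 1 ∨ (R : ℂ) ^ t.1 = 1 ∧ (R : ℂ) ^ s.2.1 = 1) ↔ _
      rw [zpow_eq_one hR', zpow_eq_one hR', zpow_eq_one hR', zpow_eq_one hR']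
      rfl
    have e2 : v (-(q : ℂ)) (wts (R : ℂ) t) = ((-(q / (R ^ t.2.2 - 1)) : ℝ) : ℂ) := by
      show -(q : ℂ) / ((R : ℂ) ^ t.2.2 - 1) = _
      push_cast
      ring
    by_cases h1 : IsTurn s t
    · rw [if_pos (e1.2 h1), if_pos h1, e2, Complex.ofReal_re, norm_neg, Complex.norm_real,
        Real.norm_of_nonneg hq.le, Complex.norm_real, Real.norm_eq_abs, abs_neg]
      rfl
    · rw [if_neg (fun h2 => h1 (e1.1 h2)), if_neg h1]
  · unfold df
    have e1 : ((wts (R : ℂ) s).1 ≠ 1 ∧ (wts (R : ℂ) s).2.1 ≠ 1) ↔ (s.1 ≠ 0 ∧ s.2.1 ≠ 0) := by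
      show ((R : ℂ) ^ s.1 ≠ 1 ∧ (R : ℂ) ^ s.2.1 ≠ 1) ↔ _
      rw [Ne, Ne, zpow_eq_one hR', zpow_eq_one hR']
    by_cases h1 : (s.1 ≠ 0 ∧ s.2.1 ≠ 0)
    · rw [if_pos (e1.2 h1), if_pos h1]
      show Real.log ((1 + ‖(R : ℂ) ^ s.1 * (R : ℂ) ^ s.2.1‖) / (1 + ‖(R : ℂ) ^ s.1‖ +
        ‖(R : ℂ) ^ s.2.1‖)) + _ = _
      rw [norm_mul, norm_zpow, norm_zpow, nR]
    · rw [if_neg (fun h2 => h1 (e1.1 h2)), if_neg h1]

theorem ratS_word {e C q R : ℝ} (hq : 0 < q) (hR : 1 < R) (β : List (ℤ × ℤ × ℤ)) :
    ratS e C (-(q : ℂ)) (β.map (wts (R : ℂ))) = ((TB β).map (tf e C q R)).sum +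
      (β.map (df e C R)).sum := by
  have h1 := pair_sum (tf e C q R) (df e C R) (pairs β)
  have e1 : (pairs β).map Prod.fst = β := by
    unfold pairs
    exact List.map_fst_zip (by rw [List.length_rotate])
  rw [e1] at h1
  unfold TB
  rw [← h1]
  unfold ratS pairs
  rw [← List.map_rotate, List.zip_map, List.map_map]
  congr 1
  apply List.map_congr_left
  intro q' _
  exact rat_wts hq hR q'.1 q'.2

/-! ### the turns -/

/-- the sum over the positive turns -/
noncomputable def sp (R : ℝ) (l : List ℤ) : ℝ :=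
  (l.map fun b => if 0 < b then (R ^ b - 1)⁻¹ else 0).sum

theorem turns_bd {C q R : ℝ} {N : ℤ} (hq : 0 < q) (hC : C * q ≤ 1 / 100) (hC0 : 0 ≤ C)
    (hN : 0 < N) (hR : 1 < R) (hRN : 100 ≤ R ^ N) (l : List ℤ) (hl : ∀ b ∈ l, N ≤ |b|) :
    q * (99 / 100 * (l.countP (· < 0) : ℕ) - 101 / 100 * sp R l) ≤ (l.map (tf (-1) C q R)).sum ∧
    (l.map (tf 1 C q R)).sum ≤ q * (103 / 100 * (l.countP (· < 0) : ℕ) - 99 / 100 * sp R l) ∧
    0 ≤ sp R l ∧ sp (R ^ 2) l ≤ 1 / 101 * sp R l := by
  have hR0 : 0 < R := by linarith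
  induction l with
  | nil => simp [sp]
  | cons b l ih =>
    obtain ⟨i1, i2, i3, i4⟩ := ih fun b hb => hl b (List.mem_cons_of_mem _ hb)
    have hb := hl b List.mem_cons_self
    have es : ∀ R' : ℝ, sp R' (b :: l) = (if 0 < b then (R' ^ b - 1)⁻¹ else 0) + sp R' l := by
      intro R'
      unfold sp
      rw [List.map_cons, List.sum_cons]
    rw [List.map_cons, List.sum_cons, List.map_cons, List.sum_cons, es, es]
    rcases lt_or_ge b 0 with hb0 | hb0
    · rw [abs_of_neg hb0] at hb
      have r1 : R ^ b ≤ 1 / 100 := by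
        have h1 : R ^ b ≤ R ^ (-N) := zpow_le_zpow_right₀ hR.le (by linarith)
        rw [_root_.zpow_neg] at h1
        refine h1.trans ?_
        rw [one_div]
        exact inv_anti₀ (by norm_num) hRN
      have r0 : 0 < R ^ b := zpow_pos hR0 _
      have c1 : (b :: l).countP (· < 0) = l.countP (· < 0) + 1 :=
        List.countP_cons_of_pos (by simpa using hb0)
      have c2 : ¬ (0 < b) := by omega
      rw [c1, if_neg c2, if_neg c2]
      push_cast
      have k1 : q / (R ^ b - 1) = -(q / (1 - R ^ b)) := by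
        rw [← neg_sub (1 : ℝ) (R ^ b), div_neg]
      have k2 : q ≤ q / (1 - R ^ b) := by
        rw [le_div_iff₀ (by linarith)]
        nlinarith
      have k3 : q / (1 - R ^ b) ≤ 101 / 100 * q + 1 / 1000 * q := by
        rw [div_le_iff₀ (by linarith)]
        nlinarith
      have k4 : |q / (R ^ b - 1)| = q / (1 - R ^ b) := by
        rw [k1, abs_neg, abs_of_nonneg (by linarith)]
      have k5 : 0 ≤ C * q * (q / (1 - R ^ b)) := by
        have : 0 ≤ q / (1 - R ^ b) := by linarith
        positivity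
      have k6 : C * q * (q / (1 - R ^ b)) ≤ 1 / 100 * (q / (1 - R ^ b)) := by
        apply mul_le_mul_of_nonneg_right hC
        linarith
      have t1 : tf (-1) C q R b = q / (1 - R ^ b) - C * q * (q / (1 - R ^ b)) := by
        unfold tf
        rw [k4, k1]
        ring
      have t2 : tf 1 C q R b = q / (1 - R ^ b) + C * q * (q / (1 - R ^ b)) := by
        unfold tf
        rw [k4, k1]
        ring
      rw [t1, t2]
      refine ⟨by nlinarith, by nlinarith, by linarith, by linarith⟩
    · rw [abs_of_nonneg hb0] at hb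
      have hb1 : 0 < b := by omega
      have r1 : 100 ≤ R ^ b := hRN.trans (zpow_le_zpow_right₀ hR.le hb)
      have c1 : (b :: l).countP (· < 0) = l.countP (· < 0) :=
        List.countP_cons_of_neg (by simpa using hb0)
      rw [c1, if_pos hb1, if_pos hb1]
      have k0 : 0 < (R ^ b - 1)⁻¹ := inv_pos.2 (by linarith)
      have k1 : q / (R ^ b - 1) = q * (R ^ b - 1)⁻¹ := div_eq_mul_inv _ _
      have k4 : |q / (R ^ b - 1)| = q * (R ^ b - 1)⁻¹ := by
        rw [k1, abs_of_nonneg (by positivity)]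
      have k6 : C * q * (q * (R ^ b - 1)⁻¹) ≤ 1 / 100 * (q * (R ^ b - 1)⁻¹) := by
        apply mul_le_mul_of_nonneg_right hC
        positivity
      have t1 : tf (-1) C q R b = -(q * (R ^ b - 1)⁻¹) - C * q * (q * (R ^ b - 1)⁻¹) := by
        unfold tf
        rw [k4, k1]
        ring
      have t2 : tf 1 C q R b = -(q * (R ^ b - 1)⁻¹) + C * q * (q * (R ^ b - 1)⁻¹) := by
        unfold tf
        rw [k4, k1]
        ring
      rw [t1, t2]
      have e2 : ((R ^ 2) ^ b - 1)⁻¹ ≤ 1 / 101 * (R ^ b - 1)⁻¹ := by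
        have e3 : (R ^ 2) ^ b - 1 = (R ^ b + 1) * (R ^ b - 1) := by
          have : (R ^ 2) ^ b = R ^ b * R ^ b := by
            rw [pow_two, mul_zpow]
          rw [this]
          ring
        rw [e3, mul_inv]
        apply mul_le_mul_of_nonneg_right _ k0.le
        rw [one_div]
        exact inv_anti₀ (by norm_num) (by linarith)
      refine ⟨by nlinarith, by nlinarith, by linarith, by linarith⟩

/-! ### the double blocks -/

/-- the cost of the blocks with two positive exponents -/
def sg (β : List (ℤ × ℤ × ℤ)) : ℤ :=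
  (β.map fun s => if 0 < s.1 ∧ 0 < s.2.1 then min s.1 s.2.1 else 0).sum

/-- the number of blocks with two positive exponents -/
def nP (β : List (ℤ × ℤ × ℤ)) : ℕ := β.countP fun s => 0 < s.1 ∧ 0 < s.2.1

/-- the number of blocks with two negative exponents -/
def nM (β : List (ℤ × ℤ × ℤ)) : ℕ := β.countP fun s => s.1 < 0 ∧ s.2.1 < 0

theorem dbl_bd {C ρ : ℝ} {N : ℤ} (hC0 : 0 ≤ C) (hN : 0 < N) (hρ : 0 < ρ)
    (hRN : 100 ≤ Real.exp ρ ^ N) (β : List (ℤ × ℤ × ℤ)) (hβ : Ok2 N β) :
    ρ * sg β - (C + 2) * (nP β + nM β) ≤ (β.map (df (-1) C (Real.exp ρ))).sum ∧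
    (β.map (df 1 C (Real.exp ρ))).sum ≤ ρ * sg β + C * (nP β + nM β) ∧
    (N : ℝ) * nP β ≤ sg β := by
  have hR : 1 < Real.exp ρ := Real.one_lt_exp_iff.2 hρ
  have hR0 : 0 < Real.exp ρ := Real.exp_pos _
  have lg : ∀ k : ℤ, Real.log (Real.exp ρ ^ k) = ρ * k := by
    intro k
    rw [Real.log_zpow, Real.log_exp]
    ring
  have hRN' : Real.exp ρ ^ (-N) ≤ 1 / 100 := by
    rw [_root_.zpow_neg, one_div]
    exact inv_anti₀ (by norm_num) hRN
  set R := Real.exp ρ with hRdef
  induction β with
  | nil => simp [sg, nP, nM]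
  | cons s β ih =>
    obtain ⟨i1, i2, i3⟩ := ih fun t ht => hβ t (List.mem_cons_of_mem _ ht)
    obtain ⟨-, h1, h2, h3, h4⟩ := hβ s List.mem_cons_self
    have e1 : sg (s :: β) = (if 0 < s.1 ∧ 0 < s.2.1 then min s.1 s.2.1 else 0) + sg β := by
      unfold sg
      rw [List.map_cons, List.sum_cons]
    have e2 : nP (s :: β) = nP β + (if 0 < s.1 ∧ 0 < s.2.1 then 1 else 0) := by
      unfold nP
      rw [List.countP_cons]
      simp
    have e3 : nM (s :: β) = nM β + (if s.1 < 0 ∧ s.2.1 < 0 then 1 else 0) := by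
      unfold nM
      rw [List.countP_cons]
      simp
    rw [List.map_cons, List.sum_cons, List.map_cons, List.sum_cons, e1, e2, e3]
    have pa : 0 < R ^ s.1 := zpow_pos hR0 _
    have pc : 0 < R ^ s.2.1 := zpow_pos hR0 _
    by_cases hs : s.1 ≠ 0 ∧ s.2.1 ≠ 0
    · rcases lt_or_gt_of_ne hs.1 with ha | ha
      · -- both negative
        have hc : s.2.1 < 0 := by
          rcases lt_or_gt_of_ne hs.2 with h | h
          · exact h
          · nlinarith
        have a1 : N ≤ -s.1 := by
          rcases h1 with h | h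
          · exact absurd h hs.1
          · rwa [abs_of_neg ha] at h
        have c1 : N ≤ -s.2.1 := by
          rcases h2 with h | h
          · exact absurd h hs.2
          · rwa [abs_of_neg hc] at h
        have xa : R ^ s.1 ≤ 1 / 100 :=
          (zpow_le_zpow_right₀ hR.le (by linarith : s.1 ≤ -N)).trans hRN'
        have xc : R ^ s.2.1 ≤ 1 / 100 :=
          (zpow_le_zpow_right₀ hR.le (by linarith : s.2.1 ≤ -N)).trans hRN'
        rw [if_neg (by omega), if_neg (by omega), if_pos ⟨ha, hc⟩]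
        have hp : 0 < R ^ s.1 * R ^ s.2.1 := mul_pos pa pc
        have l1 : Real.log ((1 + R ^ s.1 * R ^ s.2.1) / (1 + R ^ s.1 + R ^ s.2.1)) ≤ 0 := by
          apply Real.log_nonpos (by positivity)
          rw [div_le_one (by positivity)]
          nlinarith
        have l2 : -1 ≤ Real.log ((1 + R ^ s.1 * R ^ s.2.1) / (1 + R ^ s.1 + R ^ s.2.1)) := by
          rw [Real.le_log_iff_exp_le (by positivity), le_div_iff₀ (by positivity)]
          have : Real.exp (-1) ≤ 1 / 2 := by
            rw [Real.exp_neg, one_div]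
            apply inv_anti₀ (by norm_num)
            have := Real.exp_one_gt_d9
            linarith
          nlinarith
        have d1 : df (-1) C R s =
            Real.log ((1 + R ^ s.1 * R ^ s.2.1) / (1 + R ^ s.1 + R ^ s.2.1)) - C := by
          unfold df
          rw [if_pos hs]
          ring
        have d2 : df 1 C R s =
            Real.log ((1 + R ^ s.1 * R ^ s.2.1) / (1 + R ^ s.1 + R ^ s.2.1)) + C := by
          unfold df
          rw [if_pos hs]
          ring
        rw [d1, d2]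
        push_cast
        refine ⟨by nlinarith, by nlinarith, by linarith⟩
      · -- both positive
        have hc : 0 < s.2.1 := by
          rcases lt_or_gt_of_ne hs.2 with h | h
          · nlinarith
          · exact h
        have a1 : N ≤ s.1 := by
          rcases h1 with h | h
          · exact absurd h hs.1
          · rwa [abs_of_pos ha] at h
        have c1 : N ≤ s.2.1 := by
          rcases h2 with h | h
          · exact absurd h hs.2
          · rwa [abs_of_pos hc] at h
        rw [if_pos ⟨ha, hc⟩, if_pos ⟨ha, hc⟩, if_neg (by omega)]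
        have xa : 1 ≤ R ^ s.1 := one_le_zpow₀ hR.le ha.le
        have xc : 1 ≤ R ^ s.2.1 := one_le_zpow₀ hR.le hc.le
        obtain ⟨μ, hμ⟩ : ∃ μ : ℤ, μ = min s.1 s.2.1 := ⟨_, rfl⟩
        obtain ⟨ν, hν⟩ : ∃ ν : ℤ, ν = max s.1 s.2.1 := ⟨_, rfl⟩
        have p1 : R ^ s.1 * R ^ s.2.1 = R ^ μ * R ^ ν := by
          rw [hμ, hν]
          rcases le_total s.1 s.2.1 with h | h
          · rw [min_eq_left h, max_eq_right h]
          · rw [min_eq_right h, max_eq_left h, mul_comm]
        have p2 : R ^ s.1 + R ^ s.2.1 = R ^ μ + R ^ ν := by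
          rw [hμ, hν]
          rcases le_total s.1 s.2.1 with h | h
          · rw [min_eq_left h, max_eq_right h]
          · rw [min_eq_right h, max_eq_left h, add_comm]
        have q1 : 1 ≤ R ^ μ := one_le_zpow₀ hR.le (by omega)
        have q2 : R ^ μ ≤ R ^ ν := zpow_le_zpow_right₀ hR.le (by omega)
        have l1 : Real.log ((1 + R ^ s.1 * R ^ s.2.1) / (1 + R ^ s.1 + R ^ s.2.1)) ≤ ρ * μ := by
          rw [← lg μ]
          apply Real.log_le_log (by positivity)
          rw [div_le_iff₀ (by positivity), p1, add_assoc, p2]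
          nlinarith
        have l2 : ρ * μ - 2 ≤
            Real.log ((1 + R ^ s.1 * R ^ s.2.1) / (1 + R ^ s.1 + R ^ s.2.1)) := by
          have e4 : ρ * μ - 2 = Real.log (R ^ μ * Real.exp (-2)) := by
            rw [Real.log_mul (by positivity) (Real.exp_pos _).ne', Real.log_exp, lg μ]
            ring
          rw [e4]
          apply Real.log_le_log (by positivity)
          rw [le_div_iff₀ (by positivity), p1, add_assoc, p2]
          have e5 : Real.exp (-2) ≤ 1 / 3 := by
            rw [Real.exp_neg, one_div]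
            apply inv_anti₀ (by norm_num)
            have h5 := Real.exp_one_gt_d9
            have h6 : Real.exp 2 = Real.exp 1 * Real.exp 1 := by
              rw [← Real.exp_add]
              norm_num
            rw [h6]
            nlinarith
          have e6 : 1 + (R ^ μ + R ^ ν) ≤ 3 * R ^ ν := by linarith
          have e7 : R ^ μ * Real.exp (-2) ≤ R ^ μ * (1 / 3) := by gcongr
          calc R ^ μ * Real.exp (-2) * (1 + (R ^ μ + R ^ ν))
              ≤ R ^ μ * (1 / 3) * (3 * R ^ ν) := by gcongr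
            _ = R ^ μ * R ^ ν := by ring
            _ ≤ _ := by linarith
        have d1 : df (-1) C R s =
            Real.log ((1 + R ^ s.1 * R ^ s.2.1) / (1 + R ^ s.1 + R ^ s.2.1)) - C := by
          unfold df
          rw [if_pos hs]
          ring
        have d2 : df 1 C R s =
            Real.log ((1 + R ^ s.1 * R ^ s.2.1) / (1 + R ^ s.1 + R ^ s.2.1)) + C := by
          unfold df
          rw [if_pos hs]
          ring
        rw [d1, d2, ← hμ]
        have m1 : (N : ℝ) ≤ μ := by
          have : N ≤ μ := by omega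
          exact_mod_cast this
        push_cast
        refine ⟨by linarith, by linarith, by linarith⟩
    · rw [if_neg (by
        intro h
        apply hs
        constructor <;> omega), if_neg (by
        intro h
        apply hs
        constructor <;> omega), if_neg (by
        intro h
        apply hs
        constructor <;> omega)]
      have d1 : ∀ e : ℝ, df e C R s = 0 := by
        intro e
        unfold df
        rw [if_neg hs]
      rw [d1, d1]
      push_cast
      refine ⟨by linarith, by linarith, by linarith⟩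

end Pool.Agent.FB.U6
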