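import Pool.Agent.FB.U6.DOM2

/-!
# FB/U6/FIN: closed 4-braids, an absolute constant, the theorem
-/

set_option autoImplicit false

open Matrix Pool.RU

namespace Pool.Agent.FB.U6

open Pool.Agent.FB.U5 (TB IsTurn pairs sc top wts v N lam orb Near zpow_cases adm_x adm_z
  norm_sub_large norm_sub_small zpow_eq_one TB_mem point2)

/-- from the bracket to the coefficients -/
theorem coeff_lower2 {C q R g E S T B : ℝ} {m N : ℕ} (hN : 0 < N) (hC : 0 < C)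
    (hq0 : 0 < q) (hR : R ^ 2 ≤ 3) (hT1 : 1 ≤ T) (hg : T ≤ g) (hS : 0 ≤ S)
    (h1 : 1 / 2 * g ≤ (E + 2) * (C * q) ^ m) (h2 : E ≤ S * (T * R ^ 2) * Real.sqrt q)
    (h3 : 2 * (C * q) ^ m ≤ 1 / 4) (hq1 : 12 / (N : ℝ) ^ 2 ≤ q) (hq2 : q ≤ B / (N : ℝ) ^ 2)
    (hq3 : q ≤ 1) :
    3 / 20 * ((N : ℝ) ^ 2) ^ m ≤ N * S * (B * C) ^ m := by
  have hN' : (0 : ℝ) < N := by exact_mod_cast hN
  have hp : 0 < (C * q) ^ m := by positivity
  have hsq := Real.sq_sqrt hq0.le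
  have hs0 := Real.sqrt_pos.2 hq0
  set w := Real.sqrt q with hw
  have h5 : 1 / 2 * T ≤ (S * (T * R ^ 2) * w + 2) * (C * q) ^ m := by
    calc 1 / 2 * T ≤ 1 / 2 * g := by gcongr
      _ ≤ (E + 2) * (C * q) ^ m := h1
      _ ≤ _ := by gcongr
  have h6 : (S * (T * R ^ 2) * w + 2) * (C * q) ^ m ≤ T * (3 * S * w * (C * q) ^ m + 1 / 4) := by
    have e1 : S * (T * R ^ 2) * w ≤ S * (T * 3) * w := by gcongr
    have e2 : 2 * (C * q) ^ m ≤ T * (1 / 4) := by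
      calc 2 * (C * q) ^ m ≤ 1 / 4 := h3
        _ = 1 * (1 / 4) := by ring
        _ ≤ _ := by gcongr
    have e3 : S * (T * R ^ 2) * w * (C * q) ^ m ≤ S * (T * 3) * w * (C * q) ^ m := by gcongr
    nlinarith
  have h7 : 1 / 2 ≤ 3 * S * w * (C * q) ^ m + 1 / 4 := by
    have : T * (1 / 2) ≤ T * (3 * S * w * (C * q) ^ m + 1 / 4) := by linarith
    exact le_of_mul_le_mul_left this (by linarith)
  have h8 : 1 / 20 * q ≤ S * w * (C * q) ^ m := by linarith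
  have h9 : 1 / 20 * w ≤ S * (C * q) ^ m := by
    have e1 : w * (1 / 20 * w) ≤ w * (S * (C * q) ^ m) := by
      calc w * (1 / 20 * w) = 1 / 20 * w ^ 2 := by ring
        _ = 1 / 20 * q := by rw [hsq]
        _ ≤ S * w * (C * q) ^ m := h8
        _ = _ := by ring
    exact le_of_mul_le_mul_left e1 hs0
  have h10 : 3 / (N : ℝ) ≤ w := by
    rw [hw]
    apply Real.le_sqrt_of_sq_le
    refine le_trans ?_ hq1
    rw [div_pow]
    gcongr
    norm_num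
  have hB : 0 < B := by
    have : 0 < B / (N : ℝ) ^ 2 := lt_of_lt_of_le hq0 hq2
    rcases div_pos_iff.1 this with h | h
    · exact h.1
    · exfalso
      have := h.2
      have h' : 0 < (N : ℝ) ^ 2 := by positivity
      linarith
  have h11 : (C * q) ^ m ≤ (B * C) ^ m / ((N : ℝ) ^ 2) ^ m := by
    rw [← div_pow]
    gcongr
    calc C * q ≤ C * (B / (N : ℝ) ^ 2) := by gcongr
      _ = _ := by ring
  have h12 : 1 / 20 * (3 / (N : ℝ)) ≤ S * ((B * C) ^ m / ((N : ℝ) ^ 2) ^ m) := by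
    calc 1 / 20 * (3 / (N : ℝ)) ≤ 1 / 20 * w := by gcongr
      _ ≤ S * (C * q) ^ m := h9
      _ ≤ _ := by gcongr
  have h13 : 0 < ((N : ℝ) ^ 2) ^ m := by positivity
  calc 3 / 20 * ((N : ℝ) ^ 2) ^ m = (1 / 20 * (3 / (N : ℝ))) * (N * ((N : ℝ) ^ 2) ^ m) := by
        field_simp
    _ ≤ (S * ((B * C) ^ m / ((N : ℝ) ^ 2) ^ m)) * (N * ((N : ℝ) ^ 2) ^ m) := by gcongr
    _ = _ := by field_simp

theorem exp_le_quarter {x : ℝ} (hx : 2 ≤ x) : 4 ≤ Real.exp x := by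
  have h1 := Real.exp_one_gt_d9
  have h2 : Real.exp 2 = Real.exp 1 * Real.exp 1 := by
    rw [← Real.exp_add]
    norm_num
  have h3 : Real.exp 2 ≤ Real.exp x := Real.exp_le_exp.2 hx
  nlinarith

/-- **two real points**: one of the two traces dominates at one of them -/
theorem two_points {ρ s₁ s₂ C n P M q q₂ hl hu : ℝ} (hP : 1 ≤ P) (hM : M ≤ P)
    (hC : 0 ≤ C) (hn : 0 ≤ n) (hs1 : 0 ≤ s₁) (hs2 : s₂ ≤ 1 / 101 * s₁) (hq : 0 < q)
    (hq2 : 4 * q ≤ q₂) (hq2' : q₂ ≤ 401 / 100 * q) {σ : ℝ}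
    (hσ : 16 * (C + 2) * P ≤ ρ * σ)
    (h1 : hu ≤ (ρ * σ + C * (P + M)) + q * (103 / 100 * n - 99 / 100 * s₁))
    (h2 : (2 * ρ * σ - (C + 2) * (P + M)) + q₂ * (99 / 100 * n - 101 / 100 * s₂) ≤ hl) :
    hu ≤ -2 ∨ 2 ≤ hl := by
  have a1 : (C + 2) * (P + M) ≤ 1 / 8 * (ρ * σ) := by
    have : (C + 2) * (P + M) ≤ (C + 2) * (2 * P) := by
      apply mul_le_mul_of_nonneg_left _ (by linarith)
      linarith
    linarith
  have a2 : C * (P + M) ≤ 1 / 8 * (ρ * σ) := by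
    rcases le_or_gt 0 (P + M) with h | h
    · nlinarith
    · have : C * (P + M) ≤ 0 := mul_nonpos_of_nonneg_of_nonpos hC h.le
      have : 0 ≤ 16 * (C + 2) * P := by positivity
      linarith
  have a3 : 32 ≤ ρ * σ := by nlinarith
  rcases le_or_gt (13 / 8 * (ρ * σ) + 103 / 100 * (q * n)) (99 / 100 * (q * s₁)) with h | h
  · left
    nlinarith
  · right
    have b1 : 4 * q * (99 / 100 * n) ≤ q₂ * (99 / 100 * n) := by gcongr
    have b2 : q₂ * (101 / 100 * s₂) ≤ 401 / 100 * q * (101 / 100 * (1 / 101 * s₁)) := by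
      have : 0 ≤ q₂ := by linarith
      calc q₂ * (101 / 100 * s₂) ≤ q₂ * (101 / 100 * (1 / 101 * s₁)) := by gcongr
        _ ≤ _ := by gcongr
    have b3 : 0 ≤ q * n := by positivity
    nlinarith

/-- the estimate at one of the two points -/
theorem at_point {κ C C' Q₁ q R ρ : ℝ} {N : ℕ} (hC' : 1 ≤ C')
    (hRat : ∀ Q : ℂ, ‖Q‖ < Q₁ → Good2 (2 / 5) κ C Q → ∀ L : List (ℂ × ℂ × ℂ), L ≠ [] →
      (∀ t ∈ L, Adm2 (2 / 5) t) → ∀ (p : ℂ × ℂ) (g : ℂ), Near κ Q p → ‖g‖ ≤ κ * ‖Q‖ →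
      orb Q L p = p → orb2 Q L g = g →
      Real.exp (ratS (-1) C' Q L) * ‖lam Q L p‖ ≤ ‖lam2 Q L g‖ ∧
        ‖lam2 Q L g‖ ≤ Real.exp (ratS 1 C' Q L) * ‖lam Q L p‖)
    (G : Good2 (2 / 5) κ C (-(q : ℂ))) (hq : 0 < q) (hq1 : q < Q₁) (hsm : 40 * C * q ≤ 1)
    (hR : R = Real.exp ρ) (hρ : 0 < ρ) (hN : 0 < N) (hRN : 100 ≤ R ^ (N : ℤ))
    {β : List (ℤ × ℤ × ℤ)} (hβ : Ok2 N β) (hne : β ≠ [])
    (h : ((TB β).map (tf 1 C' q R)).sum + (β.map (df 1 C' R)).sum ≤ -2 ∨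
      2 ≤ ((TB β).map (tf (-1) C' q R)).sum + (β.map (df (-1) C' R)).sum) :
    1 / 2 * gg2 (β.map (wts (R : ℂ))) ≤
      (‖U5.EE (-(q : ℂ)) (β.map (wts (R : ℂ)))‖ + 2) * (C * q) ^ β.length := by
  have hR1 : 1 < R := by
    rw [hR]
    exact Real.one_lt_exp_iff.2 hρ
  have hR0 : 0 < R := by linarith
  have nq : ‖(-(q : ℂ))‖ = q := by
    rw [norm_neg, Complex.norm_real, Real.norm_of_nonneg hq.le]
  have nR : ‖(R : ℂ)‖ = R := by
    rw [Complex.norm_real, Real.norm_of_nonneg hR0.le]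
  have hNZ : (0 : ℤ) < N := by exact_mod_cast hN
  have hA : ∀ t ∈ β.map (wts (R : ℂ)), Adm2 (2 / 5) t := by
    intro t ht
    obtain ⟨s, hs, rfl⟩ := List.mem_map.1 ht
    exact adm2_wts hNZ (by rw [nR]; exact hR1.le) (by rw [nR]; exact hRN)
      (by
        intro h0
        rw [← norm_eq_zero, nR] at h0
        linarith) ⟨R, hR0, rfl⟩ (hβ s hs)
  have hL : β.map (wts (R : ℂ)) ≠ [] := by simpa using hne
  have h1 := dominated G hL hA (by rw [nq]; exact hsm) (fun p g hp hg ho ho2 => by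
    obtain ⟨r1, r2⟩ := hRat (-(q : ℂ)) (by rw [nq]; exact hq1) G _ hL hA p g hp hg ho ho2
    rw [ratS_word hq hR1] at r1 r2
    rcases h with h | h
    · left
      have e1 : Real.exp (((TB β).map (tf 1 C' q R)).sum + (β.map (df 1 C' R)).sum) ≤ 1 / 4 := by
        have e2 := Real.exp_le_exp.2 h
        refine e2.trans ?_
        rw [Real.exp_neg, one_div]
        exact inv_anti₀ (by norm_num) (exp_le_quarter le_rfl)
      have e3 : ‖lam2 (-(q : ℂ)) (β.map (wts (R : ℂ))) g‖ ≤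
          1 / 4 * ‖lam (-(q : ℂ)) (β.map (wts (R : ℂ))) p‖ := r2.trans (by gcongr)
      linarith
    · right
      have e1 := exp_le_quarter h
      have e3 : 4 * ‖lam (-(q : ℂ)) (β.map (wts (R : ℂ))) p‖ ≤
          Real.exp (((TB β).map (tf (-1) C' q R)).sum + (β.map (df (-1) C' R)).sum) *
            ‖lam (-(q : ℂ)) (β.map (wts (R : ℂ))) p‖ := by gcongr
      linarith)
  rw [nq, List.length_map] at h1
  exact h1

theorem ok2_sc {N : ℤ} {β : List (ℤ × ℤ × ℤ)} (hβ : Ok2 N β) {ε : ℤ} (hε : ε = 1 ∨ ε = -1) :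
    Ok2 N (β.map (sc ε)) := by
  intro t ht
  obtain ⟨s, hs, rfl⟩ := List.mem_map.1 ht
  obtain ⟨h1, h2, h3, h4, h5⟩ := hβ s hs
  have ab : ∀ a : ℤ, |ε * a| = |a| := by
    intro a
    rcases hε with rfl | rfl <;> simp
  have z : ∀ a : ℤ, ε * a = 0 ↔ a = 0 := by
    intro a
    rcases hε with rfl | rfl <;> simp
  show N ≤ |ε * s.2.2| ∧ (ε * s.1 = 0 ∨ N ≤ |ε * s.1|) ∧ (ε * s.2.1 = 0 ∨ N ≤ |ε * s.2.1|) ∧
    ¬ (ε * s.1 = 0 ∧ ε * s.2.1 = 0) ∧ 0 ≤ (ε * s.1) * (ε * s.2.1)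
  rw [ab, ab, ab, z, z]
  refine ⟨h1, h2, h3, h4, ?_⟩
  have : (ε * s.1) * (ε * s.2.1) = s.1 * s.2.1 := by
    rcases hε with rfl | rfl <;> ring
  rw [this]
  exact h5

theorem side2 (β : List (ℤ × ℤ × ℤ)) (h : ∃ t ∈ β, (0 < t.1 ∧ 0 < t.2.1) ∨ (t.1 < 0 ∧ t.2.1 < 0)) :
    ∃ ε : ℤ, (ε = 1 ∨ ε = -1) ∧ 1 ≤ nP (β.map (sc ε)) ∧ nM (β.map (sc ε)) ≤ nP (β.map (sc ε)) := by
  have e1 : nP (β.map (sc 1)) = nP β ∧ nM (β.map (sc 1)) = nM β := by
    unfold nP nM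
    rw [List.countP_map, List.countP_map]
    constructor <;>
    · congr 1
      funext s
      simp [sc]
  have e2 : nP (β.map (sc (-1))) = nM β ∧ nM (β.map (sc (-1))) = nP β := by
    unfold nP nM
    rw [List.countP_map, List.countP_map]
    constructor <;>
    · congr 1
      funext s
      simp [sc]
  have e3 : 1 ≤ nP β + nM β := by
    obtain ⟨t, ht, h1 | h1⟩ := h
    · have : 0 < nP β := List.countP_pos_iff.2 ⟨t, ht, by simpa using h1⟩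
      omega
    · have : 0 < nM β := List.countP_pos_iff.2 ⟨t, ht, by simpa using h1⟩
      omega
  rcases le_total (nM β) (nP β) with h1 | h1
  · refine ⟨1, Or.inl rfl, ?_, ?_⟩
    · rw [e1.1]
      omega
    · rw [e1.1, e1.2]
      exact h1
  · refine ⟨-1, Or.inr rfl, ?_, ?_⟩
    · rw [e2.1]
      omega
    · rw [e2.1, e2.2]
      exact h1

/-- **the second part**: no block with exponents of different signs -/
theorem part2 : ∃ N₀ : ℕ, 0 < N₀ ∧ ∀ N : ℕ, N₀ ≤ N → ∀ β : List (ℤ × ℤ × ℤ),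
    Ok2 N β → (∃ t ∈ β, (0 < t.1 ∧ 0 < t.2.1) ∨ (t.1 < 0 ∧ t.2.1 < 0)) →
    ∀ o, (closure β).IsOrientation o →
    (N : ℤ) ^ (2 * β.length - 1) ≤
      (N₀ : ℤ) ^ (2 * β.length - 1) * SPT.coeffSum ((closure β).normalized o) := by
  obtain ⟨κ, C, Q₀, hQ₀, hG⟩ := thm_Loc (2 / 5) (by norm_num) (by norm_num)
  obtain ⟨C', Q₁, hQ₁, hC', hRat⟩ := thm_Ratio (2 / 5) κ C (by norm_num)
  have hC : 1 ≤ C := by
    have h1 : ‖((Q₀ / 2 : ℝ) : ℂ)‖ = Q₀ / 2 := by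
      rw [Complex.norm_real, Real.norm_of_nonneg (by linarith)]
    exact (hG ((Q₀ / 2 : ℝ) : ℂ) (by rw [h1]; linarith) (by rw [h1]; linarith)).one_le
  have hC0 : 0 < C := by linarith
  obtain ⟨K₀, hK₀⟩ : ∃ K₀ : ℝ, K₀ = 16 * (C' + 2) := ⟨_, rfl⟩
  have hK₀1 : 48 ≤ K₀ := by linarith
  obtain ⟨B, hB⟩ : ∃ B : ℝ, B = 8 * K₀ ^ 2 := ⟨_, rfl⟩
  have hBp : 0 < B := by
    rw [hB]
    positivity
  obtain ⟨K, hK⟩ : ∃ K : ℝ, K = 1 / Q₀ + 1 / Q₁ + 100 * C' + 40 * C + 100 := ⟨_, rfl⟩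
  have small : ∀ q : ℝ, 0 < q → q * K < 1 → q < Q₀ ∧ q < Q₁ ∧ C' * q ≤ 1 / 100 ∧
      40 * C * q ≤ 1 ∧ q ≤ 1 / 100 := by
    intro q hq h
    have p1 : 0 < 1 / Q₀ := by positivity
    have p2 : 0 < 1 / Q₁ := by positivity
    have s1 : ∀ x : ℝ, x ≤ K → q * x < 1 := fun x hx =>
      lt_of_le_of_lt (mul_le_mul_of_nonneg_left hx hq.le) h
    have r1 := s1 (1 / Q₀) (by rw [hK]; linarith)
    have r2 := s1 (1 / Q₁) (by rw [hK]; linarith)
    have r3 := s1 (100 * C') (by rw [hK]; linarith)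
    have r4 := s1 (40 * C) (by rw [hK]; linarith)
    have r5 := s1 100 (by rw [hK]; linarith)
    refine ⟨?_, ?_, by linarith, by linarith, by linarith⟩
    · rw [mul_one_div, div_lt_one hQ₀] at r1
      exact r1
    · rw [mul_one_div, div_lt_one hQ₁] at r2
      exact r2
  have hKp : 0 < K := by
    rw [hK]
    positivity
  obtain ⟨N₀, hN₀⟩ := exists_nat_ge (B * K + 40 * K₀ + B * C / (3 / 20) + 1)
  have hBC : 0 < B * C / (3 / 20) := by positivity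
  have hBK : 0 < B * K := by positivity
  refine ⟨N₀, by
    have : (0 : ℝ) < N₀ := by linarith
    exact_mod_cast this, ?_⟩
  intro N hN β hβ hd o ho
  have hNN : (N₀ : ℝ) ≤ N := by exact_mod_cast hN
  have hNp : (0 : ℝ) < N := by linarith
  have hNp' : 0 < N := by exact_mod_cast hNp
  have hNZ : (0 : ℤ) < N := by exact_mod_cast hNp'
  obtain ⟨S, hS⟩ : ∃ S : ℤ, S = SPT.coeffSum ((closure β).normalized o) := ⟨_, rfl⟩
  have hS0 : (0 : ℝ) ≤ S := by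
    rw [hS]
    exact_mod_cast U5.coeffSum_nonneg _
  obtain ⟨m, hm⟩ : ∃ m : ℕ, m = β.length := ⟨_, rfl⟩
  have hne : β ≠ [] := by
    obtain ⟨t, ht, -⟩ := hd
    exact List.ne_nil_of_mem ht
  have hm1 : 1 ≤ m := by
    rw [hm]
    exact List.length_pos_iff.2 hne
  obtain ⟨ε, hε, hP, hM⟩ := side2 β hd
  obtain ⟨γ, hγ⟩ : ∃ γ, γ = β.map (sc ε) := ⟨_, rfl⟩
  have hlen : γ.length = m := by
    rw [hγ, List.length_map, hm]
  have hγne : γ ≠ [] := by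
    rw [hγ]
    simpa using hne
  have hok : Ok2 N γ := by
    rw [hγ]
    exact ok2_sc hβ hε
  rw [← hγ] at hP hM
  have hTB : ∀ b ∈ TB γ, (N : ℤ) ≤ |b| := by
    intro b hb
    obtain ⟨t, ht, rfl⟩ := TB_mem hb
    exact (hok t ht).1
  -- from the bracket to the claim
  have fin : ∀ (R q : ℝ), 2 - (R : ℂ) - (R : ℂ)⁻¹ = -(q : ℂ) → 1 ≤ R → R ^ 2 ≤ 3 → 0 < q →
      12 / (N : ℝ) ^ 2 ≤ q → q ≤ B / (N : ℝ) ^ 2 → q ≤ 1 / 100 → 40 * C * q ≤ 1 →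
      1 / 2 * gg2 (γ.map (wts (R : ℂ))) ≤
        (‖U5.EE (-(q : ℂ)) (γ.map (wts (R : ℂ)))‖ + 2) * (C * q) ^ m →
      (N : ℤ) ^ (2 * β.length - 1) ≤ (N₀ : ℤ) ^ (2 * β.length - 1) * S := by
    intro R q hQ hR1 hR3 hqp hq12 hqB hq1 hCq h1
    have nq : ‖(-(q : ℂ))‖ = q := by
      rw [norm_neg, Complex.norm_real, Real.norm_of_nonneg hqp.le]
    have nR : ‖(R : ℂ)‖ = R := by
      rw [Complex.norm_real, Real.norm_of_nonneg (by linarith)]
    obtain ⟨M, hM'⟩ := thm_Grow.2 γ fun t ht => (hok t ht).2.2.2.2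
    have hsum := thm_SumGen β o ho ε hε M (top2 γ + 2) (by
      intro u hu
      rw [← hγ]
      exact hM' u hu) (R : ℂ) (by rw [nR]; exact hR1) (by
        rw [hQ]
        apply norm_pos_iff.1
        rw [nq]
        exact hqp)
    rw [hQ, ← hS, ← hγ, nR, nq] at hsum
    obtain ⟨g1, g2⟩ := gg2_ge (u := (R : ℂ)) (by rw [nR]; exact hR1) γ
    rw [nR] at g1 g2
    have hpow : R ^ (top2 γ + 2) = R ^ top2 γ * R ^ 2 := by
      rw [zpow_add₀ (by linarith)]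
      norm_cast
    rw [hpow] at hsum
    have hsmall : 2 * (C * q) ^ m ≤ 1 / 4 := by
      have h5 : (C * q) ^ m ≤ (C * q) ^ 1 :=
        pow_le_pow_of_le_one (by positivity) (by linarith) hm1
      rw [pow_one] at h5
      linarith
    have key := coeff_lower2 (T := R ^ top2 γ) (B := B) hNp' hC0 hqp hR3 g2 g1 hS0 h1 hsum hsmall
      hq12 hqB (by linarith)
    have k1 : ((N : ℝ) ^ 2) ^ m = N * (N : ℝ) ^ (2 * m - 1) := by
      rw [← pow_mul, ← pow_succ']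
      congr 1
      omega
    rw [k1] at key
    have k2 : 3 / 20 * (N : ℝ) ^ (2 * m - 1) ≤ S * (B * C) ^ m := by
      have : N * (3 / 20 * (N : ℝ) ^ (2 * m - 1)) ≤ N * (S * (B * C) ^ m) := by linarith
      exact le_of_mul_le_mul_left this hNp
    have k3 : (B * C) ^ m ≤ 3 / 20 * (N₀ : ℝ) ^ (2 * m - 1) := by
      have l0 : B * C / (3 / 20) ≤ (N₀ : ℝ) := by
        have : 0 ≤ 40 * K₀ := by linarith
        linarith
      have l1 : (B * C / (3 / 20)) ^ m ≤ (N₀ : ℝ) ^ m := by gcongr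
      have l2 : (N₀ : ℝ) ^ m ≤ (N₀ : ℝ) ^ (2 * m - 1) :=
        pow_le_pow_right₀ (by linarith) (by omega)
      have l3 : (3 / 20 : ℝ) ^ m ≤ 3 / 20 := by
        have := pow_le_pow_of_le_one (show (0 : ℝ) ≤ 3 / 20 by norm_num) (by norm_num) hm1
        rw [pow_one] at this
        exact this
      have l4 : 0 < (3 / 20 : ℝ) ^ m := by positivity
      rw [div_pow, div_le_iff₀ l4] at l1
      calc (B * C) ^ m ≤ (N₀ : ℝ) ^ m * (3 / 20) ^ m := l1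
        _ ≤ (N₀ : ℝ) ^ (2 * m - 1) * (3 / 20) := by gcongr
        _ = _ := by ring
    have k4 : (N : ℝ) ^ (2 * m - 1) ≤ (N₀ : ℝ) ^ (2 * m - 1) * S := by
      have : 3 / 20 * (N : ℝ) ^ (2 * m - 1) ≤ 3 / 20 * ((N₀ : ℝ) ^ (2 * m - 1) * S) := by
        calc 3 / 20 * (N : ℝ) ^ (2 * m - 1) ≤ S * (B * C) ^ m := k2
          _ ≤ S * (3 / 20 * (N₀ : ℝ) ^ (2 * m - 1)) := by gcongr
          _ = _ := by ring
      exact le_of_mul_le_mul_left this (by norm_num)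
    rw [← hm]
    exact_mod_cast k4
  rw [← hS]
  -- the two points
  obtain ⟨ρ, hρd⟩ : ∃ ρ : ℝ, ρ = K₀ / N := ⟨_, rfl⟩
  have hρ : 0 < ρ := by
    rw [hρd]
    positivity
  have hρ' : ρ ≤ 1 / 40 := by
    rw [hρd, div_le_div_iff₀ hNp (by norm_num)]
    linarith
  obtain ⟨R, q, hR, hRq, q1, q2⟩ := point2 ρ hρ (by linarith)
  obtain ⟨R₂, q₂, hR₂, hRq₂, q3, q4⟩ := point2 (2 * ρ) (by linarith) (by linarith)
  have hR1 : 1 < R := by
    rw [hR]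
    exact Real.one_lt_exp_iff.2 hρ
  have hRR : R₂ = R ^ 2 := by
    rw [hR₂, hR, ← Real.exp_nat_mul]
    norm_num
  have hqq : q₂ = q * (q + 4) := by
    have e1 : ((2 - R - R⁻¹ : ℝ) : ℂ) = ((-q : ℝ) : ℂ) := by
      push_cast
      exact hRq
    have e2 : ((2 - R₂ - R₂⁻¹ : ℝ) : ℂ) = ((-q₂ : ℝ) : ℂ) := by
      push_cast
      exact hRq₂
    have e3 := Complex.ofReal_injective e1
    have e4 := Complex.ofReal_injective e2
    rw [hRR] at e4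
    have e5 : q = R + R⁻¹ - 2 := by linarith
    have e6 : q₂ = R ^ 2 + (R ^ 2)⁻¹ - 2 := by linarith
    rw [e5, e6]
    have hR0 : R ≠ 0 := by linarith
    field_simp
    ring
  have hN2 : (0 : ℝ) < (N : ℝ) ^ 2 := by positivity
  have hqp : 0 < q := lt_of_lt_of_le (by positivity) q1
  have hq12 : 12 / (N : ℝ) ^ 2 ≤ q := by
    refine le_trans ?_ q1
    rw [hρd, div_pow, ← mul_div_assoc]
    gcongr
    nlinarith
  have hqB : q ≤ B / (N : ℝ) ^ 2 := by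
    refine q2.trans ?_
    rw [hρd, div_pow, ← mul_div_assoc, hB]
    gcongr
    norm_num
  have hq₂p : 0 < q₂ := by
    rw [hqq]
    positivity
  have hq₂12 : 12 / (N : ℝ) ^ 2 ≤ q₂ := by
    refine hq12.trans ?_
    rw [hqq]
    nlinarith
  have hq₂B : q₂ ≤ B / (N : ℝ) ^ 2 := by
    refine q4.trans (le_of_eq ?_)
    rw [hρd, hB]
    ring
  have hqK : ∀ x : ℝ, 0 < x → x ≤ B / (N : ℝ) ^ 2 → x * K < 1 := by
    intro x hx h
    have h1 : B / (N : ℝ) ^ 2 * K < 1 := by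
      rw [div_mul_eq_mul_div, div_lt_one hN2]
      have : B * K + 1 ≤ N := by
        have : 0 ≤ 40 * K₀ := by linarith
        linarith
      nlinarith
    have h2 : x * K ≤ B / (N : ℝ) ^ 2 * K := by gcongr
    linarith
  obtain ⟨s1, s2, s3, s4, s5⟩ := small q hqp (hqK q hqp hqB)
  obtain ⟨t1, t2, t3, t4, t5⟩ := small q₂ hq₂p (hqK q₂ hq₂p hq₂B)
  have nq : ‖(-(q : ℂ))‖ = q := by
    rw [norm_neg, Complex.norm_real, Real.norm_of_nonneg hqp.le]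
  have nq₂ : ‖(-(q₂ : ℂ))‖ = q₂ := by
    rw [norm_neg, Complex.norm_real, Real.norm_of_nonneg hq₂p.le]
  have G1 := hG (-(q : ℂ)) (by rw [nq]; exact hqp) (by rw [nq]; exact s1)
  have G2 := hG (-(q₂ : ℂ)) (by rw [nq₂]; exact hq₂p) (by rw [nq₂]; exact t1)
  have hRN : (100 : ℝ) ≤ R ^ (N : ℤ) := by
    have : R ^ (N : ℤ) = Real.exp K₀ := by
      rw [hR, zpow_natCast, ← Real.exp_nat_mul, hρd]
      congr 1
      field_simp
    rw [this]
    exact U5.exp5.trans (Real.exp_le_exp.2 (by linarith))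
  have hR₂1 : 1 < R₂ := by
    rw [hRR]
    exact one_lt_pow₀ hR1 (by norm_num)
  have hR₂N : (100 : ℝ) ≤ R₂ ^ (N : ℤ) := by
    rw [hRR]
    refine hRN.trans ?_
    apply zpow_le_zpow_left₀ hNZ.le (by linarith)
    exact le_self_pow₀ hR1.le (by norm_num)
  have hR₂3 : R₂ ^ 2 ≤ 3 := by
    rw [hR₂, ← Real.exp_nat_mul]
    have h1 : ((2 : ℕ) : ℝ) * (2 * ρ) ≤ 1 := by
      push_cast
      linarith
    have h2 := Real.exp_le_exp.2 h1
    have h3 := Real.exp_one_lt_d9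
    linarith
  have hR3 : R ^ 2 ≤ 3 := by
    rw [← hRR]
    exact (le_self_pow₀ hR₂1.le (by norm_num)).trans hR₂3
  obtain ⟨a1, a2, a3, a4⟩ := turns_bd hqp s3 (by linarith) hNZ hR1 hRN (TB γ) hTB
  obtain ⟨b1, b2, b3, b4⟩ := turns_bd hq₂p t3 (by linarith) hNZ hR₂1 hR₂N (TB γ) hTB
  obtain ⟨c1, c2, c3⟩ := dbl_bd (C := C') (by linarith) hNZ hρ (by rw [← hR]; exact hRN) γ hok
  obtain ⟨d1, d2, -⟩ := dbl_bd (C := C') (by linarith) hNZ (by linarith : 0 < 2 * ρ)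
    (by rw [← hR₂]; exact hR₂N) γ hok
  rw [← hR] at c1 c2
  rw [← hR₂] at d1 d2
  have hPr : (1 : ℝ) ≤ (nP γ : ℝ) := by exact_mod_cast hP
  have hMr : (nM γ : ℝ) ≤ (nP γ : ℝ) := by exact_mod_cast hM
  rw [← hRR] at a4
  rcases two_points (ρ := ρ) (σ := (sg γ : ℝ)) (C := C')
    (n := ((TB γ).countP (· < 0) : ℕ)) (s₁ := sp R (TB γ)) (s₂ := sp R₂ (TB γ)) (q := q) (q₂ := q₂)
    (hu := ((TB γ).map (tf 1 C' q R)).sum + (γ.map (df 1 C' R)).sum)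
    (hl := ((TB γ).map (tf (-1) C' q₂ R₂)).sum + (γ.map (df (-1) C' R₂)).sum)
    hPr hMr (by linarith) (by positivity) a3 a4 hqp (by rw [hqq]; nlinarith)
    (by rw [hqq]; nlinarith) (by
      have e1 : ρ * ((N : ℝ) * nP γ) ≤ ρ * sg γ := by
        apply mul_le_mul_of_nonneg_left _ hρ.le
        exact_mod_cast c3
      have e2 : ρ * ((N : ℝ) * nP γ) = K₀ * nP γ := by
        rw [hρd]
        field_simp
      rw [e2, hK₀] at e1
      exact e1) (by linarith) (by linarith) with h | h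
  · have h1 := at_point (N := N) hC' hRat G1 hqp s2 s4 hR hρ hNp' hRN hok hγne (Or.inl h)
    rw [hlen] at h1
    exact fin R q hRq hR1.le hR3 hqp hq12 hqB s5 s4 h1
  · have h1 := at_point (N := N) hC' hRat G2 hq₂p t2 t4 hR₂ (by linarith) hNp' hR₂N hok hγne
      (Or.inr h)
    rw [hlen] at h1
    exact fin R₂ q₂ hRq₂ hR₂1.le hR₂3 hq₂p hq₂12 hq₂B t5 t4 h1

/-- **closed 4-braids, an absolute constant** -/
theorem thm_FourBraids4 : St_FourBraids4 := by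
  obtain ⟨N₁, hN₁, h1⟩ := part1
  obtain ⟨N₂, hN₂, h2⟩ := part2
  refine ⟨N₁ + N₂, by omega, ?_⟩
  intro N hN β hβ o ho
  have up : ∀ N' : ℕ, N' ≤ N₁ + N₂ → (N : ℤ) ^ (2 * β.length - 1) ≤
      (N' : ℤ) ^ (2 * β.length - 1) * SPT.coeffSum ((closure β).normalized o) →
      (N : ℤ) ^ (2 * β.length - 1) ≤
      ((N₁ + N₂ : ℕ) : ℤ) ^ (2 * β.length - 1) * SPT.coeffSum ((closure β).normalized o) := by
    intro N' hN' h
    refine h.trans ?_
    apply mul_le_mul_of_nonneg_right _ (U5.coeffSum_nonneg _)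
    apply pow_le_pow_left₀ (by positivity)
    exact_mod_cast hN'
  have hcase : ((∀ t ∈ β, ¬ (0 < t.1 ∧ 0 < t.2.1)) ∨ ∀ t ∈ β, ¬ (t.1 < 0 ∧ t.2.1 < 0)) ∨
      (∀ t ∈ β, 0 ≤ t.1 * t.2.1) ∧
        ∃ t ∈ β, (0 < t.1 ∧ 0 < t.2.1) ∨ (t.1 < 0 ∧ t.2.1 < 0) := by
    rcases hβ.2.2.2.1 with h | h | h
    · exact Or.inl (Or.inl h)
    · exact Or.inl (Or.inr h)
    · by_cases h3 : ∃ t ∈ β, (0 < t.1 ∧ 0 < t.2.1) ∨ (t.1 < 0 ∧ t.2.1 < 0)
      · exact Or.inr ⟨h, h3⟩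
      · left
        left
        intro t ht h4
        exact h3 ⟨t, ht, Or.inl h4⟩
  rcases hcase with h | ⟨h, h3⟩
  · exact up N₁ (by omega) (h1 N (by omega) β hβ h o ho)
  · refine up N₂ (by omega) (h2 N (by omega) β ?_ h3 o ho)
    intro t ht
    obtain ⟨a1, a2, a3, a4⟩ := hβ.1 t ht
    exact ⟨a1, a2, a3, a4, h t ht⟩

end Pool.Agent.FB.U6
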