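import Pool.Agent.FB.U6.CORE

/-!
# FB/U6/XY: a word in `σ₁, σ₂` followed by a word in `σ₂, σ₃`; the first part of the theorem
-/

set_option autoImplicit false

open Matrix Pool.RU

namespace Pool.Agent.FB.U6

open Pool.Agent.FB.U5 (TURNS_chc TB IsTurn pairs sc top wts Word5 Bnd core5)

theorem chc_eq (e : ℤ × ℤ × ℤ) : ∀ l : List (ℤ × ℤ × ℤ),
    ((l.zip (l.tail ++ [e])).filter fun q => IsTurn q.1 q.2).map (fun q => q.2.2.2) =
      TURNS_chc l e
  | [] => by simp [TURNS_chc]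
  | [s] => by
    by_cases h : IsTurn s e <;> simp [TURNS_chc, h]
  | s :: s' :: L => by
    have ih := chc_eq e (s' :: L)
    rw [TURNS_chc, ← ih]
    by_cases h : IsTurn s s' <;> simp [h]

theorem TB_chc (s : ℤ × ℤ × ℤ) (L : List (ℤ × ℤ × ℤ)) :
    TB (s :: L) = TURNS_chc (s :: L) s := by
  rw [← chc_eq]
  simp [TB, pairs]

theorem chc_AB (e t : ℤ × ℤ × ℤ) (R : List (ℤ × ℤ × ℤ)) (ht : t.1 = 0 ∧ t.2.1 ≠ 0) :
    ∀ (P : List (ℤ × ℤ × ℤ)) (s : ℤ × ℤ × ℤ), (∀ u ∈ s :: P, u.2.1 = 0 ∧ u.1 ≠ 0) →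
      TURNS_chc (s :: P ++ t :: R) e = t.2.2 :: TURNS_chc (t :: R) e
  | [], s, h => by
    have hs := h s (by simp)
    have h1 : IsTurn s t := Or.inr ⟨ht.1, hs.1⟩
    show TURNS_chc (s :: t :: R) e = _
    rw [TURNS_chc]
    simp [h1]
  | s' :: P, s, h => by
    have hs := h s (by simp)
    have hs' := h s' (by simp)
    have ih := chc_AB e t R ht P s' (fun u hu => h u (List.mem_cons_of_mem _ hu))
    have h1 : ¬ IsTurn s s' := by
      rintro (⟨-, h2⟩ | ⟨h2, -⟩)
      · exact hs.2 h2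
      · exact hs'.2 h2
    show TURNS_chc (s :: s' :: (P ++ t :: R)) e = _
    rw [TURNS_chc]
    have e1 : TURNS_chc (s' :: (P ++ t :: R)) e = TURNS_chc (s' :: P ++ t :: R) e := rfl
    rw [e1, ih]
    simp [h1]

theorem chc_BB (e : ℤ × ℤ × ℤ) (he : e.2.1 = 0 ∧ e.1 ≠ 0) :
    ∀ (R : List (ℤ × ℤ × ℤ)) (t : ℤ × ℤ × ℤ), (∀ u ∈ t :: R, u.1 = 0 ∧ u.2.1 ≠ 0) →
      TURNS_chc (t :: R) e = [e.2.2]
  | [], t, h => by
    have ht := h t (by simp)
    have h1 : IsTurn t e := Or.inl ⟨he.1, ht.1⟩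
    simp [TURNS_chc, h1]
  | t' :: R, t, h => by
    have ht := h t (by simp)
    have ht' := h t' (by simp)
    have ih := chc_BB e he R t' (fun u hu => h u (List.mem_cons_of_mem _ hu))
    have h1 : ¬ IsTurn t t' := by
      rintro (⟨h2, -⟩ | ⟨-, h2⟩)
      · exact ht'.2 h2
      · exact ht.2 h2
    rw [TURNS_chc, ih]
    simp [h1]

theorem TB_AB (s t : ℤ × ℤ × ℤ) (P R : List (ℤ × ℤ × ℤ))
    (h1 : ∀ u ∈ s :: P, u.2.1 = 0 ∧ u.1 ≠ 0) (h2 : ∀ u ∈ t :: R, u.1 = 0 ∧ u.2.1 ≠ 0) :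
    TB (s :: P ++ t :: R) = [t.2.2, s.2.2] := by
  show TB (s :: (P ++ t :: R)) = _
  rw [TB_chc]
  show TURNS_chc (s :: P ++ t :: R) s = _
  rw [chc_AB s t R (h2 t (by simp)) P s h1, chc_BB s (h1 s (by simp)) R t h2]

/-- splitting a sum into two halves of the same sign -/
theorem halves {B : ℤ} {N : ℕ} (hN : 2 ≤ N) (h : (N : ℤ) ≤ |B|) :
    ∃ b b' : ℤ, b + b' = B ∧ ((N / 2 : ℕ) : ℤ) ≤ |b| ∧ ((N / 2 : ℕ) : ℤ) ≤ |b'| ∧ 0 < b * b' := by
  rcases le_or_gt 0 B with h0 | h0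
  · rw [abs_of_nonneg h0] at h
    refine ⟨B / 2, B - B / 2, by ring, ?_, ?_, ?_⟩
    · rw [abs_of_nonneg (by omega)]
      omega
    · rw [abs_of_nonneg (by omega)]
      omega
    · apply mul_pos <;> omega
  · rw [abs_of_neg h0] at h
    refine ⟨-(-B / 2), B + -B / 2, by ring, ?_, ?_, ?_⟩
    · rw [abs_of_nonpos (by omega)]
      omega
    · rw [abs_of_nonpos (by omega)]
      omega
    · apply mul_pos_of_neg_of_neg <;> omega

theorem ne_of_large {u : ℂ} (hu : 16 ≤ ‖u‖) : 2 - u - u⁻¹ ≠ 0 := by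
  intro h
  have h1 : u = 2 - u⁻¹ := by linear_combination -h
  have h2 : ‖u⁻¹‖ ≤ 1 := by
    rw [norm_inv]
    exact inv_le_one_of_one_le₀ (by linarith)
  have h3 : ‖u‖ ≤ ‖(2 : ℂ)‖ + ‖u⁻¹‖ := by
    conv_lhs => rw [h1]
    exact norm_sub_le _ _
  have h4 : ‖(2 : ℂ)‖ = 2 := by norm_num
  linarith

/-- the bound for a word itself -/
theorem bnd_self (β : List (ℤ × ℤ × ℤ)) (o : Tip 3 (0 + (word β).length) → Bool)
    (ho : (closure β).IsOrientation o) :
    Bnd (SPT.coeffSum ((closure β).normalized o) : ℝ) β := by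
  intro ε hε hcls u hu hQ
  exact U5.thm_Sum β o ho ε hε hcls u hu hQ

/-- the bound for a mutated word -/
theorem bnd_mut (β β₁ : List (ℤ × ℤ × ℤ)) (o : Tip 3 (0 + (word β).length) → Bool)
    (ho : (closure β).IsOrientation o)
    (hE : ∀ (ε : ℤ) (u : ℂ), (ε = 1 ∨ ε = -1) → u ≠ 0 → 2 - u - u⁻¹ ≠ 0 →
      U5.EE (2 - u - u⁻¹) ((β₁.map (sc ε)).map (wts u)) =
        U5.EE (2 - u - u⁻¹) ((β.map (sc ε)).map (wts u))) :
    Bnd (SPT.coeffSum ((closure β).normalized o) : ℝ) β₁ := by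
  intro ε hε hcls u hu hQ
  obtain ⟨M, hM⟩ := thm_Grow.1 (β₁.map (sc ε)) (by
    intro t ht
    obtain ⟨s, hs, rfl⟩ := List.mem_map.1 ht
    exact hcls s hs)
  rw [hE ε u hε (by
    intro h
    rw [h, norm_zero] at hu
    linarith) hQ]
  refine thm_SumGen β o ho ε hε M (top (β₁.map (sc ε)) + 2) ?_ u hu hQ
  intro w hw
  rw [← hE ε w hε (by
    intro h
    rw [h, norm_zero] at hw
    linarith) (ne_of_large hw)]
  exact hM w hw

/-- **the first part**: one of the two cases `a_i, c_i > 0`; `a_i, c_i < 0` does not occur -/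
theorem part1 : ∃ N₀ : ℕ, 0 < N₀ ∧ ∀ N : ℕ, N₀ ≤ N → ∀ β : List (ℤ × ℤ × ℤ),
    LongWord4 N β →
    ((∀ t ∈ β, ¬ (0 < t.1 ∧ 0 < t.2.1)) ∨ ∀ t ∈ β, ¬ (t.1 < 0 ∧ t.2.1 < 0)) →
    ∀ o, (closure β).IsOrientation o →
    (N : ℤ) ^ (2 * β.length - 1) ≤
      (N₀ : ℤ) ^ (2 * β.length - 1) * SPT.coeffSum ((closure β).normalized o) := by
  obtain ⟨N₀, hN₀, hcore⟩ := core5
  refine ⟨3 * N₀, by omega, ?_⟩
  intro N hN β hβ hcl o ho
  obtain ⟨h1, h2, h3, -, h5⟩ := hβ
  obtain ⟨S, hS⟩ : ∃ S : ℤ, S = SPT.coeffSum ((closure β).normalized o) := ⟨_, rfl⟩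
  have hS0 : (0 : ℝ) ≤ S := by
    rw [hS]
    exact_mod_cast U5.coeffSum_nonneg _
  rw [← hS]
  obtain ⟨k, hk⟩ : ∃ k : ℕ, k = 2 * β.length - 1 := ⟨_, rfl⟩
  -- the words of the first part
  have direct : Word5 N β → (N : ℤ) ^ k ≤ ((3 * N₀ : ℕ) : ℤ) ^ k * S := by
    intro hw
    have hb := bnd_self β o ho
    rw [← hS] at hb
    have h6 := hcore N (by omega) β hw S hS0 hb
    rw [← hk] at h6
    have h7 : (N₀ : ℝ) ^ k ≤ (((3 * N₀ : ℕ) : ℤ) : ℝ) ^ k := by
      apply pow_le_pow_left₀ (by positivity)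
      push_cast
      have : (0 : ℝ) ≤ N₀ := by positivity
      linarith
    have h8 : (N : ℝ) ^ k ≤ (((3 * N₀ : ℕ) : ℤ) : ℝ) ^ k * S :=
      h6.trans (mul_le_mul_of_nonneg_right h7 hS0)
    exact_mod_cast h8
  rw [← hk]
  by_cases hd : ∃ t ∈ β, t.1 ≠ 0 ∧ t.2.1 ≠ 0
  · exact direct ⟨h1, h2, h3, hcl, Or.inl hd⟩
  · push Not at hd
    have hd' : ∀ t ∈ β, t.1 = 0 ∨ t.2.1 = 0 := fun t ht => by
      by_cases h : t.1 = 0
      · exact Or.inl h
      · exact Or.inr (hd t ht h)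
    rcases U5.thm_Turns β (fun t ht => (h1 t ht).2.2.2) hd' h2 h3 with h6 | ⟨s, t, P, R, h6, h7, h8, h9⟩
    · exact direct ⟨h1, h2, h3, hcl, Or.inr (Or.inl h6)⟩
    · rcases lt_or_ge 0 (s.2.2 * t.2.2) with h10 | h10
      · exact direct ⟨h1, h2, h3, hcl, Or.inr (Or.inr ⟨_, _, h9, h10⟩)⟩
      · -- mutation
        have h11 := h5 s t P R h6 h7 h8
        have hN2 : 2 ≤ N := by omega
        obtain ⟨b, b', e1, e2, e3, e4⟩ := halves hN2 h11
        have hmem : ∀ u, u ∈ β ↔ u ∈ s :: P ++ t :: R := fun u => h6.perm.mem_iff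
        have hs := h1 s ((hmem s).2 (by simp))
        have ht := h1 t ((hmem t).2 (by simp))
        obtain ⟨β₁, hβ₁⟩ : ∃ β₁ : List (ℤ × ℤ × ℤ),
            β₁ = (s.1, s.2.1, b) :: P ++ (t.1, t.2.1, b') :: R := ⟨_, rfl⟩
        have hA : ∀ u ∈ (s.1, s.2.1, b) :: P, u.2.1 = 0 ∧ u.1 ≠ 0 := by
          intro u hu
          rcases List.mem_cons.1 hu with rfl | hu
          · have k1 := h7 s (by simp)
            refine ⟨k1, fun h => hs.2.2.2 ⟨h, k1⟩⟩
          · have k1 := h7 u (List.mem_cons_of_mem _ hu)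
            refine ⟨k1, fun h => (h1 u ((hmem u).2 (by simp [hu]))).2.2.2 ⟨h, k1⟩⟩
        have hB : ∀ u ∈ (t.1, t.2.1, b') :: R, u.1 = 0 ∧ u.2.1 ≠ 0 := by
          intro u hu
          rcases List.mem_cons.1 hu with rfl | hu
          · have k1 := h8 t (by simp)
            refine ⟨k1, fun h => ht.2.2.2 ⟨k1, h⟩⟩
          · have k1 := h8 u (List.mem_cons_of_mem _ hu)
            refine ⟨k1, fun h => (h1 u ((hmem u).2 (by simp [hu]))).2.2.2 ⟨k1, h⟩⟩
        have hTB : TB β₁ = [b', b] := by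
          rw [hβ₁]
          exact TB_AB _ _ P R hA hB
        have hlen : β₁.length = β.length := by
          rw [hβ₁, h6.perm.length_eq]
          simp
        have hhalf : ((N / 2 : ℕ) : ℤ) ≤ N := by omega
        have hmem1 : ∀ u ∈ β₁, u = (s.1, s.2.1, b) ∨ u = (t.1, t.2.1, b') ∨ u ∈ β := by
          intro u hu
          rw [hβ₁] at hu
          rcases List.mem_append.1 hu with hu | hu
          · rcases List.mem_cons.1 hu with hu | hu
            · exact Or.inl hu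
            · exact Or.inr (Or.inr ((hmem u).2 (List.mem_append_left _ (List.mem_cons_of_mem _ hu))))
          · rcases List.mem_cons.1 hu with hu | hu
            · exact Or.inr (Or.inl hu)
            · exact Or.inr (Or.inr ((hmem u).2 (List.mem_append_right _ (List.mem_cons_of_mem _ hu))))
        have hW : Word5 ((N / 2 : ℕ) : ℤ) β₁ := by
          refine ⟨?_, ?_, ?_, ?_, ?_⟩
          · intro u hu
            rcases hmem1 u hu with rfl | rfl | hu
            · exact ⟨e2, hs.2.1.imp id (fun h => hhalf.trans h),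
                hs.2.2.1.imp id (fun h => hhalf.trans h), hs.2.2.2⟩
            · exact ⟨e3, ht.2.1.imp id (fun h => hhalf.trans h),
                ht.2.2.1.imp id (fun h => hhalf.trans h), ht.2.2.2⟩
            · have := h1 u hu
              exact ⟨hhalf.trans this.1, this.2.1.imp id (fun h => hhalf.trans h),
                this.2.2.1.imp id (fun h => hhalf.trans h), this.2.2.2⟩
          · exact ⟨(s.1, s.2.1, b), by rw [hβ₁]; simp, (hA _ (by simp)).2⟩
          · exact ⟨(t.1, t.2.1, b'), by rw [hβ₁]; simp, (hB _ (by simp)).2⟩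
          · left
            intro u hu
            rcases hmem1 u hu with rfl | rfl | hu
            · rintro ⟨-, h⟩
              have := (hA (s.1, s.2.1, b) (by simp)).1
              rw [this] at h
              exact lt_irrefl _ h
            · rintro ⟨h, -⟩
              have := (hB (t.1, t.2.1, b') (by simp)).1
              rw [this] at h
              exact lt_irrefl _ h
            · rintro ⟨h, h'⟩
              rcases hd' u hu with h0 | h0
              · rw [h0] at h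
                exact lt_irrefl _ h
              · rw [h0] at h'
                exact lt_irrefl _ h'
          · right
            right
            refine ⟨b', b, by rw [hTB], ?_⟩
            rw [mul_comm]
            exact e4
        have hE : ∀ (ε : ℤ) (u : ℂ), (ε = 1 ∨ ε = -1) → u ≠ 0 → 2 - u - u⁻¹ ≠ 0 →
            U5.EE (2 - u - u⁻¹) ((β₁.map (sc ε)).map (wts u)) =
              U5.EE (2 - u - u⁻¹) ((β.map (sc ε)).map (wts u)) := by
          intro ε u hε hu hQ
          have r1 : (β.map (sc ε)).map (wts u) ~r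
              (((s :: P ++ t :: R).map (sc ε)).map (wts u)) := (h6.map _).map _
          rw [MUT.EE_rot r1, hβ₁]
          have m1 := thm_Mut.1 (2 - u - u⁻¹) (wts u (sc ε s)) (wts u (sc ε t))
            ((P.map (sc ε)).map (wts u)) ((R.map (sc ε)).map (wts u)) (u ^ (ε * b)) (u ^ (ε * b')) hQ
            (by
              intro w hw
              have : w ∈ ((s :: P).map (sc ε)).map (wts u) := by simpa using hw
              obtain ⟨x, hx, rfl⟩ := List.mem_map.1 this
              obtain ⟨y, hy, rfl⟩ := List.mem_map.1 hx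
              show u ^ (ε * y.2.1) = 1
              rw [h7 y hy, mul_zero, zpow_zero])
            (by
              intro w hw
              have : w ∈ ((t :: R).map (sc ε)).map (wts u) := by simpa using hw
              obtain ⟨x, hx, rfl⟩ := List.mem_map.1 this
              obtain ⟨y, hy, rfl⟩ := List.mem_map.1 hx
              show u ^ (ε * y.1) = 1
              rw [h8 y hy, mul_zero, zpow_zero])
            (by
              show u ^ (ε * b) * u ^ (ε * b') = u ^ (ε * s.2.2) * u ^ (ε * t.2.2)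
              rw [← zpow_add₀ hu, ← zpow_add₀ hu, ← mul_add, ← mul_add, e1])
          simpa [wts, sc] using m1
        have hb := bnd_mut β β₁ o ho hE
        rw [← hS] at hb
        have h12 := hcore (N / 2) (by omega) β₁ hW S hS0 hb
        rw [hlen, ← hk] at h12
        have h13 : (N : ℝ) ≤ 3 * ((N / 2 : ℕ) : ℝ) := by
          have : N ≤ 3 * (N / 2) := by omega
          exact_mod_cast this
        have h14 : (N : ℝ) ^ k ≤ (((3 * N₀ : ℕ) : ℤ) : ℝ) ^ k * S := by
          push_cast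
          calc (N : ℝ) ^ k ≤ (3 * ((N / 2 : ℕ) : ℝ)) ^ k := by gcongr
            _ = 3 ^ k * ((N / 2 : ℕ) : ℝ) ^ k := by rw [mul_pow]
            _ ≤ 3 ^ k * ((N₀ : ℝ) ^ k * S) := by gcongr
            _ = _ := by rw [mul_pow]; ring
        exact_mod_cast h14

end Pool.Agent.FB.U6
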